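import Pool.Agent.P.MP_7f6fde_gt.B.SDefs
import Pool.Agent.P.MP_7f6fde_gt.Defs
import Pool.Agent.P.MP_ac4909_gt.B.GB_Col

/-! Translation of words, collars of the local pictures. -/

namespace Pool.Agent.P.MP_ac4909_gt.B.K7

open Set

instance revBool : Rev Bool := ⟨not, Bool.not_not⟩

instance revUnit : Rev Unit := ⟨id, fun _ => rfl⟩

/-- from slices with side strands to slices with positions -/
def tr {α β : Type} (f : α → β) (s : Sl α) : MP_7f6fde_gt.Sl β :=
  match s.g with
  | .cup o => .cup s.l.length (f o)
  | .cap _ => .cap s.l.length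
  | .cr _ _ b => .cr s.l.length b

/-- the collars of the crossings and of their smoothings -/
noncomputable def xcol : Collar 2 Empty where
  ξ b y := (if b.1 = 0 then -1 else 1) * y / 2
  ζ _ := 0
  lab _ := none
  cont _ := by fun_prop
  boxx b y hy := by
    rw [abs_le]; split_ifs <;> constructor <;> linarith [hy.1, hy.2]
  boxz _ := by norm_num
  order k k' σ hk _ y hy y' hy' := by
    fin_cases k <;> fin_cases k' <;> simp at hk ⊢
    linarith

/-- the collars of a single strand -/
noncomputable def lcol : Collar 1 Empty where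
  ξ _ _ := 0
  ζ _ := 0
  lab _ := none
  cont _ := continuousOn_const
  boxx _ _ _ := by norm_num
  boxz _ := by norm_num
  order k k' _ hk := absurd (Subsingleton.elim k k') hk.ne

theorem st_eq : MP_7f6fde_gt.S.st = st := rfl

theorem sab_eq : MP_7f6fde_gt.S.sab = sab := rfl

theorem trace_eq {κ : Type} (γ : κ → ℝ → E3) : MP_7f6fde_gt.S.trace γ = trace γ := rfl

end Pool.Agent.P.MP_ac4909_gt.B.K7
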