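import Pool.Agent.P.MP_7f6fde_gt.B.Dir
import Pool.Agent.P.MP_ac4909_gt.B.GB_Core

/-! The words of links that differ inside the standard cube. -/

namespace Pool.Agent.P.MP_ac4909_gt.B.K7

open scoped ContDiff
open Set Filter Topology
open Pool.Agent.P.MP_7f6fde_gt.S (rays)

variable {κ κ' I I' O : Type} {γ : κ → ℝ → E3} {γ' : κ' → ℝ → E3} {n : ℕ} {Co : Collar n Empty}

/-- the vertical framing -/
noncomputable def vl (γ : κ → ℝ → E3) : Lk κ := ⟨γ, fun _ _ => ez⟩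

theorem vl_isLink (hγ : IsU γ) (hv : NonVert γ) : (vl γ).IsLink := by
  refine ⟨hγ, fun _ => contDiff_const, fun _ _ => rfl, fun c t => ?_⟩
  refine LinearIndependent.pair_iff.2 fun a b h => ?_
  have h0 := congrArg (fun p : E3 => p 0) h
  have h1 := congrArg (fun p : E3 => p 1) h
  have h2 := congrArg (fun p : E3 => p 2) h
  simp [vl, ez] at h0 h1 h2
  have ha : a = 0 := by
    rcases hv c t with e | e
    · exact h0.resolve_right e
    · exact h1.resolve_right e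
  rw [ha] at h2
  exact ⟨ha, by simpa using h2⟩

theorem mem_vl (x : Option Empty × E3 × E3) :
    x ∈ (vl γ).set (fun _ => none) ↔ x.2.1 ∈ trace γ ∧ x.2.2 = ez := by
  obtain ⟨o, p, v⟩ := x
  constructor
  · rintro ⟨c, t, e⟩
    simp only [Prod.mk.injEq] at e
    exact ⟨mem_iUnion.2 ⟨c, t, e.2.1.symm⟩, e.2.2⟩
  · rintro ⟨hp, rfl⟩
    obtain ⟨c, t, rfl⟩ := mem_iUnion.1 hp
    exact ⟨c, t, Prod.ext (Subsingleton.elim _ _) rfl⟩

theorem mem_nn {A : Set E3} (y : Option Empty × E3) : y ∈ (nn A : Pic Empty) ↔ y.2 ∈ A :=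
  and_iff_right (Subsingleton.elim _ _)

theorem mem_picOf (y : Option Empty × E3) :
    y ∈ picOf ((vl γ).set fun _ => none) ↔ y.2 ∈ trace γ :=
  (mem_vl _).trans (and_iff_left rfl)

/-- the complement of the closed cube that contains the inner parts -/
def shell : Set E3 := {p | ∃ j, 3 / 4 < |p j|}

theorem isOpen_shell : IsOpen shell := by
  have : shell = ⋃ j, {p : E3 | 3 / 4 < |p j|} := by
    ext p; simp [shell]
  rw [this]
  exact isOpen_iUnion fun j => isOpen_lt continuous_const (by fun_prop)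

theorem mem_shell {p : E3} {r : ℝ} (hr : 3 / 4 < r) (h : p ∉ Qb r) : p ∈ shell := by
  simp only [Qb, mem_ofPred_eq, not_forall, not_lt] at h
  obtain ⟨i, hi⟩ := h
  exact ⟨i, hr.trans_le hi⟩

/-- the link has the picture of the content in the cube -/
def Fits (γ : κ → ℝ → E3) (Ct : Content Co I) : Prop :=
  ∀ p ∈ Qb (7 / 8), p ∈ trace γ ↔ (none, p) ∈ Ct.pic

theorem Fits.std {Ct : Content Co I} (h : Fits γ Ct) :
    Std (7 / 8) ((vl γ).set fun _ => none) Ct.pic :=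
  ggeq_std.2 fun x hx => (mem_vl x).trans (and_congr_left' (by
    rw [h _ hx, Subsingleton.elim x.1 none]))

theorem fits_of {A : Set E3} {Ct : Content Co I} (hi : ∀ p ∈ Qb (7 / 8), p ∈ trace γ ↔ p ∈ A)
    (hp : ∀ y : Option Empty × E3, y.2 ∈ Qb (9 / 8) → (y ∈ Ct.pic ↔ y ∈ nn A)) : Fits γ Ct :=
  fun p h => by rw [hi p h, hp (none, p) fun i => (h i).trans (by norm_num), mem_nn]

section Glue

variable {A : Pic Empty} (Ou : Outer Co A O) (Ct : Content Co I) (Ct' : Content Co I')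

theorem glue_lab [Fintype κ] [Fintype O] [Fintype I] [DecidableEq O] [DecidableEq I]
    (hγ : IsU γ) (ho : ∀ p ∉ Qb (7 / 8), p ∈ trace γ ↔ (none, p) ∈ A) (hi : Fits γ Ct) :
    ∃ dl : O ⊕ I → O ⊕ I → Arc κ, (Ou.glue Ct).Lab γ dl ∧ ((Ou.glue Ct).grid dl).OK ∧
      HasWord true γ (((Ou.glue Ct).grid dl).word (Ou.glueRz Ct)) := by
  have hp := Ou.glue_pic Ct (T := (vl γ).set fun _ => none) (fun y hy => by
    rw [mem_picOf, ho _ hy, Subsingleton.elim none y.1]) hi.std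
  have hV := Ou.glue_valid Ct
  have hs : (Ou.glue Ct).supp = trace γ := by
    ext p
    rw [← mem_picOf (none, p), hp, Conf.supp, mem_iUnion]
    exact exists_congr fun a => (and_iff_left (Subsingleton.elim _ _)).symm
  obtain ⟨dl, hdl⟩ := exists_lab hγ hV hs
  exact ⟨dl, hdl, hdl.ok hγ hV, O ⊕ I, inferInstance, inferInstance, Ou.glue Ct, dl,
    Ou.glueRz Ct, hV, hs, hdl, Ou.glue_good Ct, rfl⟩

variable [DecidableEq O] [DecidableEq I] [DecidableEq I'] {β : Type} [Rev β]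

theorem glue_congr {d : O ⊕ I → O ⊕ I → β} {d' : O ⊕ I' → O ⊕ I' → β}
    (hG : ((Ou.glue Ct).grid d).OK) (hG' : ((Ou.glue Ct').grid d').OK)
    (h₁ : ∀ v s e, (∀ b, v ≠ Ou.ρ b) → Ou.C.nb (.inl v) s = .inl e →
      d' (.inl v) (.inl e) = d (.inl v) (.inl e))
    (h₂ : ∀ b, d' (.inl (Ou.ρ b)) (.inr (Ct'.bc b)) = d (.inl (Ou.ρ b)) (.inr (Ct.bc b))) :
    ((Ou.glue Ct').grid d').word (Ou.glueRz Ct') =
      ((Ou.glue Ct).grid d).evs (Ou.glueRz Ct) (Ou.glueRz Ct).X (Ou.Y₁.map .inl) ++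
      (((Ou.glue Ct').grid d').evs (Ou.glueRz Ct') (Ct'.Xb.map .inr) (Ct'.Yb.map .inr)).map
        (pad (((Ou.glue Ct).grid d).rowAt (Ou.Y₁.map .inl) (Ou.X₁.map .inl))
          (((Ou.glue Ct).grid d).rowAt (Ou.Y₁.map .inl) (Ou.X₂.map .inl))) ++
      ((Ou.glue Ct).grid d).evs (Ou.glueRz Ct) (Ou.glueRz Ct).X (Ou.Y₂.map .inl) := by
  obtain ⟨e₁, e₂, e₃, e₄⟩ := Blk.congr (Ou.glue_blk Ct hG) (Ou.glue_blk Ct' hG')
    (fun v hv s => by
      have hc := (Ou.memX v).1 hv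
      have hρ : ∀ b, v ≠ Ou.ρ b := fun b hb => by
        rw [hb, Ou.col_ρ] at hc
        exact Bool.false_ne_true hc
      obtain ⟨e, he⟩ := Ou.nb_inl hρ s
      refine ⟨e, Ou.glue_nb_out Ct he, Ou.glue_nb_out Ct' he, ?_⟩
      have k : d ((Ou.glue Ct).nb (.inl v) s) (.inl v) =
          Rev.rev (d (.inl v) ((Ou.glue Ct).nb (.inl v) s)) := hG.dl_rev (.inl v) s
      have k' : d' ((Ou.glue Ct').nb (.inl v) s) (.inl v) =
          Rev.rev (d' (.inl v) ((Ou.glue Ct').nb (.inl v) s)) := hG'.dl_rev (.inl v) s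
      rw [Ou.glue_nb_out Ct he] at k
      rw [Ou.glue_nb_out Ct' he, h₁ v s e hρ he, ← k] at k'
      exact k') h₂ (fun _ _ => Iff.rfl) fun e b => by
      change Ou.C.pt (.inl e) 2 < Ct.C.pt (.inl (Ct.bc b)) 2 ↔
        Ou.C.pt (.inl e) 2 < Ct'.C.pt (.inl (Ct'.bc b)) 2
      rw [Ct.pt_bc, Ct'.pt_bc, Collar.cl_two, Collar.cl_two]
  rw [← e₁, ← e₂, ← e₃, ← e₄]
  exact (Ou.glue_blk Ct' hG').word

omit [Rev β] [DecidableEq I'] in
theorem glue_shadow (d : O ⊕ I → O ⊕ I → β) :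
    (((Ou.glue Ct).grid d).evs (Ou.glueRz Ct) (Ct.Xb.map .inr) (Ct.Yb.map .inr)).map
      (Sl.map fun _ => Nm.no) = Ct.word := by
  rw [← Ou.evs_in Ct, ← Grid.evs_map]
  congr 1
  refine congrArg (Grid.mk _ _) (funext fun a => funext fun b => congrArg Nm.mk ?_)
  exact Subsingleton.elim _ _

omit [DecidableEq O] [DecidableEq I] [DecidableEq I'] in
theorem cl_injOn (b : Fin n × Bool) (J : Set ℝ) : InjOn (fun p : E3 => p 1) (Co.cl b '' J) := by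
  rintro _ ⟨t, -, rfl⟩ _ ⟨t', -, rfl⟩ h
  simp only [Collar.cl_one] at h
  have : t = t' := by
    split_ifs at h <;> linarith
  rw [this]

omit [DecidableEq O] [DecidableEq I] [DecidableEq I'] in
theorem up_out {dl : O ⊕ I → O ⊕ I → Arc κ} {dl' : O ⊕ I' → O ⊕ I' → Arc κ'} (hγ : IsU γ)
    (hγ' : IsU γ') (hl : (Ou.glue Ct).Lab γ dl) (hl' : (Ou.glue Ct').Lab γ' dl')
    (hr : ∀ x ∈ rays γ, x.1 ∈ shell → x ∈ rays γ') (v : O) (s : Bool) (e : O)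
    (hρ : ∀ b, v ≠ Ou.ρ b) (he : Ou.C.nb (.inl v) s = .inl e) :
    (dl' (.inl v) (.inl e)).up = (dl (.inl v) (.inl e)).up := by
  have hV := Ou.glue_valid Ct
  obtain ⟨i, s₀, -, hM⟩ := hV.mono (.inl v)
  have e₁ := Ou.glue_nb_out Ct he
  have e₂ := Ou.glue_nb_out Ct' he
  have hi := hM.inj.mono (((Ou.glue Ct).arc_subset_star _ s).trans (hV.star_subset_win _))
  have ha := hV.isArc (.inl v) s
  have hne : (Ou.glue Ct).pt ((Ou.glue Ct).nb (.inl v) s) i - (Ou.glue Ct).pt (.inl v) i ≠ 0 :=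
    sub_ne_zero.2 fun h => ha.ne (hi ha.right_mem ha.left_mem h).symm
  have hU : (Ou.glue Ct).pt (.inl v) ∈ shell := by
    change Ou.C.pt (.inl v) ∈ shell
    rcases Ou.pos v hρ with ⟨j, h | h⟩ | ⟨b, h⟩
    · exact ⟨j, lt_abs.2 (Or.inr (by linarith [h _ (Ou.pt_mem_star v)]))⟩
    · exact ⟨j, lt_abs.2 (Or.inl (by linarith [h _ (Ou.pt_mem_star v)]))⟩
    · obtain ⟨t, ht, h⟩ := h (Ou.pt_mem_star v)
      have := Ou.lv_gt b
      exact ⟨1, by rw [← h, gout_abs Co b (by linarith [ht.1])]; linarith [ht.1]⟩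
  have k := lab_up_eq hγ hγ' hl hl' (.inl v) s (.inl v) s (i := i) hi (by
    rw [e₂]; rw [e₁] at hi; exact hi) isOpen_shell ⟨_, ha.left_mem, hU⟩ (by
    rw [e₁, e₂]; exact inter_subset_left) hr (by
    rw [e₂]; rw [e₁] at hne ⊢; exact mul_self_pos.2 hne)
  rwa [e₁, e₂] at k

omit [DecidableEq O] [DecidableEq I] [DecidableEq I'] in
theorem up_bc {dl : O ⊕ I → O ⊕ I → Arc κ} {dl' : O ⊕ I' → O ⊕ I' → Arc κ'} (hγ : IsU γ)
    (hγ' : IsU γ') (hl : (Ou.glue Ct).Lab γ dl) (hl' : (Ou.glue Ct').Lab γ' dl')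
    (hr : ∀ x ∈ rays γ, x.1 ∈ shell → x ∈ rays γ') (b : Fin n × Bool) :
    (dl' (.inl (Ou.ρ b)) (.inr (Ct'.bc b))).up = (dl (.inl (Ou.ρ b)) (.inr (Ct.bc b))).up := by
  have e₁ := Ou.glue_nb_ρ Ct b
  have e₂ := Ou.glue_nb_ρ Ct' b
  have a₁ := (Ou.glue_arc Ct b).1
  have a₂ := (Ou.glue_arc Ct' b).1
  have l₁ := Ou.gval_lv Ct b
  have l₂ := Ou.gval_lv Ct' b
  have l₃ := Ou.lv_gt b
  have l₄ := Ou.lv_lt b
  have k := lab_up_eq hγ hγ' hl hl' (.inl (Ou.ρ b)) (Ou.sd b) (.inl (Ou.ρ b)) (Ou.sd b) (i := 1)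
    (by rw [e₁, a₁]; exact cl_injOn b _) (by rw [e₂, a₂]; exact cl_injOn b _) isOpen_shell
    (by
      rw [e₁, a₁]
      exact ⟨_, ⟨_, ⟨l₁.le, le_rfl⟩, rfl⟩, 1, by rwa [gout_abs Co b (by linarith)]⟩)
    (by
      rw [e₁, e₂, a₁, a₂]
      rintro _ ⟨⟨t, ht, rfl⟩, j, hj⟩
      refine ⟨t, ⟨?_, ht.2⟩, rfl⟩
      by_contra h
      have h' : t ≤ 3 / 4 := (not_le.1 h).le.trans (Ct'.lv_le b)
      exact hj.not_ge (Collar.cl_box ((Ct.lv_pos b).trans_le ht.1) h' le_rfl (by linarith) j)) hr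
    (by
      rw [e₁, e₂, Ou.gval_pt_ρ Ct, Ou.gval_pt_ρ Ct', Ou.gval_pt_bc, Ou.gval_pt_bc]
      simp only [Collar.cl_one]
      split_ifs <;> nlinarith)
  rwa [e₁, e₂] at k

omit [DecidableEq O] [DecidableEq I] [DecidableEq I'] in
theorem up_true {dl : O ⊕ I → O ⊕ I → Arc κ} (hγ : IsU γ) (hl : (Ou.glue Ct).Lab γ dl)
    (hr : ∀ x ∈ rays γ, x.1 ∈ Qb (7 / 8) → 0 ≤ x.2 1) (k : Fin n) :
    (dl (.inl (Ou.ρ (k, false))) (.inr (Ct.bc (k, false)))).up = true := by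
  have e₁ := Ou.glue_nb_ρ Ct (k, false)
  have a₁ := (Ou.glue_arc Ct (k, false)).1
  have l₁ := Ou.gval_lv Ct (k, false)
  have l₄ := Ou.lv_lt (k, false)
  have h := lab_up_true hγ hl (.inl (Ou.ρ (k, false))) (Ou.sd (k, false)) (i := 1)
    (by rw [e₁, a₁]; exact cl_injOn _ _) (by rw [e₁, a₁]; exact ⟨_, _, ⟨l₁.le, le_rfl⟩, rfl⟩)
    (by
      rw [e₁, a₁]
      rintro x hx ⟨t, ht, e⟩
      refine hr x hx (e ▸ Collar.cl_mem_Qb ((Ct.lv_pos _).trans_le ht.1) ?_ (by norm_num) ?_) <;>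
        linarith [ht.2])
    (by
      rw [e₁, Ou.gval_pt_ρ Ct, Ou.gval_pt_bc]
      simp only [Collar.cl_one]
      norm_num
      exact l₁)
  rwa [e₁] at h

end Glue

theorem exists_ou [Fintype κ] (hγ : IsU γ) (hv : NonVert γ) {Ct : Content Co I} (hi : Fits γ Ct) :
    ∃ (O : Type) (_ : Fintype O), Nonempty (Outer Co (picOf ((vl γ).set fun _ => none)) O) := by
  obtain ⟨d, -, hd⟩ := exists_outer Ct ⟨κ, inferInstance, vl γ, _, vl_isLink hγ hv, rfl⟩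
    (fun x hx => ((mem_vl x).1 hx).2) hi.std
  obtain ⟨η, U, _, Ou, -⟩ := hd.exists
  exact ⟨U, inferInstance, ⟨Ou⟩⟩

/-- unoriented diagrams -/
theorem block_un [Fintype κ] (hγ : IsU γ) (hv : NonVert γ) {A : Set E3}
    (hi : ∀ p ∈ Qb (7 / 8), p ∈ trace γ ↔ p ∈ A) {w : List (Sl (Nm Empty))}
    (hc : HasContent Co (nn A) w) :
    ∃ (W₁ W₂ : List (Sl Unit)) (l r : List Unit), Run [] W₁ (l ++ List.replicate n () ++ r) ∧
      ∀ (κ' : Type) [Fintype κ'] (γ' : κ' → ℝ → E3) (A' : Set E3) (w' : List (Sl (Nm Empty))),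
        IsU γ' → (∀ p ∉ Qb (7 / 8), p ∈ trace γ' ↔ p ∈ trace γ) →
        (∀ p ∈ Qb (7 / 8), p ∈ trace γ' ↔ p ∈ A') → HasContent Co (nn A') w' →
        ∃ v, HasWord true γ' v ∧ v.map (Sl.map fun _ => ()) =
          W₁ ++ (w'.map (Sl.map fun _ => ())).map (pad l r) ++ W₂ := by
  classical
  obtain ⟨J, _, _, Ct, hp, -⟩ := hc
  obtain ⟨U, _, ⟨Ou⟩⟩ := exists_ou hγ hv (fits_of hi hp)
  have hG : ((Ou.glue Ct).grid fun _ _ => ()).OK := (Ou.glueN_ok Ct).map (fun _ => ()) fun _ => rfl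
  have h := (Ou.glue_blk Ct hG).run_lo
  have e : (fun k : Fin n => ((Ou.glue Ct).grid fun _ _ => ()).dl
      (.inl (Ou.ρ (k, false))) (.inr (Ct.bc (k, false)))) = fun _ => () := rfl
  rw [e, List.ofFn_const] at h
  refine ⟨_, ((Ou.glue Ct).grid fun _ _ => ()).evs (Ou.glueRz Ct) (Ou.glueRz Ct).X
    (Ou.Y₂.map .inl), _, _, h, ?_⟩
  rintro κ' _ γ' A' w' hγ' ho hi' ⟨J', _, _, Ct', hp', hw'⟩
  obtain ⟨dl, -, hG', hw⟩ := glue_lab Ou Ct' hγ' (fun p hp => by rw [ho p hp, mem_picOf])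
    (fits_of hi' hp')
  refine ⟨_, hw, ?_⟩
  rw [Grid.word, ← Grid.evs_map, ← hw', ← glue_shadow Ou Ct' fun _ _ => (), GCVal_map_map]
  have := glue_congr Ou Ct Ct' hG (hG'.map (fun _ => ()) fun _ => rfl) (fun _ _ _ _ _ => rfl)
    fun _ => rfl
  rw [← Grid.evs_map]
  exact this

/-- oriented links -/
theorem block_or [Fintype κ] (hγ : IsU γ) (hv : NonVert γ) {A : Set E3}
    (hi : ∀ p ∈ Qb (7 / 8), p ∈ trace γ ↔ p ∈ A) {w : List (Sl (Nm Empty))}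
    (hc : HasContent Co (nn A) w) (hup : ∀ x ∈ rays γ, x.1 ∈ Qb (7 / 8) → 0 ≤ x.2 1) :
    ∃ (W₁ W₂ : List (Sl Bool)) (l r : List Bool), Run [] W₁ (l ++ List.replicate n true ++ r) ∧
      ∀ (κ' : Type) [Fintype κ'] (γ' : κ' → ℝ → E3) (A' : Set E3) (w' : List (Sl (Nm Empty))),
        IsU γ' → (∀ x : E3 × E3, x.1 ∈ shell → (x ∈ rays γ' ↔ x ∈ rays γ)) →
        (∀ p ∈ Qb (7 / 8), p ∈ trace γ' ↔ p ∈ A') → HasContent Co (nn A') w' →
        ∃ (v : List (Sl (Arc κ'))) (u : List (Sl Bool)), HasWord true γ' v ∧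
          v.map (Sl.map Arc.up) = W₁ ++ u.map (pad l r) ++ W₂ ∧ u.map (Sl.map fun _ => Nm.no) = w' := by
  classical
  obtain ⟨J, _, _, Ct, hp, -⟩ := hc
  obtain ⟨U, _, ⟨Ou⟩⟩ := exists_ou hγ hv (fits_of hi hp)
  obtain ⟨dl, hl, hG, -⟩ := glue_lab Ou Ct hγ (fun p _ => by rw [mem_picOf]) (fits_of hi hp)
  have hG₁ : ((Ou.glue Ct).grid fun a b => (dl a b).up).OK := hG.map Arc.up rev_up
  have h := (Ou.glue_blk Ct hG₁).run_lo
  have e : (fun k : Fin n => ((Ou.glue Ct).grid fun a b => (dl a b).up).dl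
      (.inl (Ou.ρ (k, false))) (.inr (Ct.bc (k, false)))) = fun _ => true :=
    funext (up_true Ou Ct hγ hl hup)
  rw [e, List.ofFn_const] at h
  refine ⟨_, ((Ou.glue Ct).grid fun a b => (dl a b).up).evs (Ou.glueRz Ct) (Ou.glueRz Ct).X
    (Ou.Y₂.map .inl), _, _, h, ?_⟩
  rintro κ' _ γ' A' w' hγ' ho hi' ⟨J', _, _, Ct', hp', hw'⟩
  obtain ⟨dl', hl', hG', hw⟩ := glue_lab Ou Ct' hγ' (fun p hp => by
    rw [mem_picOf, mem_trace, mem_trace]
    exact exists_congr fun v => ho (p, v) (mem_shell (by norm_num) hp)) (fits_of hi' hp')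
  have hr : ∀ x ∈ rays γ, x.1 ∈ shell → x ∈ rays γ' := fun x hx h => (ho x h).2 hx
  refine ⟨_, _, hw, ?_, (glue_shadow Ou Ct' fun a b => (dl' a b).up).trans hw'⟩
  rw [Grid.word, ← Grid.evs_map]
  exact glue_congr Ou Ct Ct' hG₁ (hG'.map Arc.up rev_up)
    (up_out Ou Ct Ct' hγ hγ' hl hl' hr) (up_bc Ou Ct Ct' hγ hγ' hl hl' hr)

end Pool.Agent.P.MP_ac4909_gt.B.K7
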