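import Pool.Agent.P.MP_7f6fde_gt.B.Val

/-! The direction of an arc of a subdivision is determined by the tangent vectors. -/

namespace Pool.Agent.P.MP_ac4909_gt.B.K7

open scoped ContDiff
open Set Filter Topology
open Pool.Agent.P.MP_7f6fde_gt.S (rays)

variable {κ κ' N N' : Type} {γ : κ → ℝ → E3} {γ' : κ' → ℝ → E3}

theorem hasDerivAt_coord (hγ : IsU γ) (c : κ) (t : ℝ) (i : Fin 3) :
    HasDerivAt (fun u => γ c u i) (deriv (γ c) t i) t :=
  (EuclideanSpace.proj i : E3 →L[ℝ] ℝ).hasFDerivAt.comp_hasDerivAt t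
    ((hγ.smooth c).differentiable (by simp) t).hasDerivAt

theorem dir_seg (hγ : IsU γ) {c : κ} {t t' : ℝ} (h₁ : t < t') (h₂ : t' < t + 1) {i : Fin 3}
    (hi : InjOn (fun p : E3 => p i) (γ c '' Icc t t')) {x : E3 × E3} (hx : x ∈ rays γ)
    (hm : x.1 ∈ γ c '' Icc t t') : 0 ≤ (γ c t' i - γ c t i) * x.2 i := by
  obtain ⟨p, v⟩ := x
  obtain ⟨u, hu, rfl⟩ := hm
  obtain ⟨r, hr, rfl⟩ := rays_at hγ hx
  have hc : ContinuousOn (fun u => γ c u i) (Icc t t') := fun u _ =>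
    (hasDerivAt_coord hγ c u i).continuousAt.continuousWithinAt
  have hj : InjOn (fun u => γ c u i) (Icc t t') := fun a ha b hb e =>
    hγ.injOn c h₂ ha hb (hi (mem_image_of_mem _ ha) (mem_image_of_mem _ hb) e)
  have hd : derivWithin (fun u => γ c u i) (Icc t t') u = deriv (γ c) u i :=
    (hasDerivAt_coord hγ c u i).hasDerivWithinAt.derivWithin (uniqueDiffOn_Icc h₁ u hu)
  have l := left_mem_Icc.2 h₁.le
  have r' := right_mem_Icc.2 h₁.le
  change 0 ≤ _ * (r * deriv (γ c) u i)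
  rcases hc.strictMonoOn_of_injOn_Icc' h₁.le hj with h | h
  · have a1 := h.monotoneOn.derivWithin_nonneg (x := u)
    have a2 : γ c t i < γ c t' i := h l r' h₁
    rw [hd] at a1
    exact mul_nonneg (by linarith) (mul_nonneg hr.le a1)
  · have a1 := h.antitoneOn.derivWithin_nonpos (x := u)
    have a2 : γ c t' i < γ c t i := h l r' h₁
    rw [hd] at a1
    exact mul_nonneg_of_nonpos_of_nonpos (by linarith) (mul_nonpos_of_nonneg_of_nonpos hr.le a1)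

theorem dir_ex (hγ : IsU γ) {c : κ} {t t' : ℝ} (h₁ : t < t') (h₂ : t' < t + 1) {i : Fin 3}
    (hi : InjOn (fun p : E3 => p i) (γ c '' Icc t t')) {U : Set E3} (hU : IsOpen U)
    (hne : (γ c '' Icc t t' ∩ U).Nonempty) :
    ∃ x ∈ rays γ, x.1 ∈ γ c '' Icc t t' ∩ U ∧ x.2 i ≠ 0 := by
  obtain ⟨_, ⟨u, hu, rfl⟩, hm⟩ := hne
  obtain ⟨ε, hε, hb⟩ := Metric.isOpen_iff.1 (hU.preimage (hγ.smooth c).continuous) u hm
  have hab : max t (u - ε / 2) < min t' (u + ε / 2) := by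
    rw [max_lt_iff, lt_min_iff, lt_min_iff]
    exact ⟨⟨h₁, by linarith [hu.1]⟩, by linarith [hu.2], by linarith⟩
  obtain ⟨y, hy, e⟩ := exists_hasDerivAt_eq_slope (fun u => γ c u i) (fun u => deriv (γ c) u i) hab
    (fun u _ => (hasDerivAt_coord hγ c u i).continuousAt.continuousWithinAt)
    fun u _ => hasDerivAt_coord hγ c u i
  have m : ∀ z ∈ Icc (max t (u - ε / 2)) (min t' (u + ε / 2)), z ∈ Icc t t' := fun z hz =>
    ⟨(le_max_left _ _).trans hz.1, hz.2.trans (min_le_left _ _)⟩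
  refine ⟨_, mem_rays γ c y, ⟨mem_image_of_mem _ (m y (Ioo_subset_Icc_self hy)), hb ?_⟩, ?_⟩
  · rw [Metric.mem_ball, Real.dist_eq, abs_lt]
    constructor <;> linarith [hy.1, hy.2, le_max_right t (u - ε / 2), min_le_right t' (u + ε / 2)]
  · change deriv (γ c) y i ≠ 0
    rw [e]
    refine div_ne_zero (sub_ne_zero.2 fun h => hab.ne' ?_) (sub_ne_zero.2 hab.ne')
    have ma := m _ (left_mem_Icc.2 hab.le)
    have mb := m _ (right_mem_Icc.2 hab.le)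
    exact hγ.injOn c h₂ mb ma (hi (mem_image_of_mem _ mb) (mem_image_of_mem _ ma) h)

variable {C : Conf N} {C' : Conf N'} {dl : N → N → Arc κ} {dl' : N' → N' → Arc κ'}

/-- the sign of a direction -/
def sg (b : Bool) : ℝ := if b then 1 else -1

theorem lab_dir (hγ : IsU γ) (hl : C.Lab γ dl) (a : N) (s : Bool) {i : Fin 3}
    (hi : InjOn (fun p : E3 => p i) (C.arc a (C.nb a s))) {x : E3 × E3} (hx : x ∈ rays γ)
    (hm : x.1 ∈ C.arc a (C.nb a s)) :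
    0 ≤ sg (dl a (C.nb a s)).up * ((C.pt (C.nb a s) i - C.pt a i) * x.2 i) := by
  obtain ⟨c, t, t', h₁, h₂, e, h⟩ := hl a s
  rw [e] at hi hm
  have := dir_seg hγ h₁ h₂ hi hx hm
  rcases h with ⟨e₁, e₂, e₃⟩ | ⟨e₁, e₂, e₃⟩ <;> rw [e₁, e₂, e₃] <;> simp only [sg] <;>
    norm_num <;> linarith

theorem lab_ex (hγ : IsU γ) (hl : C.Lab γ dl) (a : N) (s : Bool) {i : Fin 3}
    (hi : InjOn (fun p : E3 => p i) (C.arc a (C.nb a s))) {U : Set E3} (hU : IsOpen U)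
    (hne : (C.arc a (C.nb a s) ∩ U).Nonempty) :
    ∃ x ∈ rays γ, x.1 ∈ C.arc a (C.nb a s) ∩ U ∧ x.2 i ≠ 0 := by
  obtain ⟨c, t, t', h₁, h₂, e, -⟩ := hl a s
  rw [e] at hi hne ⊢
  exact dir_ex hγ h₁ h₂ hi hU hne

theorem lab_up_eq (hγ : IsU γ) (hγ' : IsU γ') (hl : C.Lab γ dl) (hl' : C'.Lab γ' dl') (a : N)
    (s : Bool) (a' : N') (s' : Bool) {i : Fin 3}
    (hi : InjOn (fun p : E3 => p i) (C.arc a (C.nb a s)))
    (hi' : InjOn (fun p : E3 => p i) (C'.arc a' (C'.nb a' s'))) {U : Set E3} (hU : IsOpen U)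
    (hne : (C.arc a (C.nb a s) ∩ U).Nonempty)
    (hs : C.arc a (C.nb a s) ∩ U ⊆ C'.arc a' (C'.nb a' s'))
    (hr : ∀ x ∈ rays γ, x.1 ∈ U → x ∈ rays γ')
    (hD : 0 < (C.pt (C.nb a s) i - C.pt a i) * (C'.pt (C'.nb a' s') i - C'.pt a' i)) :
    (dl' a' (C'.nb a' s')).up = (dl a (C.nb a s)).up := by
  obtain ⟨x, hx, hm, h0⟩ := lab_ex hγ hl a s hi hU hne
  have b₁ := lab_dir hγ hl a s hi hx hm.1
  have b₂ := lab_dir hγ' hl' a' s' hi' (hr x hx hm.2) (hs hm)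
  have b₃ := mul_nonneg b₁ b₂
  have b₄ : 0 < x.2 i * x.2 i := mul_self_pos.2 h0
  have b₅ := mul_pos hD b₄
  by_contra h
  have : sg (dl a (C.nb a s)).up * sg (dl' a' (C'.nb a' s')).up = -1 := by
    revert h
    cases (dl a (C.nb a s)).up <;> cases (dl' a' (C'.nb a' s')).up <;> simp [sg]
  have e : ∀ p q u v y : ℝ, p * (u * y) * (q * (v * y)) = p * q * (u * v * (y * y)) :=
    fun _ _ _ _ _ => by ring
  rw [e, this] at b₃
  linarith

theorem lab_up_true (hγ : IsU γ) (hl : C.Lab γ dl) (a : N) (s : Bool) {i : Fin 3}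
    (hi : InjOn (fun p : E3 => p i) (C.arc a (C.nb a s)))
    (hne : (C.arc a (C.nb a s)).Nonempty)
    (hr : ∀ x ∈ rays γ, x.1 ∈ C.arc a (C.nb a s) → 0 ≤ x.2 i)
    (hD : C.pt a i < C.pt (C.nb a s) i) : (dl a (C.nb a s)).up = true := by
  obtain ⟨x, hx, hm, h0⟩ := lab_ex hγ hl a s hi isOpen_univ (by simpa using hne)
  have b₁ := lab_dir hγ hl a s hi hx hm.1
  have b₂ := mul_pos (sub_pos.2 hD) ((hr x hx hm.1).lt_of_ne' h0)
  by_contra h
  rw [Bool.not_eq_true] at h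
  rw [h] at b₁
  simp only [sg] at b₁
  norm_num at b₁
  linarith

end Pool.Agent.P.MP_ac4909_gt.B.K7
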