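import Pool.Agent.P.MP_7f6fde_gt.B.Base
import Pool.Agent.P.MP_7f6fde_gt.Main

/-! A smooth knot with the diagram of the counterexample. -/

namespace Pool.Agent.P.MP_ac4909_gt.B.K7

open Set
open scoped ContDiff
open Pool.Agent.P.MP_7f6fde_gt (knotN)

/-- the primitive of the smooth transition function -/
noncomputable def kn_ramp (u : ℝ) : ℝ := ∫ t in (0 : ℝ)..u, Real.smoothTransition t

theorem kn_ramp_deriv (u : ℝ) : HasDerivAt kn_ramp (Real.smoothTransition u) u :=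
  (Real.smoothTransition.continuous.integral_hasStrictDerivAt 0 u).hasDerivAt

theorem kn_ramp_smooth : ContDiff ℝ ∞ kn_ramp := by
  rw [contDiff_infty_iff_deriv]
  refine ⟨fun u => (kn_ramp_deriv u).differentiableAt, ?_⟩
  rw [show deriv kn_ramp = Real.smoothTransition from funext fun u => (kn_ramp_deriv u).deriv]
  exact Real.smoothTransition.contDiff

theorem kn_ramp_nonpos {u : ℝ} (h : u ≤ 0) : kn_ramp u = 0 := by
  rw [kn_ramp, intervalIntegral.integral_congr (g := fun _ => 0), intervalIntegral.integral_zero]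
  intro t ht
  rw [uIcc_of_ge h] at ht
  exact Real.smoothTransition.zero_of_nonpos ht.2

theorem kn_ramp_nonneg (u : ℝ) : 0 ≤ kn_ramp u := by
  rcases le_total u 0 with h | h
  · rw [kn_ramp_nonpos h]
  · exact intervalIntegral.integral_nonneg h fun t _ => Real.smoothTransition.nonneg t

theorem kn_ramp_sym (u : ℝ) : kn_ramp u = kn_ramp (1 - u) + u - 1 / 2 := by
  have hd : ∀ u, HasDerivAt (fun u => kn_ramp u - kn_ramp (1 - u) - u) 0 u := fun u => by
    have h := ((kn_ramp_deriv u).sub ((kn_ramp_deriv (1 - u)).comp u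
      ((hasDerivAt_id u).const_sub 1))).sub (hasDerivAt_id u)
    rw [mcb_one_sub] at h
    exact h.congr_deriv (by ring)
  have := is_const_of_deriv_eq_zero (fun u => (hd u).differentiableAt) (fun u => (hd u).deriv) u
    (1 / 2)
  rw [show (1 : ℝ) - 1 / 2 = 1 / 2 by norm_num] at this
  linarith

theorem kn_ramp_le {u : ℝ} (h0 : 0 ≤ u) (h1 : u ≤ 1) : 2 * kn_ramp u ≤ u := by
  have hc : ConvexOn ℝ univ kn_ramp := by
    refine Monotone.convexOn_univ_of_deriv (fun u => (kn_ramp_deriv u).differentiableAt) ?_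
    rw [show deriv kn_ramp = Real.smoothTransition from funext fun u => (kn_ramp_deriv u).deriv]
    exact Real.smoothTransition.monotone
  have h := hc.2 (mem_univ 0) (mem_univ 1) (sub_nonneg.2 h1) h0 (by ring)
  have e := kn_ramp_sym 1
  rw [sub_self, kn_ramp_nonpos le_rfl] at e
  simp only [smul_eq_mul, mul_zero, mul_one, zero_add, kn_ramp_nonpos le_rfl, e] at h
  linarith

/-- one piece of the rounded polygon -/
noncomputable def kn_F (a : ℤ → ℝ) (k : ℤ) (u : ℝ) : ℝ :=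
  (a k + a (k + 1)) / 2 + (u - k) * (a (k + 1) - a k) +
    kn_ramp (u - k) * (a (k + 2) - 2 * a (k + 1) + a k) +
    kn_ramp (k - u) * (a (k + 1) - 2 * a k + a (k - 1))

/-- the rounded polygon -/
noncomputable def kn_g (a : ℤ → ℝ) (u : ℝ) : ℝ := kn_F a ⌊u⌋ u

theorem kn_g_eq (a : ℤ → ℝ) {k : ℤ} {u : ℝ} (h₁ : (k : ℝ) - 1 ≤ u) (h₂ : u < k + 1) :
    kn_g a u = kn_F a k u := by
  rcases le_or_gt (k : ℝ) u with h | h
  · rw [kn_g, Int.floor_eq_iff.2 ⟨h, h₂⟩]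
  · have e : ⌊u⌋ = k - 1 := Int.floor_eq_iff.2 ⟨by push_cast; linarith, by push_cast; linarith⟩
    rw [kn_g, e, kn_F, kn_F, kn_ramp_nonpos (u := u - k) (by linarith),
      kn_ramp_nonpos (u := ((k - 1 : ℤ) : ℝ) - u) (by push_cast; linarith),
      kn_ramp_sym (u - ((k - 1 : ℤ) : ℝ)), show k - 1 + 1 = k by ring, show k - 1 + 2 = k + 1 by ring,
      show 1 - (u - ((k - 1 : ℤ) : ℝ)) = k - u by push_cast; ring]
    push_cast
    ring

theorem kn_g_ev (a : ℤ → ℝ) (u : ℝ) : kn_g a =ᶠ[nhds u] kn_F a ⌊u⌋ := by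
  filter_upwards [Ioo_mem_nhds (show (⌊u⌋ : ℝ) - 1 < u by linarith [Int.floor_le u])
    (Int.lt_floor_add_one u)] with t ht
  exact kn_g_eq a ht.1.le ht.2

theorem kn_g_smooth (a : ℤ → ℝ) : ContDiff ℝ ∞ (kn_g a) := by
  refine contDiff_iff_contDiffAt.2 fun u => ContDiffAt.congr_of_eventuallyEq ?_ (kn_g_ev a u)
  have := kn_ramp_smooth
  unfold kn_F
  fun_prop

theorem kn_g_deriv (a : ℤ → ℝ) (u : ℝ) : ∃ s, 0 ≤ s ∧ s ≤ 1 ∧ HasDerivAt (kn_g a)
    ((1 - s) * (a (⌊u⌋ + 1) - a ⌊u⌋) + s * (a (⌊u⌋ + 2) - a (⌊u⌋ + 1))) u := by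
  refine ⟨Real.smoothTransition (u - ⌊u⌋), Real.smoothTransition.nonneg _,
    Real.smoothTransition.le_one _, HasDerivAt.congr_of_eventuallyEq ?_ (kn_g_ev a u)⟩
  have h₁ := (hasDerivAt_id u).sub_const (⌊u⌋ : ℝ)
  have h₂ := (kn_ramp_deriv (u - ⌊u⌋)).comp u h₁
  have h₃ := (kn_ramp_deriv (⌊u⌋ - u)).comp u ((hasDerivAt_id u).const_sub (⌊u⌋ : ℝ))
  rw [Real.smoothTransition.zero_of_nonpos (sub_nonpos.2 (Int.floor_le u))] at h₃
  have h := (((h₁.mul_const (a (⌊u⌋ + 1) - a ⌊u⌋)).const_add ((a ⌊u⌋ + a (⌊u⌋ + 1)) / 2)).add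
    (h₂.mul_const (a (⌊u⌋ + 2) - 2 * a (⌊u⌋ + 1) + a ⌊u⌋))).add
    (h₃.mul_const (a (⌊u⌋ + 1) - 2 * a ⌊u⌋ + a (⌊u⌋ - 1)))
  exact h.congr_deriv (by ring)

theorem kn_g_per {a : ℤ → ℝ} {m : ℤ} (h : ∀ k, a (k + m) = a k) (u : ℝ) :
    kn_g a (u + m) = kn_g a u := by
  have e : ∀ k c : ℤ, a (k + m + c) = a (k + c) := fun k c => by rw [add_right_comm, h]
  rw [kn_g, kn_g, Int.floor_add_intCast, kn_F, kn_F, h, e, e, sub_eq_add_neg _ (1 : ℤ), e,
    sub_eq_add_neg _ (1 : ℤ)]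
  push_cast
  ring_nf

theorem kn_g_int (a : ℤ → ℝ) (k : ℤ) : kn_g a k = (a k + a (k + 1)) / 2 := by
  rw [kn_g, Int.floor_intCast, kn_F, sub_self, kn_ramp_nonpos le_rfl]
  ring

theorem kn_g_ge {a : ℤ → ℝ} {k : ℤ} {u b : ℝ} (h₁ : (k : ℝ) ≤ u) (h₂ : u ≤ k + 1)
    (b₀ : b ≤ a k + a (k + 1)) (b₁ : b ≤ 2 * a (k + 1)) (b₂ : b ≤ a (k + 1) + a (k + 2)) :
    b ≤ 2 * kn_g a u := by
  rcases h₂.eq_or_lt with rfl | h₂
  · have := kn_g_int a (k + 1)
    rw [show k + 1 + 1 = k + 2 by ring] at this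
    push_cast at this
    linarith
  · rw [kn_g_eq a (by linarith) h₂, kn_F, kn_ramp_nonpos (u := k - u) (by linarith)]
    have r₀ := kn_ramp_nonneg (u - k)
    have r₁ := kn_ramp_nonneg (1 - (u - k))
    have r₂ := kn_ramp_sym (u - k)
    have r₃ := kn_ramp_le (u := u - k) (by linarith) (by linarith)
    nlinarith [mul_nonneg r₀ (sub_nonneg.2 b₂), mul_nonneg r₁ (sub_nonneg.2 b₀),
      mul_nonneg (sub_nonneg.2 r₃) (sub_nonneg.2 b₁)]

theorem kn_g_neg (a : ℤ → ℝ) (u : ℝ) : kn_g (fun k => -a k) u = -kn_g a u := by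
  simp only [kn_g, kn_F]
  ring

theorem kn_g_lo {a : ℤ → ℝ} {k : ℤ} {u b : ℝ} (h₁ : (k : ℝ) - 1 ≤ u) (h₂ : u ≤ k + 1)
    (b₀ : b ≤ a (k - 1) + a k) (b₁ : b ≤ 2 * a k) (b₂ : b ≤ 2 * a (k + 1))
    (b₃ : b ≤ a (k + 1) + a (k + 2)) : b ≤ 2 * kn_g a u := by
  rcases le_total u k with h | h
  · refine kn_g_ge (k := k - 1) (by push_cast; linarith) (by push_cast; linarith) ?_ ?_ ?_ <;>
      simp only [sub_add_cancel, show k - 1 + 2 = k + 1 by ring] <;> linarith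
  · exact kn_g_ge h h₂ (by linarith) b₂ b₃

theorem kn_g_hi {a : ℤ → ℝ} {k : ℤ} {u b : ℝ} (h₁ : (k : ℝ) - 1 ≤ u) (h₂ : u ≤ k + 1)
    (b₀ : a (k - 1) + a k ≤ b) (b₁ : 2 * a k ≤ b) (b₂ : 2 * a (k + 1) ≤ b)
    (b₃ : a (k + 1) + a (k + 2) ≤ b) : 2 * kn_g a u ≤ b := by
  have := kn_g_lo (a := fun k => -a k) (b := -b) h₁ h₂ (by linarith) (by linarith) (by linarith)
    (by linarith)
  rw [kn_g_neg] at this
  linarith

theorem kn_g_pos {a : ℤ → ℝ} {k : ℤ} (h : ∀ j, k - 2 ≤ j → j ≤ k + 2 → a j < a (j + 1)) {u : ℝ}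
    (h₁ : (k : ℝ) - 2 ≤ u) (h₂ : u < k + 2) : 0 < deriv (kn_g a) u := by
  obtain ⟨s, s₀, s₁, hd⟩ := kn_g_deriv a u
  have f₁ : k - 2 ≤ ⌊u⌋ := Int.le_floor.2 (by push_cast; linarith)
  have f₂ : ⌊u⌋ < k + 2 := Int.floor_lt.2 (by push_cast; linarith)
  have d₁ := sub_pos.2 (h ⌊u⌋ f₁ (by omega))
  have d₂ := sub_pos.2 (h (⌊u⌋ + 1) (by omega) (by omega))
  rw [show ⌊u⌋ + 1 + 1 = ⌊u⌋ + 2 by ring] at d₂
  rw [hd.deriv]
  rcases s₀.eq_or_lt with rfl | s₀
  · linarith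
  · exact add_pos_of_nonneg_of_pos (mul_nonneg (sub_nonneg.2 s₁) d₁.le) (mul_pos s₀ d₂)

theorem kn_g_mono {a : ℤ → ℝ} {k : ℤ} (h : ∀ j, k - 2 ≤ j → j ≤ k + 2 → a j < a (j + 1)) :
    StrictMonoOn (kn_g a) (Icc (k - 2) (k + 2)) :=
  strictMonoOn_of_deriv_pos (convex_Icc _ _) (kn_g_smooth a).continuous.continuousOn fun u hu => by
    rw [interior_Icc] at hu
    exact kn_g_pos h hu.1.le hu.2

theorem kn_g_anti {a : ℤ → ℝ} {k : ℤ} (h : ∀ j, k - 2 ≤ j → j ≤ k + 2 → a (j + 1) < a j) :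
    StrictAntiOn (kn_g a) (Icc (k - 2) (k + 2)) := by
  intro u hu t ht e
  have := kn_g_mono (a := fun k => -a k) (fun j h₁ h₂ => neg_lt_neg (h j h₁ h₂)) hu ht e
  rw [kn_g_neg, kn_g_neg] at this
  linarith

theorem kn_g_ne {a : ℤ → ℝ} {k : ℤ} (h : (∀ j, k - 2 ≤ j → j ≤ k + 2 → a j < a (j + 1)) ∨
    ∀ j, k - 2 ≤ j → j ≤ k + 2 → a (j + 1) < a j) {u : ℝ} (h₁ : (k : ℝ) - 2 ≤ u)
    (h₂ : u < k + 2) : deriv (kn_g a) u ≠ 0 := by
  rcases h with h | h
  · exact (kn_g_pos h h₁ h₂).ne'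
  · have := kn_g_pos (a := fun k => -a k) (fun j h₁ h₂ => neg_lt_neg (h j h₁ h₂)) h₁ h₂
    rw [show kn_g (fun k => -a k) = fun u => -kn_g a u from funext (kn_g_neg a), deriv.fun_neg]
      at this
    exact (neg_pos.1 this).ne

/-- the closed curve given by a periodic polygon -/
noncomputable def kn_K (a : Fin 3 → ℤ → ℝ) (n : ℕ) (_ : Fin 1) (t : ℝ) : E3 :=
  WithLp.toLp 2 fun i => kn_g (a i) (2 * n * t)

/-- the marked parameters -/
noncomputable def kn_τ (n : ℕ) (_ : Fin 1) (k : ℤ) : ℝ := k / (2 * n)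

/-- an upper bound for twice a coordinate on a star -/
def kn_Hi (a : ℤ → ℝ) (k : ℤ) (b : ℝ) : Prop :=
  a (k - 1) + a k ≤ b ∧ 2 * a k ≤ b ∧ 2 * a (k + 1) ≤ b ∧ a (k + 1) + a (k + 2) ≤ b

/-- a lower bound for twice a coordinate on a star -/
def kn_Lo (a : ℤ → ℝ) (k : ℤ) (b : ℝ) : Prop :=
  b ≤ a (k - 1) + a k ∧ b ≤ 2 * a k ∧ b ≤ 2 * a (k + 1) ∧ b ≤ a (k + 1) + a (k + 2)

/-- the certificate for a polygon -/
structure kn_Cert (a : Fin 3 → ℤ → ℝ) (n : ℕ) : Prop where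
  two : 2 ≤ n
  per : ∀ i k, a i (k + 2 * n) = a i k
  mono : ∀ k, ∃ i : Fin 3, i ≠ 2 ∧ ((∀ j, k - 2 ≤ j → j ≤ k + 2 → a i j < a i (j + 1)) ∨
    ∀ j, k - 2 ≤ j → j ≤ k + 2 → a i (j + 1) < a i j)
  sep : ∀ k k' : ℤ, (∀ j : ℤ, 3 ≤ |k' - k + 2 * n * j|) → ∃ i b b', b < b' ∧
    (kn_Hi (a i) k b ∧ kn_Lo (a i) k' b' ∨ kn_Hi (a i) k' b ∧ kn_Lo (a i) k b')

namespace kn_Cert

variable {a : Fin 3 → ℤ → ℝ} {n : ℕ} (h : kn_Cert a n)
include h

theorem pos : (0 : ℝ) < 2 * n := by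
  have := h.two
  positivity

theorem mem {k l : ℤ} {t : ℝ} :
    t ∈ Icc (kn_τ n 0 k) (kn_τ n 0 l) ↔ k ≤ 2 * n * t ∧ 2 * n * t ≤ l := by
  rw [mem_Icc, kn_τ, kn_τ, div_le_iff₀' h.pos, le_div_iff₀' h.pos]

theorem pc : PC (fun _ => n) (kn_τ n) := by
  refine ⟨fun _ k l e => div_lt_div_of_pos_right (by exact_mod_cast e) h.pos, fun _ k => ?_⟩
  unfold kn_τ
  push_cast
  rw [add_div, div_self h.pos.ne']

theorem kper (c : Fin 1) (t : ℝ) : kn_K a n c (t + 1) = kn_K a n c t := by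
  ext i
  have := kn_g_per (h.per i) (2 * n * t)
  push_cast at this
  change kn_g (a i) (2 * n * (t + 1)) = kn_g (a i) (2 * n * t)
  rw [mul_add, mul_one, this]

omit h in
theorem smooth (c : Fin 1) : ContDiff ℝ ∞ (kn_K a n c) := by
  rw [contDiff_euclidean]
  intro i
  exact (kn_g_smooth (a i)).comp (contDiff_const.mul contDiff_id)

theorem pv : PV true (kn_K a n) (fun _ => n) (kn_τ n) := by
  refine ⟨fun c k c' k' hf => ?_, fun c k => ?_⟩
  · have key : ∀ {i k k' b b'}, b < b' → kn_Hi (a i) k b → kn_Lo (a i) k' b' → ∀ c c',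
        Sep i (st1 (kn_K a n) (kn_τ n) c k) (st1 (kn_K a n) (kn_τ n) c' k') := by
      rintro i k k' b b' hb h₁ h₂ c c' _ ⟨t, ht, rfl⟩ _ ⟨t', ht', rfl⟩
      have e := h.mem.1 ht
      have e' := h.mem.1 ht'
      push_cast at e e'
      have r₁ := kn_g_hi e.1 e.2 h₁.1 h₁.2.1 h₁.2.2.1 h₁.2.2.2
      have r₂ := kn_g_lo e'.1 e'.2 h₂.1 h₂.2.1 h₂.2.2.1 h₂.2.2.2
      change kn_g (a i) (2 * n * t) < kn_g (a i) (2 * n * t')
      linarith
    obtain ⟨i, b, b', hb, e⟩ := h.sep k k' (hf (Subsingleton.elim _ _))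
    exact ⟨i, e.imp (fun e => key hb e.1 e.2 c c') fun e => key hb e.1 e.2 c' c⟩
  · obtain ⟨i, hi, e⟩ := h.mono k
    have hm : ∀ t ∈ wnd (kn_τ n) c k, 2 * n * t ∈ Icc ((k : ℝ) - 2) (k + 2) := fun t ht => by
      have e := h.mem.1 ht
      push_cast at e
      exact e
    exact ⟨i, fun _ => hi, e.imp
      (fun e t ht t' ht' l => kn_g_mono e (hm t ht) (hm t' ht') (mul_lt_mul_of_pos_left l h.pos))
      fun e t ht t' ht' l => kn_g_anti e (hm t ht) (hm t' ht') (mul_lt_mul_of_pos_left l h.pos)⟩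

theorem nonVert : NonVert (kn_K a n) := by
  intro c t
  obtain ⟨i, hi, e⟩ := h.mono ⌊2 * n * t⌋
  have h₁ := kn_g_ne e (u := 2 * n * t) (by linarith [Int.floor_le (2 * n * t)])
    (by linarith [Int.lt_floor_add_one (2 * n * t)])
  have h₂ := (EuclideanSpace.proj i : E3 →L[ℝ] ℝ).hasFDerivAt.comp_hasDerivAt t
    ((smooth (a := a) (n := n) c).differentiable (by simp) t).hasDerivAt
  have h₃ := (((kn_g_smooth (a i)).differentiable (by simp) (2 * n * t)).hasDerivAt).comp t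
    ((hasDerivAt_id t).const_mul (2 * n : ℝ))
  have h₄ : deriv (kn_K a n c) t i ≠ 0 := fun e' =>
    mul_ne_zero h₁ (mul_ne_zero h.pos.ne' one_ne_zero) ((h₃.unique h₂).trans e')
  fin_cases i
  · exact .inl h₄
  · exact .inr h₄
  · exact absurd rfl hi

theorem isU : IsU (kn_K a n) := by
  refine ⟨smooth, h.kper, fun c c' s t e => ⟨Subsingleton.elim _ _, ?_⟩, fun c t e => ?_⟩
  · have fl : ∀ u : ℝ, (⌊u⌋ : ℝ) ≤ u ∧ u < ⌊u⌋ + 1 := fun u =>
      ⟨Int.floor_le u, Int.lt_floor_add_one u⟩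
    by_cases hf : FarI (fun _ => n) c ⌊2 * n * s⌋ c' ⌊2 * n * t⌋
    · have hm : ∀ c (t : ℝ), kn_K a n c t ∈ st1 (kn_K a n) (kn_τ n) c ⌊2 * n * t⌋ := fun c t =>
        ⟨t, h.mem.2 (by push_cast; constructor <;> linarith [fl (2 * n * t)]), rfl⟩
      obtain ⟨i, hi | hi⟩ := h.pv.sep _ _ _ _ hf
      · exact absurd (hi _ (hm c s) _ (hm c' t)) (by rw [e]; exact lt_irrefl _)
      · exact absurd (hi _ (hm c' t) _ (hm c s)) (by rw [e]; exact lt_irrefl _)
    · simp only [FarI, not_forall, not_le] at hf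
      obtain ⟨rfl, j, hj⟩ := hf
      have hj' : |⌊2 * n * t⌋ - ⌊2 * n * s⌋ + 2 * n * j| ≤ (2 : ℤ) := by omega
      rw [abs_le] at hj'
      obtain ⟨i, -, hi⟩ := h.pv.mono c (min ⌊2 * n * s⌋ (⌊2 * n * t⌋ + 2 * n * j) + 2)
      have e₁ : ∀ u : ℝ, ∀ k l : ℤ, k ≤ l → l ≤ k + 2 → (l : ℝ) ≤ 2 * n * u → 2 * n * u < l + 1 →
          u ∈ wnd (kn_τ n) c (k + 2) := fun u k l l₁ l₂ l₃ l₄ => h.mem.2 (by
        rify at l₁ l₂
        push_cast
        constructor <;> linarith)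
      have m₁ := e₁ s (min ⌊2 * n * s⌋ (⌊2 * n * t⌋ + 2 * n * j)) _ (min_le_left _ _) (by omega)
        (fl _).1 (fl _).2
      have m₂ := e₁ (t + j) (min ⌊2 * n * s⌋ (⌊2 * n * t⌋ + 2 * n * j)) _ (min_le_right _ _)
        (by omega) (by push_cast; linarith [fl (2 * n * t)])
        (by push_cast; linarith [fl (2 * n * t)])
      have e₂ : kn_K a n c s i = kn_K a n c (t + j) i := by rw [per_int (h.kper c), e]
      exact ⟨-j, by
        have := hi.elim (fun hi => hi.injOn m₁ m₂ e₂) fun hi => hi.injOn m₁ m₂ e₂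
        push_cast
        linarith⟩
  · rcases h.nonVert c t with h' | h' <;> exact h' (by rw [e]; rfl)

end kn_Cert

/-- a computable twin of the cell function -/
def kn_cell {N α : Type} [DecidableEq N] (G : Grid N α) (rk z : N → ℕ) (e v : N) :
    Option (Cell α) :=
  if G.nb v false = e then
    some (if rk e < rk (G.nb v true) then .fin (G.dl e v) true else .fin (G.dl v e) false)
  else if G.nb v true = e then
    some (if rk e < rk (G.nb v false) then .fin (G.dl e v) true else .fin (G.dl v e) false)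
  else if rk (G.nb v false) < rk e ∧ rk e < rk (G.nb v true) then
    some (.thru (G.dl (G.nb v false) v) (decide (z e < z v)))
  else if rk (G.nb v true) < rk e ∧ rk e < rk (G.nb v false) then
    some (.thru (G.dl (G.nb v true) v) (decide (z e < z v)))
  else none

theorem kn_cell_eq {N α : Type} [DecidableEq N] (G : Grid N α) {R : Rz N} {rk z : N → ℕ}
    (hr : ∀ a, R.Y.idxOf a = rk a) (hz : ∀ a b, R.z a < R.z b ↔ z a < z b) :
    G.cell R = kn_cell G rk z := by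
  funext e v
  simp only [Grid.cell, kn_cell, Rz.ltY, hr, hz]

/-- packed table of the coordinates number 0 of the vertices -/
def kn_tx : ℕ :=
  0x15b8b8c5962ca14683a81800a403901b01100ef06d03c420010809004f02de1da1520a2c50a27312d86802ec14509c06002c417a0be83bc12c08802103702f417508f84340bc046018801000600801981180a007804a82601500b401003f02b01c60f3882841a21610d886842e2040f785081f20e606103481c610d0b986283501e50fe87e038c1b70d9053c29414408904ec10006903701780c80ce0a889784d226f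

/-- packed table of the coordinates number 1 of the vertices -/
def kn_ty : ℕ :=
  0xb5910955eab05742d3d5c4aaa50b1c14cde5422910c1032a161007829c17a1470ad8ac13989f55742b91504a5852b29412a458124510287c23d71db0e0c6b631b18789603ea2671378f10a745942d298f0cbe53228a143ca0c4d926b93346482ac0c487bc43e31022924592d897d4f3a5d523a8ae3e41dd0ec873733519c0e1070a3e8a2251b48ee48721510647a63ca9dc8a9e52f295891c34210a01700280540b8

/-- packed table of the coordinates number 2 of the vertices -/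
def kn_tz : ℕ :=
  0xf006c002024006806803c02401100ac04002a014009c04c03301c003c032024014807c05802901b00ac054037016005c04201c00e009003a02201d80e806002e005008803402b00d009800e0270060038010004002002007002101e00f007c03f01f80d4062022016803c01a011004803001802001f807c02e01800d806803202900900e400a02801d808805401a009003801c018008005400800e0040030004002

/-- packed table of the ranks of the rows -/
def kn_tr : ℕ :=
  0x200c804403201800c806203201680c803a03200c00c801403200180c800403200280c803403201700c805e03201600c805603200a00c802003200780c801a03200600c801203200580c802403200c80c803603200b00c802a03200980c802203200400c800e03200700c805003201500c805203201200c804003200f80c803c03201080c804c03201380c804a03201180c803803200b80c800c03200080c8000032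

/-- the columns from left to right -/
def kn_X : List (Fin 100) :=
  [52, 54, 50, 56, 48, 6, 90, 8, 42, 62, 64, 46, 4, 44, 92, 88, 26, 86, 28, 24, 84, 58, 10, 82,
   66, 12, 70, 72, 68, 60, 22, 14, 40, 30, 80, 94, 16, 20, 2, 38, 18, 74, 32, 36, 34, 0, 76, 78,
   96, 98]

/-- the rows from bottom to top -/
def kn_Y : List (Fin 100) :=
  [1, 3, 81, 83, 99, 79, 5, 37, 39, 57, 85, 55, 59, 61, 35, 63, 65, 41, 53, 43, 67, 45, 47, 7,
   87, 51, 77, 49, 9, 89, 21, 23, 25, 19, 97, 11, 27, 13, 17, 15, 33, 29, 31, 69, 71, 91, 75, 73,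
   95, 93]

/-- entry of a packed periodic table -/
def kn_lk (T j : ℕ) : ℕ := (T >>> (13 * (j % 100))) % 8192

/-- the coordinates of the vertices -/
def kn_w (i : Fin 3) (j : ℕ) : ℕ := kn_lk (![kn_tx, kn_ty, kn_tz] i) j

/-- the polygon -/
noncomputable def kn_a (i : Fin 3) (k : ℤ) : ℝ := kn_w i (k % 100).toNat

/-- upper corner of the box of a star -/
def kn_hi (i : Fin 3) (j : ℕ) : ℕ :=
  max (max (kn_w i j + kn_w i (j + 1)) (2 * kn_w i (j + 1)))
    (max (2 * kn_w i (j + 2)) (kn_w i (j + 2) + kn_w i (j + 3)))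

/-- lower corner of the box of a star -/
def kn_lo (i : Fin 3) (j : ℕ) : ℕ :=
  min (min (kn_w i j + kn_w i (j + 1)) (2 * kn_w i (j + 1)))
    (min (2 * kn_w i (j + 2)) (kn_w i (j + 2) + kn_w i (j + 3)))

theorem kn_mono : ∀ j < 100, ∃ i : Fin 3, i ≠ 2 ∧
    ((∀ c < 5, kn_w i (j + c) < kn_w i (j + c + 1)) ∨
      ∀ c < 5, kn_w i (j + c + 1) < kn_w i (j + c)) := by
  decide +kernel

theorem kn_sep : ∀ j < 100, ∀ j' < 100, 5 ≤ (j' + 102 - j) % 100 →
    ∃ i, kn_hi i j < kn_lo i j' ∨ kn_hi i j' < kn_lo i j := by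
  decide +kernel

theorem kn_a_eq (i : Fin 3) {k : ℤ} {j : ℕ} (h : k % 100 = j % 100) : kn_a i k = kn_w i j := by
  rw [kn_a, kn_w, kn_w, kn_lk, kn_lk, show (k % 100).toNat % 100 = j % 100 by omega]

theorem kn_Hi_a (i : Fin 3) (k : ℤ) : kn_Hi (kn_a i) k (kn_hi i ((k - 1) % 100).toNat) := by
  rw [kn_Hi, kn_a_eq i (k := k - 1) (j := ((k - 1) % 100).toNat) (by omega),
    kn_a_eq i (k := k) (j := ((k - 1) % 100).toNat + 1) (by omega),
    kn_a_eq i (k := k + 1) (j := ((k - 1) % 100).toNat + 2) (by omega),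
    kn_a_eq i (k := k + 2) (j := ((k - 1) % 100).toNat + 3) (by omega), kn_hi]
  norm_cast
  omega

theorem kn_Lo_a (i : Fin 3) (k : ℤ) : kn_Lo (kn_a i) k (kn_lo i ((k - 1) % 100).toNat) := by
  rw [kn_Lo, kn_a_eq i (k := k - 1) (j := ((k - 1) % 100).toNat) (by omega),
    kn_a_eq i (k := k) (j := ((k - 1) % 100).toNat + 1) (by omega),
    kn_a_eq i (k := k + 1) (j := ((k - 1) % 100).toNat + 2) (by omega),
    kn_a_eq i (k := k + 2) (j := ((k - 1) % 100).toNat + 3) (by omega), kn_lo]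
  norm_cast
  omega

theorem kn_cert : kn_Cert kn_a 50 := by
  refine ⟨by norm_num, fun i k => ?_, fun k => ?_, fun k k' hf => ?_⟩
  · rw [kn_a, kn_a, show (k + 2 * (50 : ℕ)) % 100 = k % 100 by omega]
  · obtain ⟨i, hi, h⟩ := kn_mono ((k - 2) % 100).toNat (by omega)
    refine ⟨i, hi, h.imp (fun h j h₁ h₂ => ?_) fun h j h₁ h₂ => ?_⟩ <;>
    · rw [kn_a_eq i (k := j) (j := ((k - 2) % 100).toNat + (j - (k - 2)).toNat) (by omega),
        kn_a_eq i (k := j + 1) (j := ((k - 2) % 100).toNat + (j - (k - 2)).toNat + 1) (by omega)]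
      exact_mod_cast h _ (by omega)
  · have h := hf (-((k' - k + 2) / 100))
    rw [le_abs] at h
    obtain ⟨i, h⟩ := kn_sep ((k - 1) % 100).toNat (by omega) ((k' - 1) % 100).toNat (by omega)
      (by omega)
    rcases h with h | h
    · exact ⟨i, _, _, by exact_mod_cast h, .inl ⟨kn_Hi_a i k, kn_Lo_a i k'⟩⟩
    · exact ⟨i, _, _, by exact_mod_cast h, .inr ⟨kn_Hi_a i k', kn_Lo_a i k⟩⟩

/-- the marked point with a given index -/
def kn_ix (_ : Fin 1) (k : ℤ) : Fin 100 := ⟨(k % 100).toNat, by omega⟩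

/-- the combinatorics of the subdivision -/
def kn_G : Grid (Fin 100) (Arc (Fin 1)) where
  col a := decide (a.1 % 2 = 0)
  nb a s := ⟨(a.1 + if s then 1 else 99) % 100, Nat.mod_lt _ (by norm_num)⟩
  dl a b := ⟨0, decide (b.1 = (a.1 + 1) % 100)⟩

/-- twice a coordinate of a marked point -/
def kn_q (i : Fin 3) (a : Fin 100) : ℕ := kn_w i a + kn_w i (a + 1)

theorem kn_ok : kn_X.Nodup ∧ kn_Y.Nodup ∧ (∀ a, a ∈ kn_X ↔ kn_G.col a = true) ∧
    (∀ a, a ∈ kn_Y ↔ kn_G.col a = false) ∧ (kn_X.Pairwise fun a b => kn_q 0 a ≤ kn_q 0 b) ∧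
    (kn_Y.Pairwise fun a b => kn_q 1 a ≤ kn_q 1 b) ∧ ∀ a, kn_Y.idxOf a = kn_lk kn_tr a := by
  decide +kernel

theorem kn_word : (kn_Y.flatMap fun e => evOf (kn_X.filterMap
    (kn_cell kn_G (fun a => kn_lk kn_tr a) (kn_q 2) e))).map (tr Arc.up) = knotN 1 := by
  decide +kernel

theorem exists_knot : ∃ (K : Fin 1 → ℝ → E3) (w : List (Sl (Arc (Fin 1)))),
    IsU K ∧ NonVert K ∧ HasWord true K w ∧ w.map (tr Arc.up) = knotN 1 := by
  have h := kn_cert
  obtain ⟨C, hcol, hnb, hM⟩ := GCMdl_build (ix := kn_ix) h.kper h.pc (fun _ => h.two) kn_G.col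
    kn_G.nb (fun a => ⟨0, a.1, Fin.ext (by simp only [kn_ix]; omega)⟩)
    (fun c k c' k' => by
      simp only [kn_ix, Fin.mk.injEq, Subsingleton.elim c c', true_and]
      omega)
    (fun c k => by
      simp only [kn_G, kn_ix, decide_eq_true_eq, Int.even_iff]
      omega)
    (fun c k => ⟨true, Fin.ext (by simp only [kn_G, kn_ix, if_true]; omega),
      Fin.ext (by simp only [kn_G, kn_ix, Bool.not_true, Bool.false_eq_true, if_false]; omega)⟩)
  have hv := hM.valid h.isU h.pv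
  have hpt : ∀ a i, C.pt a i = kn_q i a / 2 := fun a i => by
    have e : kn_ix 0 a.1 = a := Fin.ext (by simp only [kn_ix]; omega)
    have := hM.pt 0 a.1
    rw [e] at this
    rw [this]
    change kn_g (kn_a i) (2 * (50 : ℕ) * (((a.1 : ℤ) : ℝ) / (2 * (50 : ℕ)))) = _
    rw [mul_div_cancel₀ _ h.pos.ne', kn_g_int, kn_a_eq i (j := a.1) rfl,
      kn_a_eq i (j := a.1 + 1) (by push_cast; rfl), kn_q]
    push_cast
    rfl
  obtain ⟨k₁, k₂, k₃, k₄, k₅, k₆, k₇⟩ := kn_ok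
  have hle : ∀ {i a b}, kn_q i a ≤ kn_q i b → C.pt a i ≤ C.pt b i := fun e => by
    rw [hpt, hpt]
    exact div_le_div_of_nonneg_right (by exact_mod_cast e) zero_le_two
  refine ⟨_, _, h.isU, h.nonVert, ⟨Fin 100, inferInstance, inferInstance, C, kn_G.dl,
    ⟨kn_X, kn_Y, fun a => C.pt a 2⟩, hv, hM.supp, (hM.lab_iff h.isU fun _ => h.two).2 fun c k => ?_,
    Conf.Canon.good' hv ⟨⟨k₁, k₂, hcol ▸ k₃, hcol ▸ k₄⟩, fun _ => rfl, k₅.imp hle, k₆.imp hle⟩,
    rfl⟩, ?_⟩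
  · simp only [kn_G, kn_ix, Subsingleton.elim c 0, Arc.mk.injEq, true_and, decide_eq_true_eq,
      decide_eq_false_iff_not]
    omega
  · rw [Conf.grid, hcol, hnb, Grid.word, Grid.evs, kn_cell_eq (z := kn_q 2) _ k₇ fun a b => by
      simp only [hpt]
      rw [div_lt_div_iff_of_pos_right two_pos, Nat.cast_lt]]
    exact kn_word

end Pool.Agent.P.MP_ac4909_gt.B.K7
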