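import Pool.Agent.P.MP_7f6fde_gt.B.Unknot
import Pool.Agent.P.MP_7f6fde_gt.B.Knot
import Pool.Agent.P.MP_7f6fde_gt.Ex.Kauffman

/-! The polynomials of smooth links and the counterexample. -/

namespace Pool.Agent.P.MP_ac4909_gt.B.K7

open scoped ContDiff
open Set LaurentPolynomial
open Pool.Agent.P.MP_7f6fde_gt (IsHomfly IsKauffman LL knotN aSpread forget)
open Pool.Agent.P.MP_7f6fde_gt.S (rays circle)

variable {n : ℕ} {γ : Fin n → ℝ → E3}

theorem isU_of (h : MP_7f6fde_gt.S.IsLink γ) : IsU γ := ⟨h.smooth, h.per, h.inj, h.imm⟩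

theorem isLink_of (h : IsU γ) : MP_7f6fde_gt.S.IsLink γ := ⟨h.smooth, h.per, h.inj, h.imm⟩

variable {P : List (MP_7f6fde_gt.Sl Bool) → LL} {L : List (MP_7f6fde_gt.Sl Unit) → LL}

theorem isHomfly_pv (hP : IsHomfly P) : MP_7f6fde_gt.S.IsHomfly (pv P) where
  isotopy _ _ h := pv_iso hP h.1 fun s hs => isU_of (h.2 s hs)
  unknot := pv_circle hP circle_isU rfl
  skein _ := by
    rintro ⟨_, γ, hγ, e⟩ ⟨_, γ', hγ', e'⟩ ⟨_, γ₀, hγ₀, e₀⟩
    rw [e, e', e₀]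
    exact pv_skein hP (isU_of hγ) (isU_of hγ') (isU_of hγ₀) e e' e₀

theorem isKauffman_lv (hL : IsKauffman L) : MP_7f6fde_gt.S.IsKauffman (lv L) where
  isotopy _ _ h := lv_iso hL h.1 (fun s hs => isU_of (h.2 s hs).1) fun s hs => (h.2 s hs).2
  unknot := lv_circle hL
  skein _ := by
    rintro ⟨_, γ, hγ, e⟩ ⟨_, γ', hγ', e'⟩ ⟨_, γ₀, hγ₀, e₀⟩ ⟨_, γ₁, hγ₁, e₁⟩
    rw [e, e', e₀, e₁]
    exact lv_skein hL (isU_of hγ.1) hγ.2 (isU_of hγ'.1) hγ'.2 (isU_of hγ₀.1) hγ₀.2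
      (isU_of hγ₁.1) hγ₁.2 e e' e₀ e₁
  curl _ := by
    rintro s hs ⟨_, γ, hγ, e⟩ ⟨_, γ₀, hγ₀, e₀⟩
    rw [e, e₀]
    rcases hs with rfl | rfl
    · exact lv_curl hL (isU_of hγ.1) hγ.2 (isU_of hγ₀.1) hγ₀.2 false (by simpa [trace_eq] using e) e₀
    · exact lv_curl hL (isU_of hγ.1) hγ.2 (isU_of hγ₀.1) hγ₀.2 true (by simpa [trace_eq] using e) e₀

theorem isU_neg {κ : Type} {γ : κ → ℝ → E3} (h : IsU γ) : IsU fun c t => γ c (-t) := by
  refine ⟨fun c => (h.smooth c).comp contDiff_neg, fun c t => ?_, fun c c' s t e => ?_,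
    fun c t => ?_⟩
  · rw [← h.per c (-(t + 1))]
    congr 1
    ring
  · obtain ⟨a, k, hk⟩ := h.inj _ _ _ _ e
    exact ⟨a, -k, by push_cast; linarith⟩
  · rw [deriv_comp_neg]
    exact neg_ne_zero.2 (h.imm c _)

theorem trace_neg {κ : Type} (γ : κ → ℝ → E3) : trace (fun c t => γ c (-t)) = trace γ :=
  iUnion_congr fun c => neg_surjective.range_comp (γ c)

theorem pv_rp (hP : IsHomfly P) {K K' : Fin 1 → ℝ → E3} (hK : IsU K) (hK' : IsU K')
    {β : Fin 1 ≃ Fin 1} {φ : Fin 1 → ℝ → ℝ} (hφ : Rp φ fun _ => false)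
    (he : ∀ c t, K' c t = K (β c) (φ c t)) : pv P (rays K) = pv P (rays K') := by
  obtain ⟨w, h⟩ := exists_hasWord (fa := false) hK fun e => absurd e (by simp)
  obtain ⟨w', h'⟩ := exists_hasWord (fa := false) hK' fun e => absurd e (by simp)
  rw [pv_spec hP hK h, pv_spec hP hK' h']
  exact homfly_rp hP hK β.surjective hφ he h h'

theorem pv_trivial (hP : IsHomfly P) {K : Fin 1 → ℝ → E3} (hK : IsU K)
    (h : MP_7f6fde_gt.S.Trivial K) : pv P (rays K) = 1 := by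
  obtain ⟨H, ⟨hs, hH⟩, h₀, h₁⟩ := h
  have hU : ∀ s ∈ Icc (0 : ℝ) 1, IsU (H s) := fun s hs => isU_of (hH s hs)
  have U₀ := hU 0 ⟨le_rfl, zero_le_one⟩
  have U₁ := hU 1 ⟨zero_le_one, le_rfl⟩
  obtain ⟨β, φ, fl, hφ, he⟩ := exists_rp hK U₀ h₀
  cases hf : fl 0 with
  | false =>
    obtain rfl : fl = fun _ => false := funext fun c => by rw [Subsingleton.elim c 0, hf]
    rw [pv_rp hP hK U₀ hφ he, pv_iso hP hs hU, pv_circle hP U₁ h₁]
  | true =>
    have hd := fun c => hφ.dn c (by rw [Subsingleton.elim c 0, hf])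
    have hφ' : Rp (fun c t => φ c (-t)) fun _ => false :=
      ⟨fun c => (hφ.cont c).comp continuous_neg, fun c _ =>
        ⟨fun s t hst => (hd c).1 (neg_lt_neg hst), fun t => by
          have := (hd c).2 (-(t + 1))
          rw [show -(t + 1) + 1 = -t by ring] at this
          linarith⟩, fun c hc => absurd hc Bool.false_ne_true⟩
    rw [pv_rp hP hK (isU_neg U₀) hφ' fun c t => he c (-t),
      pv_iso hP (H := fun s c t => H s c (-t))
        (fun c => (hs c).comp (contDiff_fst.prodMk contDiff_snd.neg))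
        fun s hs => isU_neg (hU s hs),
      pv_circle hP (isU_neg U₁) ((trace_neg _).trans h₁)]

theorem forget_tr {α : Type} (f : α → Bool) (w : List (Sl α)) :
    (w.map (tr f)).map forget = w.map (tr fun _ => ()) := by
  rw [List.map_map]
  refine List.map_congr_left fun s _ => ?_
  obtain ⟨l, g, r⟩ := s
  cases g <;> rfl

theorem main : ∃ P L, MP_7f6fde_gt.S.IsHomfly P ∧ MP_7f6fde_gt.S.IsKauffman L ∧
    ∃ K : Fin 1 → ℝ → E3, MP_7f6fde_gt.S.IsDiagram K ∧ ¬ MP_7f6fde_gt.S.Trivial K ∧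
      MP_7f6fde_gt.S.aSpread (P (rays K)) = 8 ∧
      ∀ w : ℤ, MP_7f6fde_gt.S.aSpread (T (-w) * L (MP_7f6fde_gt.S.trace K)) = 7 := by
  obtain ⟨P, hP⟩ := MP_7f6fde_gt.Ex.exists_homfly
  obtain ⟨L, hL⟩ := MP_7f6fde_gt.Ex.exists_kauffman
  obtain ⟨K, v, hK, hv, hw, e⟩ := exists_knot
  have h8 : aSpread (pv P (rays K)) = 8 := by
    rw [pv_spec hP hK hw.weaken, e, MP_7f6fde_gt.spread_homfly hP 1]
    rfl
  refine ⟨pv P, lv L, isHomfly_pv hP, isKauffman_lv hL, K, ⟨isLink_of hK, hv⟩, fun h => ?_, h8,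
    fun w => ?_⟩
  · rw [pv_trivial hP hK h, ← T_zero, (MP_7f6fde_gt.hasRange_T 0).spread] at h8
    omega
  · change aSpread (T (-w) * lv L (trace K)) = 7
    rw [lv_spec hL hK hv hw, ← forget_tr Arc.up, e, MP_7f6fde_gt.kauffman_knotN hL 1, pow_one,
      ((MP_7f6fde_gt.hasRange_T _).mul MP_7f6fde_gt.rangeK).spread]
    ring

end Pool.Agent.P.MP_ac4909_gt.B.K7
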