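import Pool.Agent.P.MP_7f6fde_gt.B.Base
import Pool.Agent.P.MP_ac4909_gt.B.GB_Id

/-! The words of the curls and of the straight strand. -/

namespace Pool.Agent.P.MP_ac4909_gt.B.K7

open Set
open Pool.Agent.P.MP_7f6fde_gt

theorem PicC_st0 : st 0 = 0 := by
  have := st_neg 0
  rw [neg_zero] at this
  linarith

theorem PicC_bump (t : ℝ) : S.bump t = 1 - st |t| ^ 2 := by
  rcases abs_choice t with h | h <;> rw [h, S.bump, st_eq]
  rw [st_neg, neg_sq]

theorem PicC_st_nonneg (t : ℝ) : 0 ≤ st |t| := PicC_st0 ▸ st_monotone (abs_nonneg t)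

theorem PicC_bump_le {s t : ℝ} (h : |t| ≤ |s|) : S.bump s ≤ S.bump t := by
  rw [PicC_bump, PicC_bump]
  have := pow_le_pow_left₀ (PicC_st_nonneg t) (st_monotone h) 2
  linarith

theorem PicC_bump_lt {s t : ℝ} (h : |t| < |s|) (h' : |t| < 1 / 2) : S.bump s < S.bump t := by
  rw [PicC_bump, PicC_bump]
  have h0 := abs_nonneg t
  have h1 : |t| < min |s| (1 / 2) := lt_min h h'
  have h2 := st_strictMonoOn ⟨by linarith, h'.le⟩ ⟨by linarith, min_le_right _ _⟩ h1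
  have := pow_lt_pow_left₀ (h2.trans_le (st_monotone (min_le_left _ _))) (PicC_st_nonneg t)
    two_ne_zero
  linarith

theorem PicC_bump_zero {t : ℝ} (h : 1 / 2 ≤ |t|) : S.bump t = 0 := by
  rw [PicC_bump, st_of_ge h]
  norm_num

theorem PicC_bump_pos {t : ℝ} (h : |t| < 1 / 2) : 0 < S.bump t := by
  have h1 : |(1 / 2 : ℝ)| = 1 / 2 := abs_of_pos (by norm_num)
  rw [← PicC_bump_zero h1.ge]
  exact PicC_bump_lt (h1.symm ▸ h) h

theorem PicC_bump_nonneg (t : ℝ) : 0 ≤ S.bump t := by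
  rcases lt_or_ge |t| (1 / 2) with h | h
  · exact (PicC_bump_pos h).le
  · exact (PicC_bump_zero h).ge

theorem PicC_bump_le_one (t : ℝ) : S.bump t ≤ 1 := by
  rw [S.bump]
  linarith [sq_nonneg (S.st t)]

/-- the curl -/
noncomputable def PicC_g (e t : ℝ) : E3 := S.curl e () t

theorem PicC_x (e t : ℝ) : PicC_g e t 0 = S.bump t / 2 := rfl

theorem PicC_y (e t : ℝ) : PicC_g e t 1 = t * st (16 * t ^ 2 - 1) := rfl

theorem PicC_z (e t : ℝ) : PicC_g e t 2 = -e * t * S.bump t := rfl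

theorem PicC_y_far (e : ℝ) {t : ℝ} (h : 45 ≤ |144 * t|) : PicC_g e t 1 = t := by
  have h1 : (45 : ℝ) ^ 2 ≤ (144 * t) ^ 2 := by
    rw [← sq_abs (144 * t)]
    gcongr
  rw [PicC_y, st_of_ge (by nlinarith), mul_one]

theorem PicC_y_near (e : ℝ) {t : ℝ} (h : |144 * t| ≤ 24) : PicC_g e t 1 = -t := by
  have h1 : (144 * t) ^ 2 ≤ (24 : ℝ) ^ 2 := by
    rw [← sq_abs (144 * t)]
    gcongr
  rw [PicC_y, st_of_le (by nlinarith), mul_neg_one]

theorem PicC_cont (e : ℝ) : Continuous (PicC_g e) := by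
  have := st_contDiff.continuous
  unfold PicC_g S.curl S.bump
  rw [st_eq]
  fun_prop

theorem PicC_ray (e : ℝ) (b : Fin 1 × Bool) {y : ℝ} (hy : 1 / 2 ≤ y) :
    PicC_g e ((if b.2 then 1 else -1) * y) = lcol.cl b y := by
  have h : |(if b.2 then 1 else -1) * y| = y := by
    split_ifs <;> simp [abs_of_nonneg (by linarith : 0 ≤ y)]
  refine gid_ext ?_ ?_ ?_
  · rw [PicC_x, PicC_bump_zero (h.symm ▸ hy)]
    simp [lcol]
  · rw [PicC_y_far e (by rw [abs_mul, h, abs_of_pos (by norm_num)]; linarith), Collar.cl_one]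
  · rw [PicC_z, PicC_bump_zero (h.symm ▸ hy)]
    simp [lcol]

theorem PicC_box {e t : ℝ} (he : |e| = 1) (ht : |t| ≤ 1 / 2) (i : Fin 3) :
    |PicC_g e t i| ≤ 3 / 4 := by
  have h0 := PicC_bump_nonneg t
  have h1 := PicC_bump_le_one t
  have h2 := abs_nonneg t
  fin_cases i
  · show |S.bump t / 2| ≤ 3 / 4
    rw [abs_le]
    constructor <;> linarith
  · show |t * st (16 * t ^ 2 - 1)| ≤ 3 / 4
    rw [abs_mul]
    nlinarith [abs_st_le (16 * t ^ 2 - 1), abs_nonneg (st (16 * t ^ 2 - 1))]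
  · show |-e * t * S.bump t| ≤ 3 / 4
    rw [abs_mul, abs_mul, abs_neg, he, abs_of_nonneg h0]
    nlinarith

/-- `144` times the marked parameters -/
def PicC_Z (j : ℕ) : ℤ :=
  [-144, -72, -63, -54, -45, -24, -16, -8, 0, 8, 16, 24, 45, 54, 63, 72].getD j 144

/-- the marked parameters -/
noncomputable def PicC_T (j : ℕ) : ℝ := PicC_Z j / 144

/-- the parameters between two marks; the outermost marks stand for infinity -/
def PicC_iv (j j' : ℕ) : Set ℝ :=
  {t | (j ≠ 0 → (PicC_Z j : ℝ) ≤ 144 * t) ∧ (j' ≠ 16 → 144 * t ≤ (PicC_Z j' : ℝ))}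

theorem PicC_T_mul (j : ℕ) : 144 * PicC_T j = PicC_Z j := by
  rw [PicC_T]
  ring

theorem PicC_Z_lt {i j : ℕ} (h : i < j) (hj : j ≤ 16) : (PicC_Z i : ℝ) < PicC_Z j := by
  have key : ∀ j ≤ 16, ∀ i < j, PicC_Z i < PicC_Z j := by decide +kernel
  exact_mod_cast key j hj i h

theorem PicC_Z_le {i j : ℕ} (h : i ≤ j) (hj : j ≤ 16) : (PicC_Z i : ℝ) ≤ PicC_Z j := by
  rcases h.eq_or_lt with rfl | h
  · exact le_rfl
  · exact (PicC_Z_lt h hj).le

theorem PicC_T_lt {i j : ℕ} (h : i < j) (hj : j ≤ 16) : PicC_T i < PicC_T j := by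
  linarith [PicC_T_mul i, PicC_T_mul j, PicC_Z_lt h hj]

theorem PicC_iv_mono {i i' j j' : ℕ} (h : i ≤ j) (hj : j ≤ 16) (h' : j' ≤ i') (hi : i' ≤ 16) :
    PicC_iv j j' ⊆ PicC_iv i i' := fun _ ht =>
  ⟨fun h0 => (PicC_Z_le h hj).trans (ht.1 (by omega)),
    fun h0 => (ht.2 (by omega)).trans (PicC_Z_le h' hi)⟩

theorem PicC_T_mem {i i' j : ℕ} (h : i ≤ j) (h' : j ≤ i') (hi : i' ≤ 16) :
    PicC_T j ∈ PicC_iv i i' :=
  ⟨fun _ => PicC_T_mul j ▸ PicC_Z_le h (h'.trans hi), fun _ => PicC_T_mul j ▸ PicC_Z_le h' hi⟩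

theorem PicC_iv_eq {j j' : ℕ} (h : j ≠ 0) (h' : j' ≠ 16) :
    PicC_iv j j' = Icc (PicC_T j) (PicC_T j') := by
  ext t
  have := PicC_T_mul j
  have := PicC_T_mul j'
  exact ⟨fun ht => ⟨by linarith [ht.1 h], by linarith [ht.2 h']⟩,
    fun ht => ⟨fun _ => by linarith [ht.1], fun _ => by linarith [ht.2]⟩⟩

theorem PicC_cover (t : ℝ) : ∃ j ≤ 15, t ∈ PicC_iv j (j + 1) := by
  have key : ∀ m, t ∈ PicC_iv 0 (m + 1) → ∃ j ≤ m, t ∈ PicC_iv j (j + 1) := by
    intro m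
    induction m with
    | zero => exact fun h => ⟨0, le_rfl, h⟩
    | succ m ih =>
      intro h
      rcases le_total (144 * t) (PicC_Z (m + 1)) with h1 | h1
      · obtain ⟨j, hj, h2⟩ := ih ⟨h.1, fun _ => h1⟩
        exact ⟨j, by omega, h2⟩
      · exact ⟨m + 1, le_rfl, fun _ => h1, h.2⟩
  exact key 15 ⟨fun h => absurd rfl h, fun h => absurd rfl h⟩

/-- position along the strand -/
def PicC_pos : Fin 15 ⊕ Fin 1 × Bool → ℕ
  | .inl k => k + 1
  | .inr b => if b.2 then 16 else 0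

/-- the boundary columns -/
def PicC_bc (b : Fin 1 × Bool) : Fin 15 := if b.2 then 14 else 0

/-- the neighbours -/
def PicC_nb : Fin 15 ⊕ Fin 1 × Bool → Bool → Fin 15 ⊕ Fin 1 × Bool
  | .inl k, s => if k = 0 ∧ s = false then .inr (0, false) else
      if k = 14 then (if s then .inl 13 else .inr (0, true)) else
        .inl (if s then k + 1 else k - 1)
  | .inr b, _ => .inl (PicC_bc b)

/-- columns and rows -/
def PicC_col : Fin 15 ⊕ Fin 1 × Bool → Bool
  | .inl k => decide (k.val % 2 = 0)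
  | .inr _ => false

/-- the subdivision of the curl -/
noncomputable def PicC_conf (e : ℝ) : Conf (Fin 15 ⊕ Fin 1 × Bool) where
  col := PicC_col
  nb := PicC_nb
  pt a := PicC_g e (PicC_T (PicC_pos a))
  arc a a' := PicC_g e '' PicC_iv (min (PicC_pos a) (PicC_pos a'))
    (min (PicC_pos a) (PicC_pos a') + 1)

/-- the parameters of a window -/
def PicC_W (k : Fin 15) : Set ℝ := PicC_iv (k - 1) (min (k.val + 3) 16)

variable {e : ℝ}

theorem PicC_star (k : Fin 15) :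
    (PicC_conf e).star (.inl k) ⊆ PicC_g e '' PicC_iv k (k + 2) := by
  have key : ∀ (k : Fin 15) s, k.val ≤ min (PicC_pos (.inl k)) (PicC_pos (PicC_nb (.inl k) s)) ∧
      min (PicC_pos (.inl k)) (PicC_pos (PicC_nb (.inl k) s)) ≤ 16 ∧
      min (PicC_pos (.inl k)) (PicC_pos (PicC_nb (.inl k) s)) + 1 ≤ k.val + 2 := by decide +kernel
  refine union_subset (image_mono ?_) (image_mono ?_) <;>
    exact PicC_iv_mono (key k _).1 (key k _).2.1 (key k _).2.2 (by omega)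

theorem PicC_win (k : Fin 15) : (PicC_conf e).win (.inl k) ⊆ PicC_g e '' PicC_W k := by
  have key : ∀ (k : Fin 15) s t,
      k.val - 1 ≤ min (PicC_pos (PicC_nb (.inl k) s)) (PicC_pos (PicC_nb (PicC_nb (.inl k) s) t)) ∧
      min (PicC_pos (PicC_nb (.inl k) s)) (PicC_pos (PicC_nb (PicC_nb (.inl k) s) t)) ≤ 16 ∧
      min (PicC_pos (PicC_nb (.inl k) s)) (PicC_pos (PicC_nb (PicC_nb (.inl k) s) t)) + 1 ≤
        min (k.val + 3) 16 := by decide +kernel
  refine union_subset (union_subset (image_mono ?_) (image_mono ?_))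
    (union_subset (image_mono ?_) (image_mono ?_)) <;>
    exact PicC_iv_mono (key k _ _).1 (key k _ _).2.1 (key k _ _).2.2 (min_le_right _ _)

theorem PicC_dir (k : Fin 15) : ∃ i : Fin 3, i ≠ 2 ∧
    (StrictMonoOn (fun t => PicC_g e t i) (PicC_W k) ∨
      StrictAntiOn (fun t => PicC_g e t i) (PicC_W k)) := by
  have key : ∀ k : Fin 15, (min (k.val + 3) 16 ≤ 4 ∨ 12 ≤ k.val - 1) ∨
      (1 ≤ k.val - 1 ∧ min (k.val + 3) 16 ≤ 8) ∨ (5 ≤ k.val - 1 ∧ min (k.val + 3) 16 ≤ 11) ∨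
      (8 ≤ k.val - 1 ∧ min (k.val + 3) 16 ≤ 15) := by decide +kernel
  have hk : k.val - 1 ≤ 16 := by omega
  rcases key k with h | h | h | h
  · have h1 : ∀ t ∈ PicC_W k, PicC_g e t 1 = t := fun t ht => PicC_y_far e (by
      rcases h with h | h
      · have h2 := (PicC_iv_mono (Nat.zero_le _) hk h (by norm_num) ht).2 (by norm_num)
        norm_num [PicC_Z] at h2
        exact le_abs'.2 (Or.inl h2)
      · have h2 := (PicC_iv_mono h hk (min_le_right _ _) le_rfl ht).1 (by norm_num)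
        norm_num [PicC_Z] at h2
        exact le_abs'.2 (Or.inr h2))
    exact ⟨1, by decide, Or.inl fun s hs t ht hst => by simpa only [h1 s hs, h1 t ht] using hst⟩
  · refine ⟨0, by decide, Or.inl fun s hs t ht hst => ?_⟩
    have h1 := PicC_iv_mono h.1 hk h.2 (by norm_num) hs
    have h2 := PicC_iv_mono h.1 hk h.2 (by norm_num) ht
    norm_num [PicC_iv, PicC_Z] at h1 h2
    have := PicC_bump_lt (s := s) (t := t)
      (by rw [abs_of_nonpos (by linarith), abs_of_nonpos (by linarith)]; linarith)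
      (by rw [abs_of_nonpos (by linarith)]; linarith)
    simp only [PicC_x]
    linarith
  · have h1 : ∀ t ∈ PicC_W k, PicC_g e t 1 = -t := fun t ht => PicC_y_near e (by
      have h2 := PicC_iv_mono h.1 hk h.2 (by norm_num) ht
      norm_num [PicC_iv, PicC_Z] at h2
      exact abs_le.2 h2)
    exact ⟨1, by decide, Or.inr fun s hs t ht hst => by
      simpa only [h1 s hs, h1 t ht] using neg_lt_neg hst⟩
  · refine ⟨0, by decide, Or.inr fun s hs t ht hst => ?_⟩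
    have h1 := PicC_iv_mono h.1 hk h.2 (by norm_num) hs
    have h2 := PicC_iv_mono h.1 hk h.2 (by norm_num) ht
    norm_num [PicC_iv, PicC_Z] at h1 h2
    have := PicC_bump_lt (s := t) (t := s)
      (by rw [abs_of_nonneg (by linarith), abs_of_nonneg (by linarith)]; linarith)
      (by rw [abs_of_nonneg (by linarith)]; linarith)
    simp only [PicC_x]
    linarith

theorem PicC_mono (k : Fin 15) : ∃ i s, i ≠ 2 ∧ (PicC_conf e).Mono i (.inl k) s := by
  have key : ∀ k : Fin 15, ∃ s,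
      (∀ t, PicC_nb (PicC_nb (.inl k) s) t ≠ .inl k →
        PicC_pos (PicC_nb (PicC_nb (.inl k) s) t) < PicC_pos (PicC_nb (.inl k) s)) ∧
      PicC_pos (PicC_nb (.inl k) s) < PicC_pos (.inl k) ∧
      PicC_pos (.inl k) < PicC_pos (PicC_nb (.inl k) (!s)) ∧
      ∀ t, PicC_nb (PicC_nb (.inl k) (!s)) t ≠ .inl k →
        PicC_pos (PicC_nb (.inl k) (!s)) < PicC_pos (PicC_nb (PicC_nb (.inl k) (!s)) t) := by
    decide +kernel
  have k0 : ∀ k : Fin 15, k.val - 1 ≤ PicC_pos (.inl k) ∧ PicC_pos (.inl k) ≤ min (k.val + 3) 16 := by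
    decide +kernel
  have k1 : ∀ (k : Fin 15) s, k.val - 1 ≤ PicC_pos (PicC_nb (.inl k) s) ∧
      PicC_pos (PicC_nb (.inl k) s) ≤ min (k.val + 3) 16 := by decide +kernel
  have k2 : ∀ (k : Fin 15) s t, k.val - 1 ≤ PicC_pos (PicC_nb (PicC_nb (.inl k) s) t) ∧
      PicC_pos (PicC_nb (PicC_nb (.inl k) s) t) ≤ min (k.val + 3) 16 := by decide +kernel
  obtain ⟨i, hi, h⟩ := PicC_dir (e := e) k
  obtain ⟨s, h1, h2, h3, h4⟩ := key k
  have hinj : InjOn (fun p : E3 => p i) ((PicC_conf e).win (.inl k)) := by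
    refine InjOn.mono (PicC_win k) ?_
    rintro _ ⟨s, hs, rfl⟩ _ ⟨t, ht, rfl⟩ hst
    rw [(h.elim StrictMonoOn.injOn StrictAntiOn.injOn) hs ht hst]
  rcases h with h | h
  · have H : ∀ {j j' : ℕ}, (k.val - 1 ≤ j ∧ j ≤ min (k.val + 3) 16) →
        (k.val - 1 ≤ j' ∧ j' ≤ min (k.val + 3) 16) → j < j' →
        PicC_g e (PicC_T j) i < PicC_g e (PicC_T j') i := fun hj hj' hl =>
      h (PicC_T_mem hj.1 hj.2 (min_le_right _ _)) (PicC_T_mem hj'.1 hj'.2 (min_le_right _ _))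
        (PicC_T_lt hl (hj'.2.trans (min_le_right _ _)))
    exact ⟨i, s, hi, hinj, fun t ht => H (k2 k _ _) (k1 k _) (h1 t ht), H (k1 k _) (k0 k) h2,
      H (k0 k) (k1 k _) h3, fun t ht => H (k1 k _) (k2 k _ _) (h4 t ht)⟩
  · have H : ∀ {j j' : ℕ}, (k.val - 1 ≤ j ∧ j ≤ min (k.val + 3) 16) →
        (k.val - 1 ≤ j' ∧ j' ≤ min (k.val + 3) 16) → j < j' →
        PicC_g e (PicC_T j') i < PicC_g e (PicC_T j) i := fun hj hj' hl =>
      h (PicC_T_mem hj.1 hj.2 (min_le_right _ _)) (PicC_T_mem hj'.1 hj'.2 (min_le_right _ _))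
        (PicC_T_lt hl (hj'.2.trans (min_le_right _ _)))
    refine ⟨i, !s, hi, hinj, fun t ht => H (k1 k _) (k2 k _ _) (h4 t ht), H (k0 k) (k1 k _) h3,
      ?_, ?_⟩ <;> rw [Bool.not_not]
    · exact H (k1 k _) (k0 k) h2
    · exact fun t ht => H (k2 k _ _) (k1 k _) (h1 t ht)

theorem PicC_sep0 {A B : Set ℝ} (h : ∀ s ∈ A, ∀ t ∈ B, |t| < |s| ∧ |t| < 1 / 2) :
    Sep 0 (PicC_g e '' A) (PicC_g e '' B) := by
  rintro _ ⟨s, hs, rfl⟩ _ ⟨t, ht, rfl⟩
  have := PicC_bump_lt (h s hs t ht).1 (h s hs t ht).2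
  rw [PicC_x, PicC_x]
  linarith

theorem PicC_sep2 (he : |e| = 1) {A B : Set ℝ}
    (h : ∀ s ∈ A, ∀ t ∈ B, s * S.bump s < t * S.bump t) :
    Sep 2 (PicC_g e '' A) (PicC_g e '' B) ∨ Sep 2 (PicC_g e '' B) (PicC_g e '' A) := by
  rcases (abs_eq zero_le_one).1 he with rfl | rfl
  · right
    rintro _ ⟨t, ht, rfl⟩ _ ⟨s, hs, rfl⟩
    rw [PicC_z, PicC_z]
    linarith [h s hs t ht]
  · left
    rintro _ ⟨s, hs, rfl⟩ _ ⟨t, ht, rfl⟩
    rw [PicC_z, PicC_z]
    linarith [h s hs t ht]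

theorem PicC_sep (he : |e| = 1) {k k' : ℕ} (h : k + 3 ≤ k') (h' : k' ≤ 14) :
    ∃ i, Sep i (PicC_g e '' PicC_iv k (k + 2)) (PicC_g e '' PicC_iv k' (k' + 2)) ∨
      Sep i (PicC_g e '' PicC_iv k' (k' + 2)) (PicC_g e '' PicC_iv k (k + 2)) := by
  have key : ∀ k' ≤ 14, ∀ k ≤ 14, k + 3 ≤ k' → (decide
      (k' + 2 ≠ 16 ∧ PicC_Z (k' + 2) < -PicC_Z (k + 2) ∧ -72 < PicC_Z k' ∧ PicC_Z (k' + 2) < 72) ||
      (decide (k ≠ 0 ∧ -PicC_Z k' < PicC_Z k ∧ -72 < PicC_Z k ∧ PicC_Z (k + 2) < 72) ||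
      (decide (PicC_Z (k + 2) ≤ -45 ∧ 45 ≤ PicC_Z k') ||
      (decide (k ≠ 0 ∧ -72 < PicC_Z k ∧ PicC_Z (k + 2) < 0 ∧ 0 ≤ PicC_Z k') ||
      decide (k' + 2 ≠ 16 ∧ PicC_Z (k' + 2) < 72 ∧ 0 < PicC_Z k' ∧ PicC_Z (k + 2) ≤ 0))))) =
      true := by decide +kernel
  simp only [Bool.or_eq_true, decide_eq_true_eq] at key
  have hl := PicC_Z_lt (show k + 2 < k' by omega) (by omega)
  have n1 : k + 2 ≠ 16 := by omega
  have n2 : k' ≠ 0 := by omega
  rcases key k' h' k (by omega) h with ⟨h0, h1, h2, h3⟩ | ⟨h0, h1, h2, h3⟩ | ⟨h1, h2⟩ |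
    ⟨h0, h1, h2, h3⟩ | ⟨h0, h1, h2, h3⟩ <;> rify at h1 h2
  · rify at h3
    refine ⟨0, Or.inl (PicC_sep0 fun s hs t ht => ?_)⟩
    have := hs.2 n1
    have := ht.1 n2
    have := ht.2 h0
    have := neg_abs_le s
    exact ⟨abs_lt.2 ⟨by linarith, by linarith⟩, abs_lt.2 ⟨by linarith, by linarith⟩⟩
  · rify at h3
    refine ⟨0, Or.inr (PicC_sep0 fun t ht s hs => ?_)⟩
    have := hs.2 n1
    have := ht.1 n2
    have := hs.1 h0
    have := le_abs_self t
    exact ⟨abs_lt.2 ⟨by linarith, by linarith⟩, abs_lt.2 ⟨by linarith, by linarith⟩⟩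
  · refine ⟨1, Or.inl ?_⟩
    rintro _ ⟨s, hs, rfl⟩ _ ⟨t, ht, rfl⟩
    have := hs.2 n1
    have := ht.1 n2
    rw [PicC_y_far e (le_abs'.2 (Or.inl (by linarith))),
      PicC_y_far e (le_abs'.2 (Or.inr (by linarith)))]
    linarith
  · rify at h3
    refine ⟨2, PicC_sep2 he fun s hs t ht => ?_⟩
    have := hs.2 n1
    have := ht.1 n2
    have := hs.1 h0
    exact (mul_neg_of_neg_of_pos (by linarith)
      (PicC_bump_pos (abs_lt.2 ⟨by linarith, by linarith⟩))).trans_le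
      (mul_nonneg (by linarith) (PicC_bump_nonneg t))
  · rify at h3
    refine ⟨2, PicC_sep2 he fun s hs t ht => ?_⟩
    have := hs.2 n1
    have := ht.1 n2
    have := ht.2 h0
    exact (mul_nonpos_of_nonpos_of_nonneg (by linarith) (PicC_bump_nonneg s)).trans_lt
      (mul_pos (by linarith) (PicC_bump_pos (abs_lt.2 ⟨by linarith, by linarith⟩)))

theorem PicC_isArc {g : ℝ → E3} (hg : Continuous g) {u v : ℝ} (huv : u ≠ v)
    (hi : InjOn g (uIcc u v)) : IsArc (g '' uIcc u v) (g u) (g v) := by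
  have hm : ∀ t ∈ Icc (0 : ℝ) 1, u + t * (v - u) ∈ uIcc u v := fun t ht => by
    rw [← segment_eq_uIcc, segment_eq_image']
    exact ⟨t, ht, rfl⟩
  refine ⟨fun t => g (u + t * (v - u)), (hg.comp (by fun_prop)).continuousOn,
    fun t ht t' ht' h => ?_, by simp, by simp, ?_⟩
  · exact mul_right_cancel₀ (sub_ne_zero.2 huv.symm) (add_left_cancel (hi (hm t ht) (hm t' ht') h))
  · rw [← segment_eq_uIcc, segment_eq_image', image_image]
    rfl

theorem PicC_adj {k k' : Fin 15} {s : Bool} (h : PicC_nb (.inl k) s = .inl k') :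
    PicC_iv (min (k.val + 1) (k' + 1)) (min (k.val + 1) (k' + 1) + 1) =
      uIcc (PicC_T (k + 1)) (PicC_T (k' + 1)) ∧ k.val ≠ k' ∧
    uIcc (PicC_T (k + 1)) (PicC_T (k' + 1)) ⊆ PicC_W k ∩ PicC_iv 1 15 := by
  have key : ∀ (k k' : Fin 15) s, PicC_nb (.inl k) s = .inl k' →
      k'.val = k + 1 ∨ k.val = k' + 1 := by decide +kernel
  have h1 := k.isLt
  have h2 := k'.isLt
  have h4 := key k k' s h
  have h3 : PicC_iv (min (k.val + 1) (k' + 1)) (min (k.val + 1) (k' + 1) + 1) =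
      uIcc (PicC_T (k + 1)) (PicC_T (k' + 1)) := by
    rw [PicC_iv_eq (by omega) (by omega)]
    rcases h4 with h | h
    · rw [min_eq_left (by omega), uIcc_of_le (PicC_T_lt (by omega) (by omega)).le, h]
    · rw [min_eq_right (by omega), uIcc_of_ge (PicC_T_lt (by omega) (by omega)).le, h]
  refine ⟨h3, by omega, ?_⟩
  rw [← h3]
  exact subset_inter (PicC_iv_mono (by omega) (by omega) (by omega) (by omega))
    (PicC_iv_mono (by omega) (by omega) (by omega) (by omega))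

/-- the content drawn by the curl -/
noncomputable def PicC_ct (he : |e| = 1) : Content lcol (Fin 15) where
  C := PicC_conf e
  bc := PicC_bc
  lv _ := 1 / 2
  lb _ := none
  Xb := [0, 14, 2, 12, 4, 10, 6, 8]
  Yb := [1, 3, 9, 7, 5, 11, 13]
  lv_pos _ := by norm_num
  lv_le _ := by norm_num
  col_inr _ := rfl
  nb_inr _ _ := rfl
  nb_eq_inr := (by decide +kernel :
    ∀ a s b, PicC_nb (.inl a) s = .inr b ↔ a = PicC_bc b ∧ s = false)
  col_nb := (by decide +kernel : ∀ a s, PicC_col (PicC_nb (.inl a) s) = !PicC_col (.inl a))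
  nb_ne := (by decide +kernel : ∀ a, PicC_nb (.inl a) false ≠ PicC_nb (.inl a) true)
  adj_symm := (by decide +kernel : ∀ a s, ∃ s', PicC_nb (PicC_nb (.inl a) s) s' = .inl a)
  pt_bc b := by
    rw [← PicC_ray e b le_rfl]
    obtain ⟨k, _ | _⟩ := b
    · exact congrArg (PicC_g e) (show PicC_T 1 = _ by norm_num [PicC_T, PicC_Z])
    · exact congrArg (PicC_g e) (show PicC_T 15 = _ by norm_num [PicC_T, PicC_Z])
  pt_inr b := by
    rw [← PicC_ray e b (by norm_num)]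
    obtain ⟨k, _ | _⟩ := b
    · exact congrArg (PicC_g e) (show PicC_T 0 = _ by norm_num [PicC_T, PicC_Z])
    · exact congrArg (PicC_g e) (show PicC_T 16 = _ by norm_num [PicC_T, PicC_Z])
  arc_bc b := by
    rw [← image_congr (s := Ici (1 / 2)) fun y hy => PicC_ray e b hy, ← image_image (PicC_g e)]
    obtain ⟨k, _ | _⟩ := b
    · refine congrArg (image (PicC_g e)) (show PicC_iv 0 1 = _ from ?_)
      ext t
      norm_num [PicC_iv, PicC_Z]
      constructor <;> intro h <;> linarith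
    · refine congrArg (image (PicC_g e)) (show PicC_iv 15 16 = _ from ?_)
      ext t
      norm_num [PicC_iv, PicC_Z]
      constructor <;> intro h <;> linarith
  arc_symm a s := by simp only [PicC_conf, min_comm]
  isArc a s a' h := by
    obtain ⟨h1, h2, h3⟩ := PicC_adj h
    obtain ⟨i, -, hi⟩ := PicC_dir (e := e) a
    have h4 : PicC_T (a + 1) ≠ PicC_T (a' + 1) := by
      rcases lt_or_gt_of_ne h2 with h | h
      · exact (PicC_T_lt (by omega) (by omega)).ne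
      · exact (PicC_T_lt (by omega) (by omega)).ne'
    have h5 := PicC_isArc (PicC_cont e) h4 fun s hs t ht hst =>
      (hi.elim StrictMonoOn.injOn StrictAntiOn.injOn) (h3 hs).1 (h3 ht).1 (by simp only [hst])
    rw [← h1] at h5
    exact h5
  box a s a' h := by
    obtain ⟨h1, -, h3⟩ := PicC_adj h
    rintro _ ⟨t, ht, rfl⟩
    have h4 := (h3 (h1 ▸ ht)).2
    norm_num [PicC_iv, PicC_Z] at h4
    exact PicC_box he (abs_le.2 ⟨by linarith [h4.1], by linarith [h4.2]⟩)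
  sep a a' h := by
    have key : ∀ a a' : Fin 15, (Sum.inl a ≠ (Sum.inl a' : Fin 15 ⊕ Fin 1 × Bool) ∧
        (∀ s, PicC_nb (.inl a) s ≠ .inl a') ∧ ∀ s s', PicC_nb (.inl a) s ≠ PicC_nb (.inl a') s') →
        a.val + 3 ≤ a' ∨ a'.val + 3 ≤ a := by decide +kernel
    have H : ∀ {i} {a a' : Fin 15}, Sep i (PicC_g e '' PicC_iv a (a + 2))
        (PicC_g e '' PicC_iv a' (a' + 2)) →
        Sep i ((PicC_conf e).star (.inl a)) ((PicC_conf e).star (.inl a')) :=
      fun h p hp q hq => h p (PicC_star _ hp) q (PicC_star _ hq)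
    rcases key a a' h with h | h
    · obtain ⟨i, hi⟩ := PicC_sep he h (by omega)
      exact ⟨i, hi.imp H H⟩
    · obtain ⟨i, hi⟩ := PicC_sep he h (by omega)
      exact ⟨i, hi.symm.imp H H⟩
  mono := PicC_mono
  zr _ _ _ h := absurd h (lt_irrefl _)
  lb_nb _ _ _ _ := rfl
  lb_bc _ := rfl
  nodupX := by decide
  nodupY := by decide
  memX := (by decide +kernel : ∀ a : Fin 15, a ∈ [0, 14, 2, 12, 4, 10, 6, 8] ↔
    PicC_col (.inl a) = true)
  memY := (by decide +kernel : ∀ a : Fin 15, a ∈ [1, 3, 9, 7, 5, 11, 13] ↔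
    PicC_col (.inl a) = false)
  sortX := by
    have key : List.Pairwise (fun a b : Fin 15 => |PicC_Z (b + 1)| ≤ |PicC_Z (a + 1)|)
        [0, 14, 2, 12, 4, 10, 6, 8] := by decide +kernel
    refine key.imp fun {a b} h => ?_
    have := PicC_bump_le (s := PicC_T (a + 1)) (t := PicC_T (b + 1)) (by
      rify at h
      rw [PicC_T, PicC_T, abs_div, abs_div]
      gcongr)
    show S.bump (PicC_T (a + 1)) / 2 ≤ S.bump (PicC_T (b + 1)) / 2
    linarith
  sortY := by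
    have key : List.Pairwise (fun a b : Fin 15 =>
        (if |PicC_Z (a + 1)| ≤ 24 then -PicC_Z (a + 1) else PicC_Z (a + 1)) ≤
          if |PicC_Z (b + 1)| ≤ 24 then -PicC_Z (b + 1) else PicC_Z (b + 1))
        [1, 3, 9, 7, 5, 11, 13] := by decide +kernel
    have k1 : ∀ a : Fin 15, ¬ |PicC_Z (a + 1)| ≤ 24 → 45 ≤ |PicC_Z (a + 1)| := by decide +kernel
    have k2 : ∀ a : Fin 15, 144 * PicC_g e (PicC_T (a + 1)) 1 =
        ((if |PicC_Z (a + 1)| ≤ 24 then -PicC_Z (a + 1) else PicC_Z (a + 1) : ℤ) : ℝ) := by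
      intro a
      split_ifs with h
      · rw [PicC_y_near e (by rw [PicC_T_mul]; exact_mod_cast h), mul_neg, PicC_T_mul, Int.cast_neg]
      · rw [PicC_y_far e (by rw [PicC_T_mul]; exact_mod_cast k1 a h), PicC_T_mul]
    refine key.imp fun {a b} h => ?_
    have h1 := (Int.cast_le (R := ℝ)).2 h
    rw [← k2, ← k2] at h1
    show PicC_g e (PicC_T (a + 1)) 1 ≤ PicC_g e (PicC_T (b + 1)) 1
    linarith
  subX σ := by cases σ <;> decide

theorem PicC_pic (he : |e| = 1) : (PicC_ct he).pic = nn (trace (S.curl e)) := by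
  ext ⟨o, p⟩
  constructor
  · rintro ⟨a, ha, ho⟩
    obtain ⟨t, -, rfl⟩ := PicC_star a ha
    exact ⟨ho, mem_iUnion.2 ⟨(), t, rfl⟩⟩
  · rintro ⟨ho, hp⟩
    obtain ⟨c, t, rfl⟩ := mem_iUnion.1 hp
    obtain ⟨j, hj, ht⟩ := PicC_cover t
    have key : ∀ j ≤ 15, ∃ (k : Fin 15) (s : Bool),
        min (PicC_pos (.inl k)) (PicC_pos (PicC_nb (.inl k) s)) = j := by decide +kernel
    obtain ⟨k, s, rfl⟩ := key j hj
    refine ⟨k, ?_, ho⟩
    cases s
    · exact Or.inl ⟨t, ht, rfl⟩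
    · exact Or.inr ⟨t, ht, rfl⟩

theorem PicC_word (he : |e| = 1) : (PicC_ct he).word = [⟨[Nm.no], .cup Nm.no, []⟩,
    ⟨[Nm.no], .cr Nm.no Nm.no (decide (PicC_g e (PicC_T 6) 2 < PicC_g e (PicC_T 11) 2)), []⟩,
    ⟨[], .cap Nm.no, [Nm.no]⟩] := rfl

theorem hasContent_curl (s : Bool) :
    HasContent lcol (nn (trace (S.curl (if s then -1 else 1))))
      [⟨[Nm.no], .cup Nm.no, []⟩, ⟨[Nm.no], .cr Nm.no Nm.no s, []⟩, ⟨[], .cap Nm.no, [Nm.no]⟩] := by
  have he : |(if s then -1 else 1 : ℝ)| = 1 := by cases s <;> simp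
  refine ⟨_, inferInstance, inferInstance, PicC_ct he, fun y _ => by rw [PicC_pic], ?_⟩
  have h1 : PicC_T 6 = -1 / 9 := by norm_num [PicC_T, PicC_Z]
  have h2 : PicC_T 11 = 1 / 6 := by norm_num [PicC_T, PicC_Z]
  have h3 := PicC_bump_pos (t := -1 / 9) (by norm_num [abs_lt])
  have h4 := PicC_bump_pos (t := 1 / 6) (by norm_num [abs_lt])
  rw [PicC_word, PicC_z, PicC_z, h1, h2]
  cases s
  · rw [decide_eq_false]
    simp only [Bool.false_eq_true, if_false]
    linarith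
  · rw [decide_eq_true]
    simp only [if_true]
    linarith

theorem hasContent_line : HasContent lcol (nn (trace S.line)) [] := by
  obtain ⟨Ct, -, -, -, -, -, -, h2, h3⟩ :=
    exists_idContent (Co := lcol) (x := fun _ => 0) ⟨fun _ _ => rfl, fun _ => rfl, fun _ => rfl⟩
  refine ⟨_, inferInstance, inferInstance, Ct, fun y _ => ?_, h3⟩
  rw [h2]
  constructor
  · rintro ⟨k, h0, h1, h2⟩
    exact ⟨h0, mem_iUnion.2 ⟨(), y.2 1, gid_ext h1.symm rfl h2.symm⟩⟩
  · rintro ⟨h0, hp⟩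
    obtain ⟨c, t, ht⟩ := mem_iUnion.1 hp
    exact ⟨0, h0, by rw [← ht]; rfl, by rw [← ht]; rfl⟩

end Pool.Agent.P.MP_ac4909_gt.B.K7
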