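import Pool.Agent.P.MP_7f6fde_gt.B.Base

/-! The words of the two crossings and of the two smoothings. -/

namespace Pool.Agent.P.MP_ac4909_gt.B.K7

open Set
open Pool.Agent.P.MP_7f6fde_gt

/-- the ends of two strands -/
structure pcx_Sk where
  e : Bool → Bool → Fin 2 × Bool
  sj : Fin 2 × Bool → Bool
  sd : Fin 2 × Bool → Bool

/-- marked points and virtual rows -/
abbrev pcx_N (m : ℕ) : Type := (Bool × Fin (m + 1)) ⊕ Fin 2 × Bool

namespace pcx_Sk

variable (K : pcx_Sk) (m : ℕ)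

def col : pcx_N m → Bool := Sum.elim (fun a => a.2.val % 2 == 0) fun _ => false

def bc (b : Fin 2 × Bool) : Bool × Fin (m + 1) := (K.sj b, if K.sd b then Fin.last m else 0)

def nb : pcx_N m → Bool → pcx_N m
  | .inr b, _ => .inl (K.bc m b)
  | .inl a, s =>
    if (if a.2 = Fin.last m then !s else s) then
      (if a.2 = Fin.last m then .inr (K.e a.1 true) else .inl (a.1, a.2 + 1))
    else if a.2 = 0 then .inr (K.e a.1 false) else .inl (a.1, a.2 - 1)

def str : pcx_N m → Bool := Sum.elim Prod.fst K.sj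

def pos : pcx_N m → ℤ := Sum.elim (fun a => a.2.val) fun b => if K.sd b then m + 1 else -1

/-- the combinatorial facts -/
structure Ok : Prop where
  m_pos : 0 < m
  e_inv : ∀ b, K.e (K.sj b) (K.sd b) = b
  sj_e : ∀ j s, K.sj (K.e j s) = j
  sd_e : ∀ j s, K.sd (K.e j s) = s
  step : ∀ a s a', K.nb m (.inl a) s = .inl a' →
    a'.1 = a.1 ∧ (a'.2.val = a.2.val + 1 ∨ a.2.val = a'.2.val + 1)
  nb_eq_inr : ∀ a s b, K.nb m (.inl a) s = .inr b ↔ a = K.bc m b ∧ s = false
  col_nb : ∀ a s, col m (K.nb m (.inl a) s) = !col m (.inl a)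
  nb_ne : ∀ a, K.nb m (.inl a) false ≠ K.nb m (.inl a) true
  adj_symm : ∀ a s, ∃ s', K.nb m (K.nb m (.inl a) s) s' = .inl a
  mono : ∀ a, ∃ s, (∀ t, K.nb m (K.nb m (.inl a) s) t ≠ .inl a →
      K.pos m (K.nb m (K.nb m (.inl a) s) t) < K.pos m (K.nb m (.inl a) s)) ∧
    K.pos m (K.nb m (.inl a) s) < K.pos m (.inl a) ∧
    K.pos m (.inl a) < K.pos m (K.nb m (.inl a) (!s)) ∧
    ∀ t, K.nb m (K.nb m (.inl a) (!s)) t ≠ .inl a →
      K.pos m (K.nb m (.inl a) (!s)) < K.pos m (K.nb m (K.nb m (.inl a) (!s)) t)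
  str_nb : ∀ a s, K.str m (K.nb m a s) = K.str m a
  far : ∀ a a', a.1 = a'.1 → a ≠ a' → (∀ s, K.nb m (.inl a) s ≠ .inl a') →
    (∀ s s', K.nb m (.inl a) s ≠ K.nb m (.inl a') s') →
    a.2.val + 3 ≤ a'.2.val ∨ a'.2.val + 3 ≤ a.2.val
  succ : ∀ (j : Bool) (k k' : Fin (m + 1)), k'.val = k.val + 1 →
    ∃ s, K.nb m (.inl (j, k)) s = .inl (j, k')

end pcx_Sk

/-- the sign of a side -/
def pcx_sg (s : Bool) : ℝ := if s then 1 else -1

/-- the marked parameters -/
noncomputable def pcx_q (m : ℕ) (k : ℝ) : ℝ := k / m - 1 / 2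

/-- the parameters of a star -/
def pcx_W (m k : ℕ) : Set ℝ :=
  {t | (k = 0 ∨ pcx_q m (k - 1) ≤ t) ∧ (k = m ∨ t ≤ pcx_q m (k + 1))}

theorem pcx_q_lt {m : ℕ} (hm : 0 < m) {k k' : ℝ} (h : k < k') : pcx_q m k < pcx_q m k' :=
  sub_lt_sub_right (div_lt_div_of_pos_right h (by exact_mod_cast hm)) _

theorem pcx_q_le {m : ℕ} {k k' : ℝ} (h : k ≤ k') : pcx_q m k ≤ pcx_q m k' :=
  sub_le_sub_right (div_le_div_of_nonneg_right h (by positivity)) _

theorem pcx_q_zero (m : ℕ) : pcx_q m 0 = -(1 / 2) := by simp [pcx_q]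

theorem pcx_q_last {m : ℕ} (hm : 0 < m) : pcx_q m m = 1 / 2 := by
  rw [pcx_q, div_self (by exact_mod_cast hm.ne')]
  norm_num

theorem pcx_q_abs {m : ℕ} (hm : 0 < m) (k : Fin (m + 1)) : |pcx_q m k.val| ≤ 1 / 2 := by
  rw [abs_le, ← pcx_q_zero m, ← pcx_q_last hm]
  exact ⟨pcx_q_le (by positivity), pcx_q_le (by exact_mod_cast Nat.lt_succ_iff.1 k.2)⟩

theorem pcx_between (f : ℕ → ℝ) {t : ℝ} (h₀ : f 0 ≤ t) :
    ∀ m, 0 < m → t ≤ f m → ∃ k < m, f k ≤ t ∧ t ≤ f (k + 1) := by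
  intro m
  induction m with
  | zero => exact fun h => absurd h (lt_irrefl _)
  | succ m ih =>
    intro _ h
    rcases Nat.eq_zero_or_pos m with rfl | hm
    · exact ⟨0, by omega, h₀, h⟩
    · rcases le_total t (f m) with h' | h'
      · obtain ⟨k, hk, h''⟩ := ih hm h'
        exact ⟨k, by omega, h''⟩
      · exact ⟨m, by omega, h', h⟩

theorem pcx_isArc {g : ℝ → E3} (hc : Continuous g) (hi : Function.Injective g) {u v : ℝ}
    (h : u ≠ v) : IsArc (g '' uIcc u v) (g u) (g v) := by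
  refine ⟨fun x => g (u + x • (v - u)), (hc.comp (by fun_prop)).continuousOn,
    fun x _ y _ e => ?_, by simp, by simp, ?_⟩
  · have := hi e
    simp only [smul_eq_mul, add_right_inj] at this
    exact mul_right_cancel₀ (sub_ne_zero.2 h.symm) this
  · rw [← segment_eq_uIcc, segment_eq_image', image_image]

/-- two strands that end on the four collars of `xcol` -/
structure pcx_Data (m : ℕ) where
  K : pcx_Sk
  ok : K.Ok m
  g : Bool → ℝ → E3
  i : Fin 3
  Xb : List (Bool × Fin (m + 1))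
  Yb : List (Bool × Fin (m + 1))
  cont : ∀ j, Continuous (g j)
  ray : ∀ j s y, 1 / 2 ≤ y → g j (pcx_sg s * y) = xcol.cl (K.e j s) y
  i_ne : i ≠ 2
  mono : ∀ j, StrictMono fun t => g j t i
  sep : ∀ k k' : Fin (m + 1), ∃ i, Sep i (g false '' pcx_W m k) (g true '' pcx_W m k') ∨
    Sep i (g true '' pcx_W m k') (g false '' pcx_W m k)
  box : ∀ j t, |t| ≤ 1 / 2 → ∀ k, |g j t k| ≤ 3 / 4
  nodupX : Xb.Nodup
  nodupY : Yb.Nodup
  memX : ∀ a, a ∈ Xb ↔ pcx_Sk.col m (.inl a) = true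
  memY : ∀ a, a ∈ Yb ↔ pcx_Sk.col m (.inl a) = false
  sortX : Xb.Pairwise fun a b => g a.1 (pcx_q m a.2.val) 0 ≤ g b.1 (pcx_q m b.2.val) 0
  sortY : Yb.Pairwise fun a b => g a.1 (pcx_q m a.2.val) 1 ≤ g b.1 (pcx_q m b.2.val) 1
  subX : ∀ σ, (List.ofFn fun k => K.bc m (k, σ)).Sublist Xb

namespace pcx_Data

variable {m : ℕ} (D : pcx_Data m)

/-- the parameter of a marked point -/
noncomputable def par : pcx_N m → ℝ :=
  Sum.elim (fun a => pcx_q m a.2.val) fun b => pcx_sg (D.K.sd b) * 1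

/-- the subdivision -/
noncomputable def conf : Conf (pcx_N m) where
  col := pcx_Sk.col m
  nb := D.K.nb m
  pt a := D.g (D.K.str m a) (D.par a)
  arc a a' := match a, a' with
    | .inl a, .inl a' => D.g a.1 '' uIcc (pcx_q m a.2.val) (pcx_q m a'.2.val)
    | .inl _, .inr b => xcol.cl b '' Ici (1 / 2)
    | .inr b, .inl _ => xcol.cl b '' Ici (1 / 2)
    | .inr _, .inr _ => ∅

theorem ray' (b : Fin 2 × Bool) {y : ℝ} (hy : 1 / 2 ≤ y) :
    xcol.cl b y = D.g (D.K.sj b) (pcx_sg (D.K.sd b) * y) := by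
  rw [D.ray _ _ _ hy, D.ok.e_inv]

theorem inj (j : Bool) : Function.Injective (D.g j) := fun s t h =>
  (D.mono j).injective (by simp only [h])

theorem par_lt {a a' : pcx_N m} (h : D.K.pos m a < D.K.pos m a') : D.par a < D.par a' := by
  have hm := D.ok.m_pos
  rcases a with a | b <;> rcases a' with a' | b' <;>
    simp only [pcx_Sk.pos, par, Sum.elim_inl, Sum.elim_inr, pcx_sg] at h ⊢
  · exact pcx_q_lt hm (by exact_mod_cast h)
  · split_ifs at h ⊢
    · linarith [(abs_le.1 (pcx_q_abs hm a.2)).2]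
    · omega
  · split_ifs at h ⊢
    · have := a'.2.2
      omega
    · linarith [(abs_le.1 (pcx_q_abs hm a'.2)).1]
  · split_ifs at h ⊢ <;> first | omega | norm_num

theorem pt_lt {a a' : pcx_N m} (hs : D.K.str m a = D.K.str m a')
    (h : D.K.pos m a < D.K.pos m a') : D.conf.pt a D.i < D.conf.pt a' D.i := by
  change D.g _ _ D.i < D.g _ _ D.i
  rw [hs]
  exact D.mono _ (D.par_lt h)

theorem star_range (a : pcx_N m) : D.conf.star a ⊆ range (D.g (D.K.str m a)) := by
  have key : ∀ s, D.conf.arc a (D.K.nb m a s) ⊆ range (D.g (D.K.str m a)) := by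
    intro s
    have hs := D.ok.str_nb a s
    generalize D.K.nb m a s = a' at hs
    rcases a with a | b <;> rcases a' with a' | b'
    · exact image_subset_range _ _
    · rintro _ ⟨y, hy, rfl⟩
      rw [← hs]
      exact ⟨_, (D.ray' b' hy).symm⟩
    · rintro _ ⟨y, hy, rfl⟩
      exact ⟨_, (D.ray' b hy).symm⟩
    · exact empty_subset _
  exact union_subset (key false) (key true)

theorem star_sub (a : Bool × Fin (m + 1)) :
    D.conf.star (.inl a) ⊆ D.g a.1 '' pcx_W m a.2 := by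
  have hm := D.ok.m_pos
  have key : ∀ s, D.conf.arc (.inl a) (D.K.nb m (.inl a) s) ⊆ D.g a.1 '' pcx_W m a.2 := by
    intro s
    rcases h : D.K.nb m (.inl a) s with a' | b
    · refine image_mono fun t ht => ?_
      rcases (D.ok.step a s a' h).2 with h' | h'
      · have e : (a'.2.val : ℝ) = a.2.val + 1 := by exact_mod_cast h'
        rw [e, uIcc_of_le (pcx_q_le (by linarith))] at ht
        exact ⟨Or.inr ((pcx_q_le (by linarith)).trans ht.1), Or.inr ht.2⟩
      · have e : (a'.2.val : ℝ) = a.2.val - 1 := by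
          rw [eq_sub_iff_add_eq]
          exact_mod_cast h'.symm
        rw [e, uIcc_of_ge (pcx_q_le (by linarith))] at ht
        exact ⟨Or.inr ht.1, Or.inr (ht.2.trans (pcx_q_le (by linarith)))⟩
    · obtain ⟨rfl, -⟩ := (D.ok.nb_eq_inr a s b).1 h
      rintro _ ⟨y, hy, rfl⟩
      refine ⟨_, ?_, (D.ray' b hy).symm⟩
      have hy' : (1 / 2 : ℝ) ≤ y := hy
      simp only [pcx_Sk.bc, pcx_sg]
      split_ifs
      · refine ⟨Or.inr ?_, Or.inl rfl⟩
        have := pcx_q_le (m := m) (k := (m : ℝ) - 1) (k' := m) (by linarith)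
        rw [pcx_q_last hm] at this
        rw [Fin.val_last]
        linarith
      · refine ⟨Or.inl rfl, Or.inr ?_⟩
        have := pcx_q_le (m := m) (k := 0) (k' := ((0 : ℕ) : ℝ) + 1) (by norm_num)
        rw [pcx_q_zero] at this
        exact le_trans (by linarith) this
  exact union_subset (key false) (key true)

theorem sep_same {a a' : Bool × Fin (m + 1)} (e : a.1 = a'.1) (h : a.2.val + 3 ≤ a'.2.val) :
    Sep D.i (D.conf.star (.inl a)) (D.conf.star (.inl a')) := by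
  intro p hp q hq
  obtain ⟨t, ht, rfl⟩ := D.star_sub a hp
  obtain ⟨t', ht', rfl⟩ := D.star_sub a' hq
  rw [← e]
  have h2 := a'.2.2
  have h3 : (a.2.val : ℝ) + 3 ≤ a'.2.val := by exact_mod_cast h
  refine D.mono _ (((ht.2.resolve_left (by omega)).trans_lt ?_).trans_le
    (ht'.1.resolve_left (by omega)))
  exact pcx_q_lt D.ok.m_pos (by linarith)

theorem mem_star (j : Bool) (t : ℝ) : ∃ a, D.g j t ∈ D.conf.star (.inl a) := by
  have hm := D.ok.m_pos
  have key : ∀ s y, 1 / 2 ≤ y → ∃ a, D.g j (pcx_sg s * y) ∈ D.conf.star (.inl a) := by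
    intro s y hy
    refine ⟨D.K.bc m (D.K.e j s), Or.inl ?_⟩
    have h : D.conf.nb (.inl (D.K.bc m (D.K.e j s))) false = .inr (D.K.e j s) :=
      (D.ok.nb_eq_inr _ _ _).2 ⟨rfl, rfl⟩
    rw [h]
    exact ⟨y, hy, (D.ray j s y hy).symm⟩
  rcases le_total (1 / 2) t with h | h
  · simpa [pcx_sg] using key true t h
  rcases le_total t (-(1 / 2)) with h' | h'
  · simpa [pcx_sg] using key false (-t) (by linarith)
  obtain ⟨k, hk, h₁, h₂⟩ := pcx_between (fun k => pcx_q m k) (t := t)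
    (by simpa only [Nat.cast_zero, pcx_q_zero] using h') m hm (by rwa [pcx_q_last hm])
  obtain ⟨s, hs⟩ := D.ok.succ j ⟨k, by omega⟩ ⟨k + 1, by omega⟩ rfl
  have : D.g j t ∈ D.conf.arc (.inl (j, ⟨k, by omega⟩)) (D.conf.nb (.inl (j, ⟨k, by omega⟩)) s) := by
    rw [show D.conf.nb (.inl (j, ⟨k, by omega⟩)) s = _ from hs]
    exact ⟨t, mem_uIcc_of_le h₁ h₂, rfl⟩
  refine ⟨(j, ⟨k, by omega⟩), ?_⟩
  cases s
  exacts [Or.inl this, Or.inr this]

/-- the content drawn by the two strands -/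
noncomputable def ct : Content xcol (Bool × Fin (m + 1)) where
  C := D.conf
  bc := D.K.bc m
  lv _ := 1 / 2
  lb _ := none
  Xb := D.Xb
  Yb := D.Yb
  lv_pos _ := by norm_num
  lv_le _ := by norm_num
  col_inr _ := rfl
  nb_inr _ _ := rfl
  nb_eq_inr := D.ok.nb_eq_inr
  col_nb := D.ok.col_nb
  nb_ne := D.ok.nb_ne
  adj_symm := D.ok.adj_symm
  pt_bc b := by
    rw [D.ray' b le_rfl]
    change D.g (D.K.sj b) (pcx_q m (if D.K.sd b then Fin.last m else 0 : Fin (m + 1)).val) = _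
    congr 1
    cases D.K.sd b
    · simp [pcx_sg, pcx_q_zero]
    · simpa [pcx_sg] using pcx_q_last D.ok.m_pos
  pt_inr b := (D.ray' b (by norm_num)).symm
  arc_bc _ := rfl
  arc_symm a s := by
    change D.conf.arc (D.K.nb m (.inl a) s) _ = D.conf.arc _ (D.K.nb m (.inl a) s)
    rcases h : D.K.nb m (.inl a) s with a' | b
    · change D.g a'.1 '' _ = D.g a.1 '' _
      rw [(D.ok.step a s a' h).1, uIcc_comm]
    · rfl
  isArc a s a' h := by
    obtain ⟨e, h'⟩ := D.ok.step a s a' h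
    change IsArc _ (D.g a.1 (pcx_q m a.2.val)) (D.g a'.1 (pcx_q m a'.2.val))
    rw [e]
    refine pcx_isArc (D.cont _) (D.inj _) ?_
    rcases h' with h' | h'
    · exact (pcx_q_lt D.ok.m_pos (by exact_mod_cast (by omega))).ne
    · exact (pcx_q_lt D.ok.m_pos (by exact_mod_cast (by omega))).ne'
  box a s a' _ := by
    rintro _ ⟨t, ht, rfl⟩
    refine D.box _ _ (abs_le.2 ?_)
    exact uIcc_subset_Icc (abs_le.1 (pcx_q_abs D.ok.m_pos a.2))
      (abs_le.1 (pcx_q_abs D.ok.m_pos a'.2)) ht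
  sep a a' h := by
    by_cases e : a.1 = a'.1
    · exact ⟨D.i, (D.ok.far a a' e (fun e' => h.1 (by rw [e'])) h.2.1 h.2.2).imp (D.sep_same e)
        (D.sep_same e.symm)⟩
    · have h₁ := D.star_sub a
      have h₂ := D.star_sub a'
      obtain ⟨j, k⟩ := a
      obtain ⟨j', k'⟩ := a'
      cases j <;> cases j'
      · exact absurd rfl e
      · obtain ⟨i, hi⟩ := D.sep k k'
        exact ⟨i, hi.imp (fun H p hp q hq => H p (h₁ hp) q (h₂ hq)) fun H p hp q hq =>
          H p (h₂ hp) q (h₁ hq)⟩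
      · obtain ⟨i, hi⟩ := D.sep k' k
        exact ⟨i, hi.symm.imp (fun H p hp q hq => H p (h₁ hp) q (h₂ hq)) fun H p hp q hq =>
          H p (h₂ hp) q (h₁ hq)⟩
      · exact absurd rfl e
  mono a := by
    obtain ⟨s, h₁, h₂, h₃, h₄⟩ := D.ok.mono a
    refine ⟨D.i, s, D.i_ne, fun p hp q hq e => ?_,
      fun t ht => D.pt_lt (D.ok.str_nb (D.K.nb m (.inl a) s) t) (h₁ t ht),
      D.pt_lt (D.ok.str_nb (.inl a) s) h₂, D.pt_lt (D.ok.str_nb (.inl a) (!s)).symm h₃,
      fun t ht => D.pt_lt (D.ok.str_nb (D.K.nb m (.inl a) (!s)) t).symm (h₄ t ht)⟩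
    have hw : D.conf.win (.inl a) ⊆ range (D.g (D.K.str m (.inl a))) :=
      union_subset (D.ok.str_nb (.inl a) false ▸ D.star_range _)
        (D.ok.str_nb (.inl a) true ▸ D.star_range _)
    obtain ⟨u, rfl⟩ := hw hp
    obtain ⟨v, rfl⟩ := hw hq
    rw [(D.mono _).injective e]
  zr _ _ _ h := absurd h (lt_irrefl (0 : ℝ))
  lb_nb _ _ _ _ := rfl
  lb_bc _ := rfl
  nodupX := D.nodupX
  nodupY := D.nodupY
  memX := D.memX
  memY := D.memY
  sortX := D.sortX
  sortY := D.sortY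
  subX := D.subX

theorem pic_eq : D.ct.pic = nn (trace D.g) := by
  ext ⟨o, p⟩
  constructor
  · rintro ⟨a, ha, ho⟩
    exact ⟨ho, mem_iUnion.2 ⟨_, D.star_range _ ha⟩⟩
  · rintro ⟨ho, hp⟩
    obtain ⟨j, t, rfl⟩ := mem_iUnion.1 hp
    obtain ⟨a, ha⟩ := D.mem_star j t
    exact ⟨a, ha, ho⟩

theorem hasContent {w : List (Sl (Nm Empty))} (hw : D.ct.word = w) :
    HasContent xcol (nn (trace D.g)) w :=
  ⟨_, inferInstance, inferInstance, D.ct, fun y _ => by rw [D.pic_eq], hw⟩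

end pcx_Data

theorem pcx_bump_nonneg (t : ℝ) : 0 ≤ S.bump t := by
  have := abs_st_le t
  rw [S.bump, st_eq, sub_nonneg, ← sq_abs]
  exact pow_le_one₀ (abs_nonneg _) this

theorem pcx_bump_le (t : ℝ) : S.bump t ≤ 1 := sub_le_self _ (sq_nonneg _)

theorem pcx_bump_pos {t : ℝ} (h₁ : -1 / 2 < t) (h₂ : t < 1 / 2) : 0 < S.bump t := by
  have a₁ := st_strictMonoOn ⟨le_rfl, by norm_num⟩ ⟨h₁.le, h₂.le⟩ h₁
  have a₂ := st_strictMonoOn ⟨h₁.le, h₂.le⟩ ⟨by norm_num, le_rfl⟩ h₂
  rw [st_of_le le_rfl] at a₁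
  rw [st_of_ge le_rfl] at a₂
  rw [S.bump, st_eq]
  nlinarith

theorem pcx_bump_sg (s : Bool) {y : ℝ} (hy : 1 / 2 ≤ y) : S.bump (pcx_sg s * y) = 0 := by
  rw [S.bump, st_eq]
  cases s
  · rw [st_of_le (by simp only [pcx_sg]; norm_num; linarith)]
    norm_num
  · rw [st_of_ge (by simpa [pcx_sg] using hy)]
    norm_num

theorem pcx_sab_sg (s : Bool) {y : ℝ} (hy : 1 / 2 ≤ y) : sab (pcx_sg s * y) = y := by
  have h : |pcx_sg s * y| = y := by
    cases s <;> simp [pcx_sg, abs_of_nonneg (by linarith : 0 ≤ y)]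
  rw [sab_of_le_abs (by rw [h]; exact hy), h]

theorem pcx_W_six (k : Fin 7) : (∀ t ∈ pcx_W 6 k, 0 < S.bump t) ∨ (∀ t ∈ pcx_W 6 k, t < 0) ∨
    ∀ t ∈ pcx_W 6 k, 0 < t := by
  obtain ⟨k, hk⟩ := k
  by_cases h₁ : k ≤ 1
  · refine Or.inr (Or.inl fun t ht => (ht.2.resolve_left (by simp only; omega)).trans_lt ?_)
    have : (k : ℝ) ≤ 1 := by exact_mod_cast h₁
    simp only [pcx_q]
    push_cast
    linarith
  by_cases h₂ : 5 ≤ k
  · refine Or.inr (Or.inr fun t ht => lt_of_lt_of_le ?_ (ht.1.resolve_left (by simp only; omega)))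
    have : (5 : ℝ) ≤ k := by exact_mod_cast h₂
    simp only [pcx_q]
    push_cast
    linarith
  have a₁ : (2 : ℝ) ≤ k := by exact_mod_cast (by omega)
  have a₂ : (k : ℝ) ≤ 4 := by exact_mod_cast (by omega)
  refine Or.inl fun t ht => pcx_bump_pos
    (lt_of_lt_of_le ?_ (ht.1.resolve_left (by simp only; omega)))
    ((ht.2.resolve_left (by simp only; omega)).trans_lt ?_) <;>
  · simp only [pcx_q]
    push_cast
    linarith

/-- the ends of the crossing -/
def pcx_kx : pcx_Sk :=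
  ⟨fun j s => (if j = s then 1 else 0, s), fun b => if b.1 = 1 then b.2 else !b.2, fun b => b.2⟩

theorem pcx_kx_ok : pcx_kx.Ok 6 := by
  constructor <;> decide +kernel

theorem pcx_sep_z (s : Bool) {U V : Set ℝ}
    (h : (∀ t ∈ U, 0 < S.bump t) ∨ ∀ t ∈ V, 0 < S.bump t) :
    Sep 2 (S.crossing (if s then 1 else -1) false '' U)
        (S.crossing (if s then 1 else -1) true '' V) ∨
      Sep 2 (S.crossing (if s then 1 else -1) true '' V)
        (S.crossing (if s then 1 else -1) false '' U) := by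
  have key : ∀ u ∈ U, ∀ v ∈ V, 0 < S.bump u + S.bump v := fun u hu v hv =>
    h.elim (fun h => add_pos_of_pos_of_nonneg (h u hu) (pcx_bump_nonneg v))
      fun h => add_pos_of_nonneg_of_pos (pcx_bump_nonneg u) (h v hv)
  cases s
  · right
    rintro _ ⟨v, hv, rfl⟩ _ ⟨u, hu, rfl⟩
    have := key u hu v hv
    simp [S.crossing]
    linarith
  · left
    rintro _ ⟨u, hu, rfl⟩ _ ⟨v, hv, rfl⟩
    have := key u hu v hv
    simp [S.crossing]
    linarith

/-- the crossing -/
noncomputable def pcx_cr (s : Bool) : pcx_Data 6 where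
  K := pcx_kx
  ok := pcx_kx_ok
  g := S.crossing (if s then 1 else -1)
  i := 1
  Xb := [(true, 0), (false, 6), (true, 2), (false, 4), (false, 2), (true, 4), (false, 0), (true, 6)]
  Yb := [(true, 1), (false, 1), (true, 3), (false, 3), (true, 5), (false, 5)]
  cont j := by
    have : Continuous S.bump := continuous_const.sub (st_contDiff.continuous.pow 2)
    cases j <;> unfold S.crossing <;> fun_prop
  ray j σ y hy := by
    ext k
    have h := pcx_bump_sg σ hy
    cases j <;> cases σ <;> fin_cases k <;>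
      simp [pcx_sg, xcol, Collar.cl, S.crossing, pcx_kx] at h ⊢ <;> simp [h]
  i_ne := by decide
  mono j := by cases j <;> exact fun _ _ h => h
  sep k k' := by
    rcases pcx_W_six k with h | h | h
    · exact ⟨2, pcx_sep_z s (Or.inl h)⟩
    all_goals rcases pcx_W_six k' with h' | h' | h'
    · exact ⟨2, pcx_sep_z s (Or.inr h')⟩
    · refine ⟨0, Or.inr ?_⟩
      rintro _ ⟨v, hv, rfl⟩ _ ⟨u, hu, rfl⟩
      have := h u hu
      have := h' v hv
      simp [S.crossing]
      linarith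
    · refine ⟨1, Or.inl ?_⟩
      rintro _ ⟨u, hu, rfl⟩ _ ⟨v, hv, rfl⟩
      exact (h u hu).trans (h' v hv)
    · exact ⟨2, pcx_sep_z s (Or.inr h')⟩
    · refine ⟨1, Or.inr ?_⟩
      rintro _ ⟨v, hv, rfl⟩ _ ⟨u, hu, rfl⟩
      exact (h' v hv).trans (h u hu)
    · refine ⟨0, Or.inl ?_⟩
      rintro _ ⟨u, hu, rfl⟩ _ ⟨v, hv, rfl⟩
      have := h u hu
      have := h' v hv
      simp [S.crossing]
      linarith
  box j t ht k := by
    obtain ⟨h₁, h₂⟩ := abs_le.1 ht
    have := pcx_bump_nonneg t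
    have := pcx_bump_le t
    cases j <;> cases s <;> fin_cases k <;> simp [S.crossing, abs_le] <;> (try constructor) <;>
      linarith
  nodupX := by decide
  nodupY := by decide
  memX := by decide
  memY := by decide
  sortX := by
    simp [S.crossing, pcx_q]
    norm_num
  sortY := by
    simp [S.crossing, pcx_q]
    norm_num
  subX := by decide

theorem hasContent_crossing (s : Bool) :
    HasContent xcol (nn (trace (S.crossing (if s then 1 else -1))))
      [⟨[], .cr Nm.no Nm.no s, []⟩] := by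
  refine (pcx_cr s).hasContent ?_
  have h : (pcx_cr s).ct.word = [⟨[], .cr Nm.no Nm.no
      (!decide ((pcx_cr s).g true (pcx_q 6 (3 : ℕ)) 2 < (pcx_cr s).g false (pcx_q 6 (2 : ℕ)) 2)),
      []⟩] := rfl
  have a₁ : 0 < S.bump (pcx_q 6 (3 : ℕ)) :=
    pcx_bump_pos (by norm_num [pcx_q]) (by norm_num [pcx_q])
  have a₂ := pcx_bump_nonneg (pcx_q 6 (2 : ℕ))
  rw [h]
  generalize pcx_q 6 (3 : ℕ) = u at a₁
  generalize pcx_q 6 (2 : ℕ) = v at a₂
  cases s
  · rw [decide_eq_true]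
    · rfl
    · simp [pcx_cr, S.crossing]
      linarith
  · rw [decide_eq_false]
    · rfl
    · simp [pcx_cr, S.crossing]
      linarith

/-- the ends of the first smoothing -/
def pcx_k₀ : pcx_Sk := ⟨fun j s => (if j then 1 else 0, s), fun b => decide (b.1 = 1), fun b => b.2⟩

/-- the ends of the second smoothing -/
def pcx_k₁ : pcx_Sk := ⟨fun j s => (if s then 1 else 0, j), fun b => b.2, fun b => decide (b.1 = 1)⟩

theorem pcx_k₀_ok : pcx_k₀.Ok 2 := by
  constructor <;> decide +kernel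

theorem pcx_k₁_ok : pcx_k₁.Ok 2 := by
  constructor <;> decide +kernel

theorem pcx_sab_half : sab (-2⁻¹) = 2⁻¹ ∧ sab (1 - 2⁻¹) = 2⁻¹ := by
  constructor <;> rw [sab_of_le_abs (by norm_num [abs_of_pos])] <;> norm_num [abs_of_pos]

/-- the first smoothing -/
noncomputable def pcx_s₀ : pcx_Data 2 where
  K := pcx_k₀
  ok := pcx_k₀_ok
  g := S.smoothing₀
  i := 1
  Xb := [(false, 0), (false, 2), (true, 0), (true, 2)]
  Yb := [(false, 1), (true, 1)]
  cont j := by
    have := sab_contDiff.continuous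
    cases j <;> unfold S.smoothing₀ <;> rw [sab_eq] <;> fun_prop
  ray j σ y hy := by
    ext k
    have h := pcx_sab_sg σ hy
    cases j <;> cases σ <;> fin_cases k <;>
      simp [pcx_sg, xcol, Collar.cl, S.smoothing₀, pcx_k₀, sab_eq] at h ⊢ <;> simp [h]
  i_ne := by decide
  mono j := by cases j <;> exact fun _ _ h => h
  sep k k' := by
    refine ⟨0, Or.inl ?_⟩
    rintro _ ⟨u, -, rfl⟩ _ ⟨v, -, rfl⟩
    have := sab_pos u
    have := sab_pos v
    simp [S.smoothing₀, sab_eq]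
    linarith
  box j t ht k := by
    obtain ⟨h₁, h₂⟩ := abs_le.1 ht
    have := sab_pos t
    have := sab_lt ht
    cases j <;> fin_cases k <;> simp [S.smoothing₀, sab_eq, abs_le] <;> (try constructor) <;>
      linarith
  nodupX := by decide
  nodupY := by decide
  memX := by decide
  memY := by decide
  sortX := by
    simp [S.smoothing₀, sab_eq, pcx_q, pcx_sab_half]
    norm_num
  sortY := by simp [S.smoothing₀]
  subX := by decide

/-- the second smoothing -/
noncomputable def pcx_s₁ : pcx_Data 2 where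
  K := pcx_k₁
  ok := pcx_k₁_ok
  g := S.smoothing₁
  i := 0
  Xb := [(false, 0), (true, 0), (false, 2), (true, 2)]
  Yb := [(false, 1), (true, 1)]
  cont j := by
    have := sab_contDiff.continuous
    cases j <;> unfold S.smoothing₁ <;> rw [sab_eq] <;> fun_prop
  ray j σ y hy := by
    ext k
    have h := pcx_sab_sg σ hy
    cases j <;> cases σ <;> fin_cases k <;>
      simp [pcx_sg, xcol, Collar.cl, S.smoothing₁, pcx_k₁, sab_eq] at h ⊢ <;> simp [h]
  i_ne := by decide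
  mono j := by
    cases j <;> intro a b h <;> simp [S.smoothing₁] <;> linarith
  sep k k' := by
    refine ⟨1, Or.inl ?_⟩
    rintro _ ⟨u, -, rfl⟩ _ ⟨v, -, rfl⟩
    have := sab_pos u
    have := sab_pos v
    simp [S.smoothing₁, sab_eq]
    linarith
  box j t ht k := by
    obtain ⟨h₁, h₂⟩ := abs_le.1 ht
    have := sab_pos t
    have := sab_lt ht
    cases j <;> fin_cases k <;> simp [S.smoothing₁, sab_eq, abs_le] <;> (try constructor) <;>
      linarith
  nodupX := by decide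
  nodupY := by decide
  memX := by decide
  memY := by decide
  sortX := by
    simp [S.smoothing₁, pcx_q]
    norm_num
  sortY := by
    have := sab_pos (pcx_q 2 1)
    simp [S.smoothing₁, sab_eq]
    linarith
  subX := by decide

theorem hasContent_smoothing₀ : HasContent xcol (nn (trace S.smoothing₀)) [] :=
  pcx_s₀.hasContent rfl

theorem hasContent_smoothing₁ : HasContent xcol (nn (trace S.smoothing₁))
    [⟨[], .cap Nm.no, []⟩, ⟨[], .cup Nm.no, []⟩] :=
  pcx_s₁.hasContent rfl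

end Pool.Agent.P.MP_ac4909_gt.B.K7
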