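import Mathlib

/-!
Smooth links in `ℝ³`, oriented links, link diagrams, and the defining properties of the HOMFLYPT
polynomial and of Kauffman's regular isotopy invariant.
-/

namespace Pool.Agent.P.MP_7f6fde_gt.S

open scoped ContDiff
open Set LaurentPolynomial

abbrev E3 : Type := EuclideanSpace ℝ (Fin 3)

/-- Laurent polynomials in `a = T 1` with coefficients Laurent polynomials in `z = C (T 1)`. -/
abbrev LL : Type := LaurentPolynomial (LaurentPolynomial ℤ)

/-- Largest minus smallest exponent of `a`. -/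
noncomputable def aSpread (Q : LL) : ℤ :=
  sSup (Q.coeff.support : Set ℤ) - sInf (Q.coeff.support : Set ℤ)

variable {κ X : Type} {n : ℕ}

/-- Disjoint smoothly embedded circles `ℝ/ℤ → ℝ³`. -/
structure IsLink (γ : Fin n → ℝ → E3) : Prop where
  smooth : ∀ c, ContDiff ℝ ∞ (γ c)
  per : ∀ c t, γ c (t + 1) = γ c t
  inj : ∀ c c' s t, γ c s = γ c' t → c = c' ∧ ∃ k : ℤ, t = s + k
  imm : ∀ c t, deriv (γ c) t ≠ 0

/-- A link diagram: the tangent is never vertical, so the projection to the `xy`-plane (seen from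
above) is an immersion. -/
def IsDiagram (γ : Fin n → ℝ → E3) : Prop :=
  IsLink γ ∧ ∀ c t, deriv (γ c) t 0 ≠ 0 ∨ deriv (γ c) t 1 ≠ 0

/-- A smooth family, all of whose members with `0 ≤ s ≤ 1` satisfy `Q`. -/
def Isotopy (Q : (Fin n → ℝ → E3) → Prop) (H : ℝ → Fin n → ℝ → E3) : Prop :=
  (∀ c, ContDiff ℝ ∞ fun p : ℝ × ℝ => H p.1 c p.2) ∧ ∀ s ∈ Icc (0 : ℝ) 1, Q (H s)

/-- The unoriented curves. -/
def trace (γ : κ → ℝ → E3) : Set E3 := ⋃ c, range (γ c)

/-- The oriented curves: points with their positive tangent vectors. -/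
def rays (γ : κ → ℝ → E3) : Set (E3 × E3) :=
  {x | ∃ c t r, 0 < r ∧ x = (γ c t, (r : ℝ) • deriv (γ c) t)}

/-- `A` over the ball of radius `2`, `O` outside. -/
def patch (π : X → E3) (O A : Set X) : Set X :=
  {x ∈ A | π x ∈ Metric.ball 0 2} ∪ {x ∈ O | π x ∉ Metric.ball 0 2}

/-- smooth odd step: `-1` for `t ≤ -1/2` and `1` for `t ≥ 1/2` -/
noncomputable def st (t : ℝ) : ℝ := 2 * Real.smoothTransition (t + 1 / 2) - 1

/-- smooth bump: `1` at `0`, positive for `|t| < 1/2`, zero elsewhere -/
noncomputable def bump (t : ℝ) : ℝ := 1 - st t ^ 2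

/-- smooth positive function equal to `|t|` for `|t| ≥ 1/2` -/
noncomputable def sab (t : ℝ) : ℝ := √(t ^ 2 + bump t / 16)

/-- Two strands that run upwards and cross: positive for `e = 1`, negative for `e = -1`. -/
noncomputable def crossing (e : ℝ) : Bool → ℝ → E3
  | true, t => !₂[t / 2, t, e * bump t / 2]
  | false, t => !₂[-t / 2, t, -e * bump t / 2]

/-- The smoothing `)(`, both strands upwards. -/
noncomputable def smoothing₀ : Bool → ℝ → E3
  | true, t => !₂[sab t / 2, t, 0]
  | false, t => !₂[-sab t / 2, t, 0]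

/-- The other smoothing. -/
noncomputable def smoothing₁ : Bool → ℝ → E3
  | true, t => !₂[t / 2, sab t, 0]
  | false, t => !₂[t / 2, -sab t, 0]

/-- A strand with a curl (double point of the projection at `t = ±1/4`): positive for `e = 1`,
negative for `e = -1`. -/
noncomputable def curl (e : ℝ) (_ : Unit) (t : ℝ) : E3 :=
  !₂[bump t / 2, t * st (16 * t ^ 2 - 1), -e * t * bump t]

/-- A straight strand. -/
noncomputable def line (_ : Unit) (t : ℝ) : E3 := !₂[0, t, 0]

/-- A round horizontal circle. -/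
noncomputable def circle (_ : Fin 1) (t : ℝ) : E3 :=
  !₂[Real.cos (2 * Real.pi * t) / 2, Real.sin (2 * Real.pi * t) / 2, 0]

/-- oriented links -/
def OLink (S : Set (E3 × E3)) : Prop := ∃ (n : ℕ) (γ : Fin n → ℝ → E3), IsLink γ ∧ S = rays γ

/-- unoriented diagrams -/
def Diagram (D : Set E3) : Prop := ∃ (n : ℕ) (γ : Fin n → ℝ → E3), IsDiagram γ ∧ D = trace γ

/-- The defining properties of the HOMFLYPT polynomial. -/
structure IsHomfly (P : Set (E3 × E3) → LL) : Prop where
  isotopy : ∀ n (H : ℝ → Fin n → ℝ → E3), Isotopy IsLink H → P (rays (H 0)) = P (rays (H 1))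
  unknot : P (rays circle) = 1
  skein : ∀ O, OLink (patch Prod.fst O (rays (crossing 1))) →
    OLink (patch Prod.fst O (rays (crossing (-1)))) →
    OLink (patch Prod.fst O (rays smoothing₀)) →
    T (-1) * P (patch Prod.fst O (rays (crossing 1))) -
        T 1 * P (patch Prod.fst O (rays (crossing (-1)))) =
      C (T 1) * P (patch Prod.fst O (rays smoothing₀))

/-- The defining properties of Kauffman's regular isotopy invariant. -/
structure IsKauffman (L : Set E3 → LL) : Prop where
  isotopy : ∀ n (H : ℝ → Fin n → ℝ → E3), Isotopy IsDiagram H →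
    L (trace (H 0)) = L (trace (H 1))
  unknot : L (trace circle) = 1
  skein : ∀ O, Diagram (patch id O (trace (crossing 1))) →
    Diagram (patch id O (trace (crossing (-1)))) → Diagram (patch id O (trace smoothing₀)) →
    Diagram (patch id O (trace smoothing₁)) →
    L (patch id O (trace (crossing 1))) + L (patch id O (trace (crossing (-1)))) =
      C (T 1) * (L (patch id O (trace smoothing₀)) + L (patch id O (trace smoothing₁)))
  curl : ∀ O, ∀ e : ℤ, e = 1 ∨ e = -1 → Diagram (patch id O (trace (curl e))) →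
    Diagram (patch id O (trace line)) →
    L (patch id O (trace (curl e))) = T e * L (patch id O (trace line))

/-- The knot is isotopic to the round circle. -/
def Trivial (K : Fin 1 → ℝ → E3) : Prop :=
  ∃ H : ℝ → Fin 1 → ℝ → E3,
    Isotopy IsLink H ∧ trace (H 0) = trace K ∧ trace (H 1) = trace circle

end Pool.Agent.P.MP_7f6fde_gt.S
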