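import Pool.Agent.P.MP_7f6fde_gt.B.Blk

/-! The local pictures agree outside the small cube; tilting. -/

namespace Pool.Agent.P.MP_ac4909_gt.B.K7

open scoped ContDiff
open Set Filter Topology
open Pool.Agent.P.MP_7f6fde_gt
open Pool.Agent.P.MP_7f6fde_gt.S (rays patch bump)

variable {κ κ' X : Type}

theorem qb_ball {p : E3} (hp : p ∈ Qb (9 / 8)) : p ∈ Metric.ball (0 : E3) 2 := by
  rw [mem_ball_zero_iff, EuclideanSpace.norm_eq, Real.sqrt_lt' two_pos, Fin.sum_univ_three]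
  have h : ∀ i, |p i| ^ 2 < (9 / 8) ^ 2 := fun i =>
    pow_lt_pow_left₀ (hp i) (abs_nonneg _) two_ne_zero
  simp only [Real.norm_eq_abs]
  linarith [h 0, h 1, h 2]

theorem patch_in {π : X → E3} {O A : Set X} {x : X} (h : π x ∈ Metric.ball (0 : E3) 2) :
    x ∈ patch π O A ↔ x ∈ A :=
  ⟨fun e => e.elim And.left fun e => absurd h e.2, fun e => Or.inl ⟨e, h⟩⟩

theorem patch_out {π : X → E3} {O A : Set X} {x : X} (h : π x ∉ Metric.ball (0 : E3) 2) :
    x ∈ patch π O A ↔ x ∈ O :=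
  ⟨fun e => e.elim (fun e => absurd e.2 h) And.left, fun e => Or.inr ⟨e, h⟩⟩

theorem patch_congr {π : X → E3} {O A A' : Set X} {x : X} (h : x ∈ A ↔ x ∈ A') :
    x ∈ patch π O A ↔ x ∈ patch π O A' := by
  by_cases hx : π x ∈ Metric.ball (0 : E3) 2
  · rw [patch_in hx, patch_in hx, h]
  · rw [patch_out hx, patch_out hx]

theorem bump_zero {t : ℝ} (h : 1 / 2 ≤ |t|) : bump t = 0 := by
  rw [bump, st_eq]
  rcases le_abs.1 h with h | h
  · rw [st_of_ge h]; norm_num
  · rw [st_of_le (by linarith)]; norm_num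

theorem bump_mem (t : ℝ) : 0 ≤ bump t ∧ bump t ≤ 1 := by
  rw [bump, st_eq]
  have := abs_le.1 (abs_st_le t)
  constructor <;> nlinarith

theorem bump_smooth : ContDiff ℝ ∞ bump := contDiff_const.sub (st_contDiff.pow 2)

theorem ev_abs {t : ℝ} (h : 1 / 2 < |t|) : ∀ᶠ u in 𝓝 t, 1 / 2 < |u| :=
  (isOpen_lt continuous_const continuous_abs).mem_nhds h

/-- outside the small cube the curves `g` run along the curves `g'` -/
def Along (g : κ → ℝ → E3) (g' : κ' → ℝ → E3) : Prop :=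
  ∀ j t, g j t ∈ shell → ∃ j', g j =ᶠ[𝓝 t] g' j'

theorem Along.rays {g : κ → ℝ → E3} {g' : κ' → ℝ → E3} (h : Along g g') {x : E3 × E3}
    (hx : x.1 ∈ shell) (hg : x ∈ rays g) : x ∈ rays g' := by
  obtain ⟨j, t, r, hr, rfl⟩ := hg
  obtain ⟨j', e⟩ := h j t hx
  exact ⟨j', t, r, hr, by rw [e.deriv_eq, e.eq_of_nhds]⟩

theorem shell_of {g : ℝ → E3} {t : ℝ} (h : |t| ≤ 1 / 2 → ∀ i, |g t i| ≤ 3 / 4)
    (hs : g t ∈ shell) : 1 / 2 < |t| := by
  by_contra h'
  obtain ⟨i, hi⟩ := hs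
  exact hi.not_ge (h (not_lt.1 h') i)

theorem crossing_shell {e : ℝ} (he : |e| ≤ 1) {j : Bool} {t : ℝ} (h : S.crossing e j t ∈ shell) :
    1 / 2 < |t| := by
  refine shell_of (g := S.crossing e j) (fun ht i => ?_) h
  obtain ⟨h₁, h₂⟩ := abs_le.1 ht
  obtain ⟨h₃, h₄⟩ := abs_le.1 he
  obtain ⟨h₅, h₆⟩ := bump_mem t
  cases j <;> fin_cases i <;> simp [S.crossing, abs_le] <;> constructor <;> nlinarith

theorem smoothing₀_shell {j : Bool} {t : ℝ} (h : S.smoothing₀ j t ∈ shell) : 1 / 2 < |t| := by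
  refine shell_of (g := S.smoothing₀ j) (fun ht i => ?_) h
  obtain ⟨h₁, h₂⟩ := abs_le.1 ht
  have := sab_pos t
  have := sab_lt ht
  cases j <;> fin_cases i <;> simp [S.smoothing₀, sab_eq, abs_le] <;>
    (try constructor) <;> linarith

theorem smoothing₁_shell {j : Bool} {t : ℝ} (h : S.smoothing₁ j t ∈ shell) : 1 / 2 < |t| := by
  refine shell_of (g := S.smoothing₁ j) (fun ht i => ?_) h
  obtain ⟨h₁, h₂⟩ := abs_le.1 ht
  have := sab_pos t
  have := sab_lt ht
  cases j <;> fin_cases i <;> simp [S.smoothing₁, sab_eq, abs_le] <;>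
    (try constructor) <;> linarith

theorem crossing_eq (e e' : ℝ) (j : Bool) {t : ℝ} (h : 1 / 2 < |t|) :
    S.crossing e j t = S.crossing e' j t := by
  cases j <;> simp only [S.crossing, bump_zero h.le, mul_zero]

theorem along_cc {e : ℝ} (he : |e| ≤ 1) (e' : ℝ) : Along (S.crossing e) (S.crossing e') :=
  fun j _ h => ⟨j, (ev_abs (crossing_shell he h)).mono fun _ hu => crossing_eq e e' j hu⟩

theorem cs_pos (e : ℝ) (j : Bool) {t : ℝ} (h : 1 / 2 < t) :
    S.crossing e j =ᶠ[𝓝 t] S.smoothing₀ j := by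
  filter_upwards [Ioi_mem_nhds h] with u hu
  have h₁ : 1 / 2 ≤ |u| := le_abs.2 (Or.inl (le_of_lt hu))
  have h₂ : |u| = u := abs_of_pos (lt_trans (by norm_num) hu)
  cases j <;> simp [S.crossing, S.smoothing₀, bump_zero h₁, sab_eq, sab_of_le_abs h₁, h₂]

theorem cs_neg (e : ℝ) (j : Bool) {t : ℝ} (h : t < -1 / 2) :
    S.crossing e j =ᶠ[𝓝 t] S.smoothing₀ (!j) := by
  filter_upwards [Iio_mem_nhds h] with u hu
  have hu : u < -1 / 2 := hu
  have h₁ : 1 / 2 ≤ |u| := le_abs.2 (Or.inr (by linarith))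
  have h₂ : |u| = -u := abs_of_neg (by linarith)
  cases j <;> simp [S.crossing, S.smoothing₀, bump_zero h₁, sab_eq, sab_of_le_abs h₁, h₂]

theorem along_cs {e : ℝ} (he : |e| ≤ 1) : Along (S.crossing e) S.smoothing₀ := fun j t h => by
  rcases lt_abs.1 (crossing_shell he h) with h | h
  · exact ⟨j, cs_pos e j h⟩
  · exact ⟨!j, cs_neg e j (by linarith)⟩

theorem along_sc (e : ℝ) : Along S.smoothing₀ (S.crossing e) := fun j t h => by
  rcases lt_abs.1 (smoothing₀_shell h) with h | h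
  · exact ⟨j, (cs_pos e j h).symm⟩
  · have := cs_neg e (!j) (t := t) (by linarith)
    rw [Bool.not_not] at this
    exact ⟨!j, this.symm⟩

theorem Along.trace {g : κ → ℝ → E3} {g' : κ' → ℝ → E3} (h : Along g g') {p : E3}
    (hp : p ∈ shell) (hg : p ∈ trace g) : p ∈ trace g' := by
  obtain ⟨v, hv⟩ := mem_trace.1 hg
  exact mem_trace.2 ⟨v, h.rays hp hv⟩

theorem trace_s₁ {e : ℝ} (he : |e| ≤ 1) {p : E3} (hp : p ∈ shell) :
    p ∈ trace S.smoothing₁ ↔ p ∈ trace (S.crossing e) := by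
  simp only [trace, mem_iUnion, mem_range]
  constructor
  · rintro ⟨j, t, rfl⟩
    have h := (smoothing₁_shell hp).le
    have h' : 1 / 2 ≤ |-t| := by rwa [abs_neg]
    rcases le_total 0 t with h0 | h0 <;> cases j
    · exact ⟨false, -t, by simp [S.crossing, S.smoothing₁, bump_zero h', sab_eq, sab_of_le_abs h,
        abs_of_nonneg h0]⟩
    · exact ⟨true, t, by simp [S.crossing, S.smoothing₁, bump_zero h, sab_eq, sab_of_le_abs h,
        abs_of_nonneg h0]⟩
    · exact ⟨true, t, by simp [S.crossing, S.smoothing₁, bump_zero h, sab_eq, sab_of_le_abs h,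
        abs_of_nonpos h0]⟩
    · exact ⟨false, -t, by simp [S.crossing, S.smoothing₁, bump_zero h', sab_eq, sab_of_le_abs h,
        abs_of_nonpos h0]⟩
  · rintro ⟨j, t, rfl⟩
    have h := (crossing_shell he hp).le
    have h' : 1 / 2 ≤ |-t| := by rwa [abs_neg]
    rcases le_total 0 t with h0 | h0 <;> cases j
    · exact ⟨true, -t, by simp [S.crossing, S.smoothing₁, bump_zero h, sab_eq, sab_of_le_abs h',
        abs_of_nonneg h0]⟩
    · exact ⟨true, t, by simp [S.crossing, S.smoothing₁, bump_zero h, sab_eq, sab_of_le_abs h,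
        abs_of_nonneg h0]⟩
    · exact ⟨false, -t, by simp [S.crossing, S.smoothing₁, bump_zero h, sab_eq, sab_of_le_abs h',
        abs_of_nonpos h0]⟩
    · exact ⟨false, t, by simp [S.crossing, S.smoothing₁, bump_zero h, sab_eq, sab_of_le_abs h,
        abs_of_nonpos h0]⟩

theorem curl_eq (e : ℝ) {t : ℝ} (h : 1 / 2 ≤ |t|) : S.curl e () t = S.line () t := by
  have h₁ : st (16 * t ^ 2 - 1) = 1 := st_of_ge (by nlinarith [sq_abs t, abs_nonneg t])
  simp [S.curl, S.line, bump_zero h, st_eq, h₁]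

theorem trace_curl {e : ℝ} (he : |e| ≤ 1) {p : E3} (hp : p ∈ shell) :
    p ∈ trace (S.curl e) ↔ p ∈ trace S.line := by
  simp only [trace, mem_iUnion, mem_range]
  constructor
  · rintro ⟨j, t, rfl⟩
    refine ⟨(), t, (curl_eq e (shell_of (g := S.curl e ()) (fun ht i => ?_) hp).le).symm⟩
    obtain ⟨h₅, h₆⟩ := bump_mem t
    fin_cases i
    · change |bump t / 2| ≤ 3 / 4
      rw [abs_le]; constructor <;> linarith
    · change |t * st (16 * t ^ 2 - 1)| ≤ 3 / 4
      rw [abs_mul]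
      nlinarith [abs_st_le (16 * t ^ 2 - 1), abs_nonneg t, abs_nonneg (st (16 * t ^ 2 - 1))]
    · change |-e * t * bump t| ≤ 3 / 4
      rw [abs_mul, abs_mul, abs_neg, abs_of_nonneg h₅]
      have := mul_le_mul he ht (abs_nonneg _) zero_le_one
      nlinarith [mul_nonneg (abs_nonneg e) (abs_nonneg t)]
  · rintro ⟨j, t, rfl⟩
    refine ⟨(), t, curl_eq e (shell_of (g := S.line ()) (fun ht i => ?_) hp).le⟩
    obtain ⟨h₁, h₂⟩ := abs_le.1 ht
    fin_cases i <;> simp [S.line, abs_le] <;> (try constructor) <;> linarith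

/-- curves that run upwards -/
theorem up_of {g : κ → ℝ → E3} (hd : ∀ j, Differentiable ℝ (g j)) (h1 : ∀ j t, g j t 1 = t)
    {x : E3 × E3} (hx : x ∈ rays g) : 0 < x.2 1 := by
  obtain ⟨j, t, r, hr, rfl⟩ := hx
  have e : HasDerivAt (fun u => g j u 1) (deriv (g j) t 1) t :=
    (EuclideanSpace.proj 1 : E3 →L[ℝ] ℝ).hasFDerivAt.comp_hasDerivAt t (hd j t).hasDerivAt
  simp only [h1] at e
  change 0 < r * deriv (g j) t 1
  rw [e.unique (hasDerivAt_id' t), mul_one]
  exact hr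

theorem up_crossing (e : ℝ) {x : E3 × E3} (hx : x ∈ rays (S.crossing e)) : 0 < x.2 1 := by
  have := bump_smooth.differentiable (by simp)
  refine up_of (fun j => differentiable_euclidean.2 fun i => ?_) (fun j t => ?_) hx
  · cases j <;> fin_cases i <;> simp [S.crossing] <;> fun_prop
  · cases j <;> rfl

theorem up_smoothing₀ {x : E3 × E3} (hx : x ∈ rays S.smoothing₀) : 0 < x.2 1 := by
  have := sab_contDiff.differentiable (by simp)
  refine up_of (fun j => differentiable_euclidean.2 fun i => ?_) (fun j t => ?_) hx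
  · cases j <;> fin_cases i <;> simp [S.smoothing₀, sab_eq] <;> fun_prop
  · cases j <;> rfl

end Pool.Agent.P.MP_ac4909_gt.B.K7
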