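import Pool.Agent.P.MP_7f6fde_gt.B.Shell
import Pool.Agent.P.MP_7f6fde_gt.B.PicX
import Pool.Agent.P.MP_7f6fde_gt.B.PicC

/-! The skein relations of smooth links. -/

namespace Pool.Agent.P.MP_ac4909_gt.B.K7

open scoped ContDiff
open Set Filter Topology LaurentPolynomial
open Pool.Agent.P.MP_7f6fde_gt (IsHomfly IsKauffman LL)
open Pool.Agent.P.MP_7f6fde_gt.S (rays patch)

variable {κ κ' κ₀ : Type} {γ : κ → ℝ → E3} {γ' : κ' → ℝ → E3}

theorem exists_tilt' [Fintype κ] (hγ : IsU γ)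
    (hv : ∀ c t, γ c t ∈ Qb 1 → deriv (γ c) t 0 ≠ 0 ∨ deriv (γ c) t 1 ≠ 0) :
    ∃ u : E3 → E3, ContDiff ℝ ∞ u ∧ (∀ p, ‖fderiv ℝ u p‖ ≤ 1 / 2) ∧
      (∀ p ∈ Qb (15 / 16), u p = 0) ∧ NonVert fun c t => γ c t + u (γ c t) := by
  obtain ⟨φ, C, hφ, hC, hb, h0, h1⟩ := gtilt_height
  have hc : ∀ i, ContDiff ℝ 1 fun p : E3 => p i := fun i =>
    (EuclideanSpace.proj i : E3 →L[ℝ] ℝ).contDiff
  have hd : ∀ c, ContDiff ℝ 1 (deriv (γ c)) := fun c =>
    (contDiff_infty_iff_deriv.1 (hγ.smooth c)).2.of_le (by simp)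
  have hl : ∀ c, ContDiff ℝ 1 (deriv fun t => φ (γ c t)) := fun c =>
    (contDiff_infty_iff_deriv.1 (hφ.comp (hγ.smooth c))).2.of_le (by simp)
  obtain ⟨a, b, ha, hb', hab⟩ := gtilt_avoid (x := fun c t => deriv (γ c) t 0)
    (y := fun c t => deriv (γ c) t 1) (l := fun c => deriv fun t => φ (γ c t))
    (fun c => (hc 0).comp (hd c)) (fun c => (hc 1).comp (hd c)) hl
    (δ := 1 / (4 * C)) (by positivity)
  let w : E3 := !₂[a, b, 0]
  have hw : ‖w‖ ≤ 1 / (2 * C) := by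
    rw [EuclideanSpace.norm_eq, Real.sqrt_le_iff, Fin.sum_univ_three]
    refine ⟨by positivity, ?_⟩
    have e : 1 / (2 * C) = 2 * (1 / (4 * C)) := by field_simp; norm_num
    simp only [w, Real.norm_eq_abs, Matrix.cons_val_zero, Matrix.cons_val_one, Matrix.cons_val,
      abs_zero]
    rw [e]
    nlinarith [abs_nonneg a, abs_nonneg b]
  have hφd := hφ.differentiable (by simp)
  have hγd := fun c => (hγ.smooth c).differentiable (by simp)
  refine ⟨fun p => φ p • w, hφ.smul contDiff_const, fun p => ?_,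
    fun p hp => by simp only [h0 p hp, zero_smul], fun c t => ?_⟩
  · rw [((hφd p).hasFDerivAt.smul_const w).fderiv, ContinuousLinearMap.norm_smulRight_apply]
    calc ‖fderiv ℝ φ p‖ * ‖w‖ ≤ C * (1 / (2 * C)) :=
          mul_le_mul (hb p) hw (norm_nonneg _) hC.le
      _ = 1 / 2 := by field_simp
  · have hφγ : DifferentiableAt ℝ (fun t => φ (γ c t)) t := (hφd _).comp t (hγd c t)
    have e : deriv (fun t => γ c t + φ (γ c t) • w) t =
        deriv (γ c) t + deriv (fun t => φ (γ c t)) t • w :=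
      ((hγd c t).hasDerivAt.add (hφγ.hasDerivAt.smul_const w)).deriv
    have e2 : deriv (fun t => φ (γ c t)) t = fderiv ℝ φ (γ c t) (deriv (γ c) t) :=
      ((hφd _).hasFDerivAt.comp_hasDerivAt t (hγd c t).hasDerivAt).deriv
    rw [e]
    simp only [w, PiLp.add_apply, PiLp.smul_apply, smul_eq_mul, Matrix.cons_val_zero,
      Matrix.cons_val_one]
    by_cases hl0 : deriv (fun t => φ (γ c t)) t = 0
    · rw [hl0, zero_mul, zero_mul, add_zero, add_zero]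
      by_cases hq : γ c t ∈ Qb 1
      · exact hv c t hq
      · rw [e2, h1 _ hq] at hl0
        by_contra h
        rw [not_or, not_not, not_not] at h
        refine hγ.imm c t ?_
        ext i
        fin_cases i
        · exact h.1
        · exact h.2
        · exact hl0
    · exact hab c t hl0

theorem deriv_push {k : E3 → E3} (hk : ContDiff ℝ ∞ k) (hγ : IsU γ) (c : κ) (t : ℝ) :
    deriv (fun t => k (γ c t)) t = fderiv ℝ k (γ c t) (deriv (γ c) t) :=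
  ((hk.differentiable (by simp) _).hasFDerivAt.comp_hasDerivAt t
    ((hγ.smooth c).differentiable (by simp) t).hasDerivAt).deriv

theorem isU_push {k : E3 → E3} (hk : GAmb k) (hγ : IsU γ) : IsU fun c t => k (γ c t) :=
  ⟨fun c => hk.smooth.comp (hγ.smooth c), fun c t => by simp only [hγ.per],
    fun c c' s t h => hγ.inj c c' s t (hk.inj h), fun c t h => hγ.imm c t
      (injective_of_det_ne (hk.det_ne (γ c t)) (by rw [← deriv_push hk.smooth hγ, h, map_zero]))⟩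

theorem rays_push {k : E3 → E3} (hk : ContDiff ℝ ∞ k) (hγ : IsU γ) {x : E3 × E3} :
    x ∈ rays (fun c t => k (γ c t)) ↔ ∃ y ∈ rays γ, x = (k y.1, fderiv ℝ k y.1 y.2) := by
  constructor
  · rintro ⟨c, t, r, hr, rfl⟩
    exact ⟨_, ⟨c, t, r, hr, rfl⟩, by rw [deriv_push hk hγ, map_smul]⟩
  · rintro ⟨_, ⟨c, t, r, hr, rfl⟩, rfl⟩
    exact ⟨c, t, r, hr, by rw [deriv_push hk hγ, map_smul]⟩

theorem pv_tilt [Fintype κ] {P : List (MP_7f6fde_gt.Sl Bool) → LL} (hP : IsHomfly P) (hγ : IsU γ)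
    {u : E3 → E3} (hu : ContDiff ℝ ∞ u) (hb : ∀ p, ‖fderiv ℝ u p‖ ≤ 1 / 2) :
    pv P (rays γ) = pv P (rays fun c t => γ c t + u (γ c t)) := by
  have h := pv_iso hP (H := fun s c t => γ c t + s • u (γ c t)) (fun c =>
    ((hγ.smooth c).comp contDiff_snd).add
      (contDiff_fst.smul (hu.comp ((hγ.smooth c).comp contDiff_snd)))) fun s hs =>
    isU_push (gamb_small (u := fun p => s • u p) (hu.const_smul s) fun p => by
      rw [fderiv_fun_const_smul (hu.differentiable (by simp) p), norm_smul,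
        Real.norm_of_nonneg hs.1]
      exact (mul_le_of_le_one_left (norm_nonneg _) hs.2).trans (hb p)).1 hγ
  simpa only [zero_smul, add_zero, one_smul] using h

theorem not_shell {p : E3} (h : p ∉ shell) {r : ℝ} (hr : 3 / 4 < r) : p ∈ Qb r := by
  by_contra h'
  exact h (mem_shell hr h')

section Push

variable {k : E3 → E3} (hk : GAmb k) (h0 : ∀ p ∈ Qb (15 / 16), k p = p)
include hk h0

theorem push_in (hγ : IsU γ) {x : E3 × E3} (hx : x.1 ∈ Qb (15 / 16)) :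
    x ∈ rays (fun c t => k (γ c t)) ↔ x ∈ rays γ := by
  have hd : ∀ p ∈ Qb (15 / 16), ∀ v, fderiv ℝ k p v = v := fun p hp v => by
    have : k =ᶠ[𝓝 p] id := (eventually_of_mem ((isOpen_Qb _).mem_nhds hp) h0)
    rw [this.fderiv_eq, fderiv_id]
    rfl
  rw [rays_push hk.smooth hγ]
  constructor
  · rintro ⟨y, hy, rfl⟩
    have e : k y.1 = y.1 := hk.inj (h0 _ hx)
    rw [e] at hx
    rwa [e, hd _ hx]
  · exact fun h => ⟨x, h, by rw [h0 _ hx, hd _ hx]⟩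

theorem push_shell (hγ : IsU γ) (hγ' : IsU γ')
    (h : ∀ x : E3 × E3, x.1 ∈ shell → x ∈ rays γ' → x ∈ rays γ) {x : E3 × E3} (hx : x.1 ∈ shell)
    (hm : x ∈ rays fun c t => k (γ' c t)) : x ∈ rays fun c t => k (γ c t) := by
  obtain ⟨y, hy, rfl⟩ := (rays_push hk.smooth hγ').1 hm
  refine (rays_push hk.smooth hγ).2 ⟨y, h y ?_ hy, rfl⟩
  by_contra hs
  rw [h0 _ (not_shell hs (by norm_num))] at hx
  exact hs hx

end Push

theorem shadow_cr {β : Type} {u : List (Sl β)} {s : Bool}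
    (h : u.map (Sl.map fun _ => (Nm.no : Nm Empty)) = [⟨[], .cr Nm.no Nm.no s, []⟩]) :
    ∃ x y, u = [⟨[], .cr x y s, []⟩] := by
  obtain ⟨⟨l, g, r⟩, rfl, h₀⟩ := List.map_eq_singleton_iff.1 h
  have hl : l.map (fun _ => (Nm.no : Nm Empty)) = [] := (congrArg Sl.l h₀ :)
  have hr : r.map (fun _ => (Nm.no : Nm Empty)) = [] := (congrArg Sl.r h₀ :)
  obtain rfl := List.map_eq_nil_iff.1 hl
  obtain rfl := List.map_eq_nil_iff.1 hr
  replace h : g.map (fun _ => Nm.no) = .cr Nm.no Nm.no s := (congrArg Sl.g h₀ :)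
  cases g with
  | cup o => cases h
  | cap o => cases h
  | cr x y b =>
    simp only [Gen.map, Gen.cr.injEq, true_and] at h
    exact ⟨x, y, by rw [h]⟩

theorem run_rest {β : Type} [Rev β] {W₁ W₂ : List (Sl β)} {ρ : List β} (h₁ : Run [] W₁ ρ)
    (h : Run [] (W₁ ++ W₂) []) : Run ρ W₂ [] := by
  obtain ⟨σ, a, b⟩ := run_append.1 h
  rwa [h₁.unique a]

theorem pv_word {P : List (MP_7f6fde_gt.Sl Bool) → LL} (hP : IsHomfly P) [Fintype κ] (hγ : IsU γ)
    {v : List (Sl (Arc κ))} (hw : HasWord true γ v) {W : List (Sl Bool)}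
    (e : v.map (Sl.map Arc.up) = W) : pv P (rays γ) = P (W.map (tr id)) := by
  rw [pv_spec hP hγ hw.weaken, ← e, tr_map]
  rfl

theorem pv_skein {P : List (MP_7f6fde_gt.Sl Bool) → LL} (hP : IsHomfly P) [Fintype κ] [Fintype κ']
    [Fintype κ₀] {γ₀ : κ₀ → ℝ → E3} (hγ : IsU γ) (hγ' : IsU γ') (hγ₀ : IsU γ₀) {O : Set (E3 × E3)}
    (h : patch Prod.fst O (rays (MP_7f6fde_gt.S.crossing 1)) = rays γ)
    (h' : patch Prod.fst O (rays (MP_7f6fde_gt.S.crossing (-1))) = rays γ')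
    (h₀ : patch Prod.fst O (rays MP_7f6fde_gt.S.smoothing₀) = rays γ₀) :
    T (-1) * pv P (rays γ) - T 1 * pv P (rays γ') = C (T 1) * pv P (rays γ₀) := by
  have hq : ∀ {r : ℝ}, r ≤ 9 / 8 → ∀ p ∈ Qb r, p ∈ Metric.ball (0 : E3) 2 := fun hr p hp =>
    qb_ball (ggeq_Qb hr hp)
  obtain ⟨u, hu, hb, hz, hv⟩ := exists_tilt' hγ fun c t hc => Or.inr (up_crossing 1
    ((patch_in (π := Prod.fst) (hq (by norm_num) _ hc)).1 (h ▸ mem_rays γ c t))).ne'
  have hk := (gamb_small hu hb).1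
  have hk0 : ∀ p ∈ Qb (15 / 16), p + u p = p := fun p hp => by rw [hz p hp, add_zero]
  have hin : ∀ {κ₁ κ₂ : Type} {γ₁ : κ₁ → ℝ → E3} {g : κ₂ → ℝ → E3}, IsU γ₁ →
      patch Prod.fst O (rays g) = rays γ₁ → ∀ x : E3 × E3, x.1 ∈ Qb (7 / 8) →
      (x ∈ rays (fun c t => γ₁ c t + u (γ₁ c t)) ↔ x ∈ rays g) := fun hγ₁ e x hx => by
    rw [push_in hk hk0 hγ₁ (ggeq_Qb (by norm_num) hx), ← e, patch_in (hq (by norm_num) _ hx)]
  have hin' : ∀ {κ₁ κ₂ : Type} {γ₁ : κ₁ → ℝ → E3} {g : κ₂ → ℝ → E3}, IsU γ₁ →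
      patch Prod.fst O (rays g) = rays γ₁ → ∀ p ∈ Qb (7 / 8),
      (p ∈ trace (fun c t => γ₁ c t + u (γ₁ c t)) ↔ p ∈ trace g) := fun hγ₁ e p hp => by
    rw [mem_trace, mem_trace]
    exact exists_congr fun v => hin hγ₁ e (p, v) hp
  have hout : ∀ {κ₁ κ₂ : Type} {γ₁ : κ₁ → ℝ → E3} {g : κ₂ → ℝ → E3}, IsU γ₁ →
      patch Prod.fst O (rays g) = rays γ₁ → Along g (MP_7f6fde_gt.S.crossing 1) →
      Along (MP_7f6fde_gt.S.crossing 1) g → ∀ x : E3 × E3, x.1 ∈ shell →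
      (x ∈ rays (fun c t => γ₁ c t + u (γ₁ c t)) ↔ x ∈ rays fun c t => γ c t + u (γ c t)) :=
    fun hγ₁ e a b x hx => by
      have key : ∀ y : E3 × E3, y.1 ∈ shell → (y ∈ rays _ ↔ y ∈ rays γ) := fun y hy => by
        rw [← e, ← h]
        exact patch_congr ⟨a.rays hy, b.rays hy⟩
      exact ⟨push_shell hk hk0 hγ hγ₁ (fun y hy => (key y hy).1) hx,
        push_shell hk hk0 hγ₁ hγ (fun y hy => (key y hy).2) hx⟩
  have c₁ := hasContent_crossing true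
  have c₂ := hasContent_crossing false
  simp only [if_true, Bool.false_eq_true, if_false] at c₁ c₂
  obtain ⟨W₁, W₂, l, r, hr, H⟩ := block_or (isU_push hk hγ) hv (hin' hγ h) c₁
    fun x hx hm => (up_crossing 1 ((hin hγ h x hm).1 hx)).le
  obtain ⟨v, w, hw, e, s⟩ := H κ _ _ _ (isU_push hk hγ) (fun _ _ => Iff.rfl) (hin' hγ h) c₁
  obtain ⟨v', w', hw', e', s'⟩ := H κ' _ _ _ (isU_push hk hγ')
    (hout hγ' h' (along_cc (by norm_num) _) (along_cc (by norm_num) _)) (hin' hγ' h') c₂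
  obtain ⟨v₀, w₀, hw₀, e₀, s₀⟩ := H κ₀ _ _ _ (isU_push hk hγ₀)
    (hout hγ₀ h₀ (along_sc _) (along_cs (by norm_num))) (hin' hγ₀ h₀) hasContent_smoothing₀
  obtain ⟨x, y, rfl⟩ := shadow_cr s
  obtain ⟨x', y', rfl⟩ := shadow_cr s'
  obtain rfl := List.map_eq_nil_iff.1 s₀
  have r₀ := (hw₀.run (isU_push hk hγ₀)).map Arc.up rev_up
  rw [e₀] at r₀
  simp only [List.map_nil, List.append_nil] at r₀
  have key := homfly_skein hP (x := true) hr (run_rest hr r₀)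
  rw [pv_tilt hP hγ hu hb, pv_tilt hP hγ' hu hb, pv_tilt hP hγ₀ hu hb,
    pv_word hP (isU_push hk hγ) hw e, pv_word hP (isU_push hk hγ') hw' e',
    pv_word hP (isU_push hk hγ₀) hw₀ e₀]
  simpa [tr, pad] using key

section Un

variable {L : List (MP_7f6fde_gt.Sl Unit) → LL} {O : Set E3}

theorem un_in {A : Set E3} (h : patch id O A = trace γ) (p : E3) (hp : p ∈ Qb (7 / 8)) :
    p ∈ trace γ ↔ p ∈ A := by
  rw [← h, patch_in (qb_ball (ggeq_Qb (by norm_num) hp))]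

theorem un_out {A A' : Set E3} (h : patch id O A = trace γ) (h' : patch id O A' = trace γ')
    (e : ∀ p ∈ shell, p ∈ A' ↔ p ∈ A) (p : E3) (hp : p ∉ Qb (7 / 8)) :
    p ∈ trace γ' ↔ p ∈ trace γ := by
  rw [← h, ← h']
  exact patch_congr (e p (mem_shell (by norm_num) hp))

theorem lv_word [Fintype κ] (hL : IsKauffman L) (hγ : IsU γ) (hv : NonVert γ)
    {v : List (Sl (Arc κ))} (hw : HasWord true γ v) {W : List (Sl Unit)}
    (e : v.map (Sl.map fun _ => ()) = W) : lv L (trace γ) = L (W.map (tr id)) := by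
  rw [lv_spec hL hγ hv hw, ← e, tr_map]

theorem lv_skein (hL : IsKauffman L) [Fintype κ] [Fintype κ'] [Fintype κ₀] {κ₁ : Type}
    [Fintype κ₁] {γ₀ : κ₀ → ℝ → E3} {γ₁ : κ₁ → ℝ → E3} (hγ : IsU γ) (hv : NonVert γ)
    (hγ' : IsU γ') (hv' : NonVert γ') (hγ₀ : IsU γ₀) (hv₀ : NonVert γ₀) (hγ₁ : IsU γ₁)
    (hv₁ : NonVert γ₁) (h : patch id O (trace (MP_7f6fde_gt.S.crossing 1)) = trace γ)
    (h' : patch id O (trace (MP_7f6fde_gt.S.crossing (-1))) = trace γ')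
    (h₀ : patch id O (trace MP_7f6fde_gt.S.smoothing₀) = trace γ₀)
    (h₁ : patch id O (trace MP_7f6fde_gt.S.smoothing₁) = trace γ₁) :
    lv L (trace γ) + lv L (trace γ') = C (T 1) * (lv L (trace γ₀) + lv L (trace γ₁)) := by
  have c₁ := hasContent_crossing true
  have c₂ := hasContent_crossing false
  simp only [if_true, Bool.false_eq_true, if_false] at c₁ c₂
  obtain ⟨W₁, W₂, l, r, hr, H⟩ := block_un hγ hv (un_in h) c₁
  obtain ⟨v, hw, e⟩ := H κ _ _ _ hγ (fun _ _ => Iff.rfl) (un_in h) c₁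
  obtain ⟨v', hw', e'⟩ := H κ' _ _ _ hγ' (un_out h h' fun p hp =>
    ⟨(along_cc (by norm_num) _).trace hp, (along_cc (by norm_num) _).trace hp⟩) (un_in h') c₂
  obtain ⟨v₀, hw₀, e₀⟩ := H κ₀ _ _ _ hγ₀ (un_out h h₀ fun p hp =>
    ⟨(along_sc _).trace hp, (along_cs (by norm_num)).trace hp⟩) (un_in h₀) hasContent_smoothing₀
  obtain ⟨v₁, hw₁, e₁⟩ := H κ₁ _ _ _ hγ₁ (un_out h h₁ fun p hp => trace_s₁ (by norm_num) hp)
    (un_in h₁) hasContent_smoothing₁
  have r₀ := (hw₀.run hγ₀).map (fun _ => ()) fun _ => rfl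
  rw [e₀] at r₀
  simp only [List.map_nil, List.append_nil] at r₀
  have key := kauffman_skein hL hr (run_rest hr r₀)
  rw [lv_word hL hγ hv hw e, lv_word hL hγ' hv' hw' e', lv_word hL hγ₀ hv₀ hw₀ e₀,
    lv_word hL hγ₁ hv₁ hw₁ e₁]
  simpa [tr, pad, Sl.map, Gen.map] using key

theorem lv_curl (hL : IsKauffman L) [Fintype κ] [Fintype κ₀] {γ₀ : κ₀ → ℝ → E3} (hγ : IsU γ)
    (hv : NonVert γ) (hγ₀ : IsU γ₀) (hv₀ : NonVert γ₀) (s : Bool)
    (h : patch id O (trace (MP_7f6fde_gt.S.curl (if s then -1 else 1))) = trace γ)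
    (h₀ : patch id O (trace MP_7f6fde_gt.S.line) = trace γ₀) :
    lv L (trace γ) = T (if s then -1 else 1) * lv L (trace γ₀) := by
  obtain ⟨W₁, W₂, l, r, hr, H⟩ := block_un hγ₀ hv₀ (un_in h₀) hasContent_line
  obtain ⟨v₀, hw₀, e₀⟩ := H κ₀ _ _ _ hγ₀ (fun _ _ => Iff.rfl) (un_in h₀) hasContent_line
  obtain ⟨v, hw, e⟩ := H κ _ _ _ hγ (un_out h₀ h fun p hp => trace_curl (by
    cases s <;> simp) hp) (un_in h) (hasContent_curl s)
  have r₀ := (hw₀.run hγ₀).map (fun _ => ()) fun _ => rfl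
  rw [e₀] at r₀
  simp only [List.map_nil, List.append_nil] at r₀
  have key := kauffman_curl hL hr (run_rest hr r₀) s
  rw [lv_word hL hγ hv hw e, lv_word hL hγ₀ hv₀ hw₀ e₀]
  simpa [tr, pad, Sl.map, Gen.map] using key

end Un

end Pool.Agent.P.MP_ac4909_gt.B.K7
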