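import Pool.Agent.P.MP_7f6fde_gt.B.Base
import Pool.Agent.P.MP_ac4909_gt.B.WEqv

/-! The invariants of words with positions are invariants of words with side strands. -/

namespace Pool.Agent.P.MP_ac4909_gt.B.K7

open LaurentPolynomial
open Pool.Agent.P.MP_7f6fde_gt (step Closed IsHomfly IsKauffman LL)

variable {α β : Type} [Rev α]

theorem Tr_step [DecidableEq β] {fl : β → β} {f : α → β} (hf : ∀ x, f (Rev.rev x) = fl (f x))
    (s : Sl α) : step fl (s.src.map f) (tr f s) = some (s.tgt.map f) := by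
  obtain ⟨l, g, r⟩ := s
  have h1 : ∀ t : List β, (l.map f ++ t).take l.length = l.map f := fun t => by
    rw [← List.length_map f]; exact List.take_left
  have h2 : ∀ t : List β, (l.map f ++ t).drop l.length = t := fun t => by
    rw [← List.length_map f]; exact List.drop_left
  cases g <;>
    simp [tr, step, Sl.src, Sl.tgt, Gen.src, Gen.tgt, h1, h2, hf]

theorem tr_run [DecidableEq β] {fl : β → β} {f : α → β} (hf : ∀ x, f (Rev.rev x) = fl (f x))
    {ρ σ : List α} {w : List (Sl α)} (h : Run ρ w σ) :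
    (w.map (tr f)).foldlM (step fl) (ρ.map f) = some (σ.map f) := by
  induction w generalizing ρ with
  | nil =>
    have : ρ = σ := h
    simp [this]
  | cons s w ih =>
    rw [List.map_cons, List.foldlM_cons, h.1, Tr_step hf]
    exact ih h.2

theorem Tr_closed [DecidableEq β] {fl : β → β} {f : α → β} (hf : ∀ x, f (Rev.rev x) = fl (f x))
    {w : List (Sl α)} (h : Run [] w []) : Closed fl (w.map (tr f)) :=
  tr_run hf h

theorem Tr_one [DecidableEq β] {fl : β → β} {f : α → β} (hf : ∀ x, f (Rev.rev x) = fl (f x))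
    {M : List (MP_7f6fde_gt.Sl β) → List (MP_7f6fde_gt.Sl β) → Prop} {w₁ u u' w₂ : List (Sl α)}
    (h : Run [] (w₁ ++ u ++ w₂) []) (h' : Run [] (w₁ ++ u' ++ w₂) [])
    (hM : M (u.map (tr f)) (u'.map (tr f))) :
    MP_7f6fde_gt.OneMove fl M ((w₁ ++ u ++ w₂).map (tr f)) ((w₁ ++ u' ++ w₂).map (tr f)) :=
  ⟨Tr_closed hf h, Tr_closed hf h', w₁.map (tr f), w₂.map (tr f), _, _, hM, by simp, by simp⟩

theorem Tr_loc [DecidableEq β] {fl : β → β} {f : α → β} (hf : ∀ x, f (Rev.rev x) = fl (f x))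
    {F : List (MP_7f6fde_gt.Sl β) → LL}
    (hF : ∀ D D', MP_7f6fde_gt.OneMove fl MP_7f6fde_gt.Reg D D' → F D = F D')
    {ρ σ : List α} {w₁ w₂ : List (Sl α)} (h₁ : Run [] w₁ ρ) (h₂ : Run σ w₂ [])
    (p u u' q : List (Sl α)) (h : Run ρ (p ++ u ++ q) σ) (h' : Run ρ (p ++ u' ++ q) σ)
    (hM : MP_7f6fde_gt.Reg (u.map (tr f)) (u'.map (tr f))) :
    F ((w₁ ++ (p ++ u ++ q) ++ w₂).map (tr f)) = F ((w₁ ++ (p ++ u' ++ q) ++ w₂).map (tr f)) := by
  have e : ∀ v : List (Sl α), w₁ ++ (p ++ v ++ q) ++ w₂ = (w₁ ++ p) ++ v ++ (q ++ w₂) := by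
    intro v; simp
  have k : ∀ v : List (Sl α), Run ρ (p ++ v ++ q) σ → Run [] ((w₁ ++ p) ++ v ++ (q ++ w₂)) [] := by
    intro v hv
    rw [← e]
    exact run_append.2 ⟨σ, run_append.2 ⟨ρ, h₁, hv⟩, h₂⟩
  rw [e, e]
  exact hF _ _ (Tr_one hf (k u h) (k u' h') hM)

omit [Rev α] in
theorem Tr_r2 (f : α → β) (l l' r r' : List α) (x y x' y' : α) (s : Bool)
    (h : l'.length = l.length) :
    MP_7f6fde_gt.Reg (([⟨l, .cr x y s, r⟩, ⟨l', .cr x' y' (!s), r'⟩] : List (Sl α)).map (tr f))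
      (([] : List (Sl α)).map (tr f)) := by
  simpa [tr, h] using MP_7f6fde_gt.Reg.r2 (α := β) l.length s

omit [Rev α] in
theorem Tr_r3 (f : α → β) (l r : List α) (x y z : α) (s : Bool) :
    MP_7f6fde_gt.Reg
      (([⟨l, .cr x y s, z :: r⟩, ⟨l ++ [y], .cr x z s, r⟩, ⟨l, .cr y z s, x :: r⟩] :
        List (Sl α)).map (tr f))
      (([⟨l ++ [x], .cr y z s, r⟩, ⟨l, .cr x z s, y :: r⟩, ⟨l ++ [z], .cr x y s, r⟩] :
        List (Sl α)).map (tr f)) := by
  simpa [tr] using MP_7f6fde_gt.Reg.r3 (α := β) l.length s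

theorem Tr_move [DecidableEq β] {fl : β → β} {f : α → β} (hf : ∀ x, f (Rev.rev x) = fl (f x))
    {F : List (MP_7f6fde_gt.Sl β) → LL}
    (hF : ∀ D D', MP_7f6fde_gt.OneMove fl MP_7f6fde_gt.Reg D D' → F D = F D')
    {w₁ u u' w₂ : List (Sl α)} (hm : Move u u') (h : Run [] (w₁ ++ u ++ w₂) []) :
    F ((w₁ ++ u ++ w₂).map (tr f)) = F ((w₁ ++ u' ++ w₂).map (tr f)) := by
  have h' : Run [] (w₁ ++ u' ++ w₂) [] := WEqv_run_mid (fun _ _ => Move.run hm) h
  have key : MP_7f6fde_gt.Reg (u.map (tr f)) (u'.map (tr f)) →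
      F ((w₁ ++ u ++ w₂).map (tr f)) = F ((w₁ ++ u' ++ w₂).map (tr f)) :=
    fun hM => hF _ _ (Tr_one hf h h' hM)
  cases hm with
  | comm l m r g g' =>
    apply key
    have := MP_7f6fde_gt.Reg.comm (tr f ⟨l, g, []⟩) (tr f ⟨l, g', []⟩) m.length
    cases g <;> cases g' <;>
      simpa [tr, Gen.src, Gen.tgt, MP_7f6fde_gt.Sl.at, MP_7f6fde_gt.Sl.pos, MP_7f6fde_gt.Sl.out,
        MP_7f6fde_gt.Sl.inn, add_assoc, add_comm, add_left_comm, ← two_add_one_eq_three,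
        ← one_add_one_eq_two] using this
  | zig l r o =>
    apply key
    simpa [tr] using MP_7f6fde_gt.Reg.zag l.length (f o)
  | zag l r o =>
    apply key
    simpa [tr] using MP_7f6fde_gt.Reg.zig l.length (f (Rev.rev o))
  | cupSlide l r x o s =>
    apply key
    simpa [tr] using MP_7f6fde_gt.Reg.cupSl l.length (f o) s
  | capSlide l r x o s =>
    apply key
    simpa [tr] using MP_7f6fde_gt.Reg.capSl (α := β) l.length s
  | reid2 l r x y s => exact key (Tr_r2 f _ _ _ _ _ _ _ _ s rfl)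
  | reid3 l r x y z a b c habc =>
    obtain ⟨σ, h1, h₂⟩ := run_append.1 h
    obtain ⟨ρ, h₁, h3⟩ := run_append.1 h1
    obtain ⟨rfl, -, -, rfl⟩ := h3
    by_cases hab : a = b
    · subst hab
      by_cases hac : a = c
      · subst hac
        exact key (Tr_r3 f l r x y z a)
      · obtain rfl : c = !a := by cases a <;> cases c <;> simp_all
        have e1 := Tr_loc hf hF h₁ h₂ []
          [⟨l ++ [x], .cr y z (!a), r⟩, ⟨l ++ [x], .cr z y (!!a), r⟩] []
          [⟨l, .cr x y a, z :: r⟩, ⟨l ++ [y], .cr x z a, r⟩, ⟨l, .cr y z (!a), x :: r⟩]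
          (by simp [Run, Sl.src, Sl.tgt, Gen.src, Gen.tgt])
          (by simp [Run, Sl.src, Sl.tgt, Gen.src, Gen.tgt]) (Tr_r2 f _ _ _ _ _ _ _ _ _ rfl)
        have e2 := Tr_loc hf hF h₁ h₂ [⟨l ++ [x], .cr y z (!a), r⟩] _ _
          [⟨l, .cr y z (!a), x :: r⟩]
          (by simp [Run, Sl.src, Sl.tgt, Gen.src, Gen.tgt])
          (by simp [Run, Sl.src, Sl.tgt, Gen.src, Gen.tgt]) (Tr_r3 f l r x z y a)
        have e3 := Tr_loc hf hF h₁ h₂
          [⟨l ++ [x], .cr y z (!a), r⟩, ⟨l, .cr x z a, y :: r⟩, ⟨l ++ [z], .cr x y a, r⟩]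
          [⟨l, .cr z y a, x :: r⟩, ⟨l, .cr y z (!a), x :: r⟩] [] []
          (by simp [Run, Sl.src, Sl.tgt, Gen.src, Gen.tgt])
          (by simp [Run, Sl.src, Sl.tgt, Gen.src, Gen.tgt]) (Tr_r2 f _ _ _ _ _ _ _ _ _ rfl)
        simp only [Bool.not_not, List.nil_append, List.cons_append, List.append_nil] at e1 e2 e3
        exact e1.symm.trans (e2.symm.trans e3)
    · obtain rfl : b = c := habc.resolve_left hab
      obtain rfl : a = !b := by cases a <;> cases b <;> simp_all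
      have e1 := Tr_loc hf hF h₁ h₂
        [⟨l, .cr x y (!b), z :: r⟩, ⟨l ++ [y], .cr x z b, r⟩, ⟨l, .cr y z b, x :: r⟩]
        [⟨l ++ [z], .cr y x b, r⟩, ⟨l ++ [z], .cr x y (!b), r⟩] [] []
        (by simp [Run, Sl.src, Sl.tgt, Gen.src, Gen.tgt])
        (by simp [Run, Sl.src, Sl.tgt, Gen.src, Gen.tgt]) (Tr_r2 f _ _ _ _ _ _ _ _ _ rfl)
      have e2 := Tr_loc hf hF h₁ h₂ [⟨l, .cr x y (!b), z :: r⟩] _ _
        [⟨l ++ [z], .cr x y (!b), r⟩]
        (by simp [Run, Sl.src, Sl.tgt, Gen.src, Gen.tgt])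
        (by simp [Run, Sl.src, Sl.tgt, Gen.src, Gen.tgt]) (Tr_r3 f l r y x z b)
      have e3 := Tr_loc hf hF h₁ h₂ []
        [⟨l, .cr x y (!b), z :: r⟩, ⟨l, .cr y x (!!b), z :: r⟩] []
        [⟨l ++ [x], .cr y z b, r⟩, ⟨l, .cr x z b, y :: r⟩, ⟨l ++ [z], .cr x y (!b), r⟩]
        (by simp [Run, Sl.src, Sl.tgt, Gen.src, Gen.tgt])
        (by simp [Run, Sl.src, Sl.tgt, Gen.src, Gen.tgt]) (Tr_r2 f _ _ _ _ _ _ _ _ _ rfl)
      simp only [Bool.not_not, List.nil_append, List.cons_append, List.append_nil] at e1 e2 e3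
      exact e1.symm.trans (e2.symm.trans e3)

theorem homfly_eqv {P : List (MP_7f6fde_gt.Sl Bool) → LL} (hP : IsHomfly P) {f : α → Bool}
    (hf : ∀ x, f (Rev.rev x) = !f x) {fa : Bool} {w w' : List (Sl α)} (h : Eqv fa [] [] w w') :
    P (w.map (tr f)) = P (w'.map (tr f)) := by
  have hF : ∀ D D', MP_7f6fde_gt.OneMove not MP_7f6fde_gt.Reg D D' → P D = P D' := by
    rintro D D' ⟨h1, h2, A, B, L, R, hM, e1, e2⟩
    exact hP.1 _ _ (Relation.EqvGen.rel _ _ ⟨h1, h2, A, B, L, R, Or.inl hM, e1, e2⟩)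
  induction h with
  | refl _ => rfl
  | move w₁ u u' w₂ hm h => exact Tr_move (fl := not) hf hF hm h
  | curl w₁ u u' w₂ _ hm h =>
    have h' : Run [] (w₁ ++ u' ++ w₂) [] := WEqv_run_mid (fun _ _ => Curl.run hm) h
    refine hP.1 _ _ (Relation.EqvGen.rel _ _ (Tr_one (fl := not) hf h h' (Or.inr ?_)))
    cases hm with
    | cup l r o s =>
      exact ⟨s, by simpa [tr, hf] using MP_7f6fde_gt.Curl.cup (fl := not) l.length (f o) s⟩
    | cap l r o s =>
      exact ⟨s, by simpa [tr] using MP_7f6fde_gt.Curl.cap (fl := not) l.length s⟩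
  | symm _ ih => exact ih.symm
  | trans _ _ ih ih' => exact ih.trans ih'

theorem kauffman_eqv {L : List (MP_7f6fde_gt.Sl Unit) → LL} (hL : IsKauffman L)
    {w w' : List (Sl α)} (h : Eqv true [] [] w w') :
    L (w.map (tr fun _ => ())) = L (w'.map (tr fun _ => ())) := by
  induction h with
  | refl _ => rfl
  | move w₁ u u' w₂ hm h => exact Tr_move (fl := id) (fun _ => rfl) hL.1 hm h
  | curl w₁ u u' w₂ hf _ _ => exact absurd hf (by decide)
  | symm _ ih => exact ih.symm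
  | trans _ _ ih ih' => exact ih.trans ih'

theorem homfly_skein {P : List (MP_7f6fde_gt.Sl Bool) → LL} (hP : IsHomfly P)
    {W₁ W₂ : List (Sl Bool)} {l r : List Bool} {x : Bool} (h₁ : Run [] W₁ (l ++ [x, x] ++ r))
    (h₂ : Run (l ++ [x, x] ++ r) W₂ []) :
    T (-1) * P ((W₁ ++ [Sl.mk l (.cr x x true) r] ++ W₂).map (tr id)) -
        T 1 * P ((W₁ ++ [Sl.mk l (.cr x x false) r] ++ W₂).map (tr id)) =
      C (T 1) * P ((W₁ ++ W₂).map (tr id)) := by
  have hf : ∀ y : Bool, id (Rev.rev y) = not (id y) := fun _ => rfl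
  have hc : Run [] (W₁ ++ [Sl.mk l (.cr x x true) r] ++ W₂) [] :=
    run_append.2 ⟨_, run_append.2 ⟨_, h₁, rfl, rfl⟩, h₂⟩
  have := hP.2.2 (W₁.map (tr id)) (W₂.map (tr id)) l.length (l ++ [x, x] ++ r) x x r
    (by simpa using tr_run hf h₁) (by simp) (by simpa [tr] using Tr_closed hf hc)
  simpa [tr] using this

theorem kauffman_skein {L : List (MP_7f6fde_gt.Sl Unit) → LL} (hL : IsKauffman L)
    {W₁ W₂ : List (Sl Unit)} {l r : List Unit} (h₁ : Run [] W₁ (l ++ [(), ()] ++ r))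
    (h₂ : Run (l ++ [(), ()] ++ r) W₂ []) :
    L ((W₁ ++ [Sl.mk l (.cr () () true) r] ++ W₂).map (tr id)) +
        L ((W₁ ++ [Sl.mk l (.cr () () false) r] ++ W₂).map (tr id)) =
      C (T 1) * (L ((W₁ ++ W₂).map (tr id)) +
        L ((W₁ ++ [Sl.mk l (.cap ()) r, Sl.mk l (.cup ()) r] ++ W₂).map (tr id))) := by
  have hf : ∀ y : Unit, id (Rev.rev y) = id (id y) := fun _ => rfl
  have hc : Run [] (W₁ ++ [Sl.mk l (.cr () () true) r] ++ W₂) [] :=
    run_append.2 ⟨_, run_append.2 ⟨_, h₁, rfl, rfl⟩, h₂⟩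
  have := hL.2.2.1 (W₁.map (tr id)) (W₂.map (tr id)) l.length
    (by simpa [tr] using Tr_closed hf hc)
  simpa [tr] using this

theorem kauffman_curl {L : List (MP_7f6fde_gt.Sl Unit) → LL} (hL : IsKauffman L)
    {W₁ W₂ : List (Sl Unit)} {l r : List Unit} (h₁ : Run [] W₁ (l ++ [()] ++ r))
    (h₂ : Run (l ++ [()] ++ r) W₂ []) (s : Bool) :
    L ((W₁ ++ [Sl.mk (l ++ [()]) (.cup ()) r, Sl.mk (l ++ [()]) (.cr () () s) r,
        Sl.mk l (.cap ()) (() :: r)] ++ W₂).map (tr id)) =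
      T (if s then -1 else 1) * L ((W₁ ++ W₂).map (tr id)) := by
  have hf : ∀ y : Unit, id (Rev.rev y) = id (id y) := fun _ => rfl
  have k : ∀ v : List (Sl Unit), Run (l ++ [()] ++ r) v (l ++ [()] ++ r) →
      Run [] (W₁ ++ v ++ W₂) [] := fun v hv =>
    run_append.2 ⟨_, run_append.2 ⟨_, h₁, hv⟩, h₂⟩
  have r1 := k [Sl.mk (l ++ [()]) (.cup ()) r, Sl.mk (l ++ [()]) (.cr () () s) r,
    Sl.mk l (.cap ()) (() :: r)] (by simp [Run, Sl.src, Sl.tgt, Gen.src, Gen.tgt])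
  have r2 := k [Sl.mk (l ++ [()]) (.cup ()) r, Sl.mk l (.cap ()) (() :: r)]
    (by simp [Run, Sl.src, Sl.tgt, Gen.src, Gen.tgt])
  have e1 := hL.2.2.2 s _ _ (Tr_one (M := MP_7f6fde_gt.Curl id s) hf (w₁ := W₁)
    (u := [Sl.mk (l ++ [()]) (.cup ()) r, Sl.mk (l ++ [()]) (.cr () () s) r])
    (u' := [Sl.mk (l ++ [()]) (.cup ()) r]) (w₂ := Sl.mk l (.cap ()) (() :: r) :: W₂)
    (by simpa using r1) (by simpa using r2)
    (by simpa [tr] using MP_7f6fde_gt.Curl.cup (fl := id) (l.length + 1) () s))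
  have e2 := Tr_move hf hL.1 (Move.zag l r ()) r2
  simp only [List.append_assoc, List.cons_append, List.nil_append, List.append_nil] at e1 e2 ⊢
  rw [e1]
  exact congrArg _ e2

end Pool.Agent.P.MP_ac4909_gt.B.K7
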