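import Pool.Agent.P.MP_7f6fde_gt.B.Skein
import Pool.Agent.P.MP_ac4909_gt.B.GB_Loop
import Pool.Agent.P.MP_ac4909_gt.B.GB_Id

/-! The round circle. -/

namespace Pool.Agent.P.MP_ac4909_gt.B.K7

open scoped ContDiff
open Set Real
open Pool.Agent.P.MP_7f6fde_gt (IsHomfly IsKauffman LL)
open Pool.Agent.P.MP_7f6fde_gt.S (rays circle)

theorem circle_smooth (c : Fin 1) : ContDiff ℝ ∞ (circle c) := by
  refine contDiff_euclidean.2 fun i => ?_
  fin_cases i
  · change ContDiff ℝ ∞ fun t : ℝ => cos (2 * π * t) / 2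
    fun_prop
  · change ContDiff ℝ ∞ fun t : ℝ => sin (2 * π * t) / 2
    fun_prop
  · exact contDiff_const

theorem circle_nonVert : NonVert circle := fun c t => by
  have hd : HasDerivAt (circle c) (deriv (circle c) t) t :=
    ((circle_smooth c).differentiable (by simp) t).hasDerivAt
  have h0 : HasDerivAt (fun u => circle c u 0) (deriv (circle c) t 0) t :=
    (EuclideanSpace.proj (0 : Fin 3) : E3 →L[ℝ] ℝ).hasFDerivAt.comp_hasDerivAt t hd
  have h1 : HasDerivAt (fun u => circle c u 1) (deriv (circle c) t 1) t :=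
    (EuclideanSpace.proj (1 : Fin 3) : E3 →L[ℝ] ℝ).hasFDerivAt.comp_hasDerivAt t hd
  have l : HasDerivAt (fun u : ℝ => 2 * π * u) (2 * π) t := by
    simpa using (hasDerivAt_id t).const_mul (2 * π)
  have e0 := h0.unique (l.cos.div_const 2)
  have e1 := h1.unique (l.sin.div_const 2)
  by_contra h
  simp only [not_or, not_not] at h
  rw [h.1] at e0
  rw [h.2] at e1
  have hp := pi_pos
  have a : sin (2 * π * t) = 0 := by
    have : sin (2 * π * t) * π = 0 := by linarith
    exact (mul_eq_zero.1 this).resolve_right hp.ne'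
  have b : cos (2 * π * t) = 0 := by
    have : cos (2 * π * t) * π = 0 := by linarith
    exact (mul_eq_zero.1 this).resolve_right hp.ne'
  have := sin_sq_add_cos_sq (2 * π * t)
  rw [a, b] at this
  norm_num at this

theorem circle_isU : IsU circle := by
  refine ⟨circle_smooth, fun c t => ?_, fun c c' s t h => ⟨Subsingleton.elim _ _, ?_⟩,
    fun c t h => ?_⟩
  · simp only [circle, mul_add, mul_one, cos_add_two_pi, sin_add_two_pi]
  · have h0 : cos (2 * π * s) / 2 = cos (2 * π * t) / 2 := congrArg (fun p : E3 => p 0) h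
    have h1 : sin (2 * π * s) / 2 = sin (2 * π * t) / 2 := congrArg (fun p : E3 => p 1) h
    have : cos (2 * π * t - 2 * π * s) = 1 := by
      rw [cos_sub, ← show cos (2 * π * s) = cos (2 * π * t) by linarith,
        ← show sin (2 * π * s) = sin (2 * π * t) by linarith]
      linarith [sin_sq_add_cos_sq (2 * π * s)]
    obtain ⟨k, hk⟩ := (cos_eq_one_iff _).1 this
    refine ⟨k, mul_left_cancel₀ (show 2 * π ≠ 0 by positivity) ?_⟩
    linarith
  · have := circle_nonVert c t
    rw [h] at this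
    simp at this

theorem trace_circle : trace circle = unknot := by
  ext p
  simp only [trace, mem_iUnion, unknot, mem_range]
  constructor
  · rintro ⟨c, t, rfl⟩
    exact ⟨2 * π * t, rfl⟩
  · rintro ⟨t, rfl⟩
    refine ⟨0, t / (2 * π), ?_⟩
    rw [circle, mul_div_cancel₀ _ (by positivity)]

theorem unknot_box {p : E3} (hp : p ∈ unknot) : p ∈ Qb (7 / 8) := by
  obtain ⟨t, rfl⟩ := hp
  intro i
  fin_cases i
  · change |cos t / 2| < 7 / 8
    rw [abs_lt]; constructor <;> linarith [neg_one_le_cos t, cos_le_one t]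
  · change |sin t / 2| < 7 / 8
    rw [abs_lt]; constructor <;> linarith [neg_one_le_sin t, sin_le_one t]
  · change |(0 : ℝ)| < 7 / 8
    norm_num

theorem circle_word : ∃ v, HasWord true circle v ∧
    v.map (Sl.map fun _ => ()) = [⟨[], .cup (), []⟩, ⟨[], .cap (), []⟩] := by
  have h : PosOK (([] : List (ℝ × Option Empty)).map Prod.fst) := ⟨List.Pairwise.nil, by simp⟩
  have hc := hasContent_unknot h
  obtain ⟨W₁, W₂, l, r, hr, H⟩ := block_un circle_isU circle_nonVert (A := unknot)
    (fun p _ => by rw [trace_circle]) hc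
  obtain ⟨v₀, -, e₀⟩ := H Empty (fun c => c.elim) ∅ []
    ⟨fun c => c.elim, fun c => c.elim, fun c => c.elim, fun c => c.elim⟩
    (fun p hp => by
      rw [trace_circle]
      exact iff_of_false (by simp [trace]) fun h => hp (unknot_box h))
    (fun p _ => by simp [trace])
    ((hasPic_id [] h).hasContent.congr fun y _ => by simp [strands, nn])
  have hv : v₀ = [] := by
    rcases v₀ with _ | ⟨⟨_, g, _⟩, _⟩
    · rfl
    · cases g with
      | cup o => exact o.name.elim
      | cap o => exact o.name.elim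
      | cr x => exact x.name.elim
  subst hv
  simp only [List.map_nil, List.append_nil, List.nil_eq, List.append_eq_nil_iff] at e₀
  obtain ⟨rfl, rfl⟩ := e₀
  have hr' : [] = l ++ r := by simpa [Run] using hr
  obtain ⟨rfl, rfl⟩ := List.append_eq_nil_iff.1 hr'.symm
  obtain ⟨v, hv, e⟩ := H (Fin 1) circle unknot _ circle_isU (fun _ _ => Iff.rfl)
    (fun p _ => by rw [trace_circle]) hc
  exact ⟨v, hv, by simpa [encW, crossR, crossL, pad, Sl.map, Gen.map] using e⟩

theorem shadow_circle {β : Type} {v : List (Sl β)}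
    (e : v.map (Sl.map fun _ => ()) = [⟨[], .cup (), []⟩, ⟨[], .cap (), []⟩]) :
    ∃ o o', v = [⟨[], .cup o, []⟩, ⟨[], .cap o', []⟩] := by
  obtain ⟨⟨l, g, r⟩, v', rfl, h₁, h₂⟩ := List.map_eq_cons_iff.1 e
  obtain ⟨⟨l', g', r'⟩, rfl, h₃⟩ := List.map_eq_singleton_iff.1 h₂
  simp only [Sl.map, Sl.mk.injEq, List.map_eq_nil_iff] at h₁ h₃
  obtain ⟨rfl, h₁, rfl⟩ := h₁
  obtain ⟨rfl, h₃, rfl⟩ := h₃
  cases g <;> cases g' <;> simp [Gen.map] at h₁ h₃ ⊢

theorem lv_circle {L : List (MP_7f6fde_gt.Sl Unit) → LL} (hL : IsKauffman L) :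
    lv L (trace circle) = 1 := by
  obtain ⟨v, hv, e⟩ := circle_word
  rw [lv_word hL circle_isU circle_nonVert hv e]
  exact hL.2.1

theorem pv_circle {P : List (MP_7f6fde_gt.Sl Bool) → LL} (hP : IsHomfly P) {κ : Type} [Fintype κ]
    {γ : κ → ℝ → E3} (hγ : IsU γ) (h : trace γ = trace circle) : pv P (rays γ) = 1 := by
  obtain ⟨v, hv, e⟩ := circle_word
  obtain ⟨o, o', rfl⟩ := shadow_circle e
  obtain ⟨β, φ, fl, hφ, he⟩ := exists_rp hγ circle_isU h.symm
  rw [pv_word hP hγ (hv.rename β.surjective hφ he) rfl]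
  exact hP.2.1 _

end Pool.Agent.P.MP_ac4909_gt.B.K7
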