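import Pool.Agent.P.MP_7f6fde_gt.B.Tr
import Pool.Agent.P.MP_ac4909_gt.B.GCore

/-! The values of smooth links. -/

namespace Pool.Agent.P.MP_ac4909_gt.B.K7

open scoped ContDiff
open Set
open Pool.Agent.P.MP_7f6fde_gt (IsHomfly IsKauffman LL)
open Pool.Agent.P.MP_7f6fde_gt.S (rays)

variable {κ κ' : Type} {γ : κ → ℝ → E3} {γ' : κ' → ℝ → E3}

theorem tr_map {α β δ : Type} (φ : α → β) (f : β → δ) (w : List (Sl α)) :
    (w.map (Sl.map φ)).map (tr f) = w.map (tr (f ∘ φ)) := by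
  rw [List.map_map]
  refine List.map_congr_left fun s _ => ?_
  obtain ⟨l, g, r⟩ := s
  cases g <;> simp [tr, Sl.map, Gen.map]

theorem mem_rays (γ : κ → ℝ → E3) (c : κ) (t : ℝ) : (γ c t, deriv (γ c) t) ∈ rays γ :=
  ⟨c, t, 1, one_pos, by rw [one_smul]⟩

theorem mem_trace {p : E3} : p ∈ trace γ ↔ ∃ v, (p, v) ∈ rays γ := by
  constructor
  · intro hp
    obtain ⟨c, t, rfl⟩ := mem_iUnion.1 hp
    exact ⟨_, mem_rays γ c t⟩
  · rintro ⟨v, c, t, r, -, e⟩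
    exact mem_iUnion.2 ⟨c, t, (congrArg Prod.fst e).symm⟩

theorem deriv_per (hγ : IsU γ) (c : κ) (t : ℝ) (k : ℤ) :
    deriv (γ c) (t + k) = deriv (γ c) t := by
  rw [← deriv_comp_add_const]
  congr 1
  exact funext fun u => per_int (hγ.per c) u k

/-- the tangent vectors at a point of the link -/
theorem rays_at (hγ : IsU γ) {c : κ} {t : ℝ} {v : E3} (h : (γ c t, v) ∈ rays γ) :
    ∃ r : ℝ, 0 < r ∧ v = r • deriv (γ c) t := by
  obtain ⟨c', t', r, hr, e⟩ := h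
  simp only [Prod.mk.injEq] at e
  obtain ⟨rfl, k, rfl⟩ := hγ.inj _ _ _ _ e.1
  exact ⟨r, hr, by rw [e.2, deriv_per hγ]⟩

/-- two parametrisations of an oriented link -/
theorem exists_rp_or [Fintype κ] [Fintype κ'] (hγ : IsU γ) (hγ' : IsU γ')
    (h : rays γ' = rays γ) : ∃ (β : κ' ≃ κ) (φ : κ' → ℝ → ℝ), Rp φ (fun _ => false) ∧
      ∀ c t, γ' c t = γ (β c) (φ c t) := by
  obtain ⟨β, φ, σ, H⟩ := exists_reparam' hγ hγ' (by
    ext p
    rw [mem_trace, mem_trace, h])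
  have hσ : ∀ c, σ c = 1 := fun c => by
    obtain ⟨h1, h2, h3, -, h5⟩ := H c
    have e : deriv (γ' c) 0 = deriv (φ c) 0 • deriv (γ (β c)) (φ c 0) := by
      rw [show γ' c = γ (β c) ∘ φ c from funext h5]
      exact deriv.scomp 0 ((hγ.smooth _).differentiable (by simp) _)
        (h2.differentiable (by simp) _)
    have hm := mem_rays γ' c 0
    rw [h, h5 0] at hm
    obtain ⟨r, hr, e'⟩ := rays_at hγ hm
    have e2 : deriv (φ c) 0 = r := smul_left_injective ℝ (hγ.imm _ _) (e.symm.trans e')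
    rcases h1 with h1 | h1
    · exact h1
    · have := h3 0
      rw [h1, e2] at this
      linarith
  refine ⟨β, φ, ⟨fun c => (H c).2.1.continuous, fun c _ => ⟨strictMono_of_deriv_pos fun t => ?_,
    fun t => ?_⟩, fun c hc => absurd hc Bool.false_ne_true⟩, fun c => (H c).2.2.2.2⟩
  · have := (H c).2.2.1 t
    rwa [hσ, one_mul] at this
  · rw [(H c).2.2.2.1 t, hσ]

section Or

variable {P : List (MP_7f6fde_gt.Sl Bool) → LL}

theorem homfly_rp [Fintype κ] (hP : IsHomfly P) (hγ : IsU γ) {β : κ' → κ}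
    (hβ : Function.Surjective β) {φ : κ' → ℝ → ℝ} (hφ : Rp φ fun _ => false)
    (he : ∀ c t, γ' c t = γ (β c) (φ c t)) {w : List (Sl (Arc κ))} {w' : List (Sl (Arc κ'))}
    (hw : HasWord false γ w) (hw' : HasWord false γ' w') :
    P (w.map (tr Arc.up)) = P (w'.map (tr Arc.up)) := by
  rw [homfly_eqv hP (f := Arc.up) rev_up (hw.eqv hγ (fun e => absurd e Bool.false_ne_true)
    (hw'.rename hβ hφ he)), tr_map]
  congr 3
  funext a
  simp [ren]

/-- `x` is the value of a word of the oriented link `S` -/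
def PIs (P : List (MP_7f6fde_gt.Sl Bool) → LL) (S : Set (E3 × E3)) (x : LL) : Prop :=
  ∃ (κ : Type) (_ : Fintype κ) (γ : κ → ℝ → E3) (w : List (Sl (Arc κ))),
    IsU γ ∧ S = rays γ ∧ HasWord false γ w ∧ x = P (w.map (tr Arc.up))

/-- the value of an oriented link -/
noncomputable def pv (P : List (MP_7f6fde_gt.Sl Bool) → LL) (S : Set (E3 × E3)) : LL :=
  Classical.epsilon (PIs P S)

theorem pv_spec [Fintype κ] (hP : IsHomfly P) (hγ : IsU γ) {w : List (Sl (Arc κ))}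
    (hw : HasWord false γ w) : pv P (rays γ) = P (w.map (tr Arc.up)) := by
  have h : PIs P (rays γ) (P (w.map (tr Arc.up))) := ⟨κ, inferInstance, γ, w, hγ, rfl, hw, rfl⟩
  obtain ⟨κ', _, γ', w', hγ', hS, hw', e⟩ := Classical.epsilon_spec ⟨_, h⟩
  obtain ⟨β, φ, hφ, he⟩ := exists_rp_or hγ hγ' hS.symm
  rw [pv, e]
  exact (homfly_rp hP hγ β.surjective hφ he hw hw').symm

theorem pv_iso [Fintype κ] (hP : IsHomfly P) {H : ℝ → κ → ℝ → E3}
    (hs : ∀ c, ContDiff ℝ ∞ fun p : ℝ × ℝ => H p.1 c p.2)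
    (hU : ∀ s ∈ Icc (0 : ℝ) 1, IsU (H s)) : pv P (rays (H 0)) = pv P (rays (H 1)) := by
  have i0 : (0 : ℝ) ∈ Icc (0 : ℝ) 1 := ⟨le_rfl, zero_le_one⟩
  have i1 : (1 : ℝ) ∈ Icc (0 : ℝ) 1 := ⟨zero_le_one, le_rfl⟩
  obtain ⟨w₀, h₀⟩ := exists_hasWord (fa := false) (hU 0 i0) fun e => absurd e (by simp)
  obtain ⟨w₁, h₁⟩ := exists_hasWord (fa := false) (hU 1 i1) fun e => absurd e (by simp)
  rw [pv_spec hP (hU 0 i0) h₀, pv_spec hP (hU 1 i1) h₁]
  exact homfly_eqv hP (f := Arc.up) rev_up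
    (hasWord_iso hs hU (fun e => absurd e Bool.false_ne_true) h₀ h₁)

end Or

section Un

variable {L : List (MP_7f6fde_gt.Sl Unit) → LL}

/-- `x` is the value of a word of the diagram `D` -/
def LIs (L : List (MP_7f6fde_gt.Sl Unit) → LL) (D : Set E3) (x : LL) : Prop :=
  ∃ (κ : Type) (_ : Fintype κ) (γ : κ → ℝ → E3) (w : List (Sl (Arc κ))),
    IsU γ ∧ D = trace γ ∧ HasWord true γ w ∧ x = L (w.map (tr fun _ => ()))

/-- the value of a diagram -/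
noncomputable def lv (L : List (MP_7f6fde_gt.Sl Unit) → LL) (D : Set E3) : LL :=
  Classical.epsilon (LIs L D)

theorem lv_spec [Fintype κ] (hL : IsKauffman L) (hγ : IsU γ) (hv : NonVert γ)
    {w : List (Sl (Arc κ))} (hw : HasWord true γ w) :
    lv L (trace γ) = L (w.map (tr fun _ => ())) := by
  have h : LIs L (trace γ) (L (w.map (tr fun _ => ()))) :=
    ⟨κ, inferInstance, γ, w, hγ, rfl, hw, rfl⟩
  obtain ⟨κ', _, γ', w', hγ', hS, hw', e⟩ := Classical.epsilon_spec ⟨_, h⟩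
  obtain ⟨β, φ, fl, hφ, he⟩ := exists_rp hγ hγ' hS.symm
  rw [lv, e, kauffman_eqv hL (hw.eqv hγ (fun _ => hv) (hw'.rename β.surjective hφ he)), tr_map]

theorem lv_iso [Fintype κ] (hL : IsKauffman L) {H : ℝ → κ → ℝ → E3}
    (hs : ∀ c, ContDiff ℝ ∞ fun p : ℝ × ℝ => H p.1 c p.2)
    (hU : ∀ s ∈ Icc (0 : ℝ) 1, IsU (H s)) (hv : ∀ s ∈ Icc (0 : ℝ) 1, NonVert (H s)) :
    lv L (trace (H 0)) = lv L (trace (H 1)) := by
  have i0 : (0 : ℝ) ∈ Icc (0 : ℝ) 1 := ⟨le_rfl, zero_le_one⟩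
  have i1 : (1 : ℝ) ∈ Icc (0 : ℝ) 1 := ⟨zero_le_one, le_rfl⟩
  obtain ⟨w₀, h₀⟩ := exists_hasWord (fa := true) (hU 0 i0) fun _ => hv 0 i0
  obtain ⟨w₁, h₁⟩ := exists_hasWord (fa := true) (hU 1 i1) fun _ => hv 1 i1
  rw [lv_spec hL (hU 0 i0) (hv 0 i0) h₀, lv_spec hL (hU 1 i1) (hv 1 i1) h₁]
  exact kauffman_eqv hL (hasWord_iso hs hU (fun _ => hv) h₀ h₁)

end Un

end Pool.Agent.P.MP_ac4909_gt.B.K7
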